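import Pool.Agent.J6H93.NutE.Ones

/-!
# The bulk with all distances from two on
-/

set_option autoImplicit false
set_option linter.unusedSectionVars false

namespace Pool.Agent.J6H93.NutE

open Finset Pool.Agent.TH296.Nut Pool.Agent.J6H28.Nut

/-- the circular distance is in `[2, h + 1]` -/
def cir2 (m h i j : ℕ) : Prop :=
  (i + 2 ≤ j ∧ j ≤ i + h + 1) ∨ (j + 2 ≤ i ∧ i ≤ j + h + 1) ∨
  (i + 2 ≤ j + m ∧ j + m ≤ i + h + 1) ∨ (j + 2 ≤ i + m ∧ i + m ≤ j + h + 1)

instance (m h i j : ℕ) : Decidable (cir2 m h i j) := by
  unfold cir2; infer_instance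

theorem card_cir2 {m h i : ℕ} (hi : i < m) (h2 : 2 * (h + 1) < m) :
    ((range m).filter (fun j => cir2 m h i j)).card = 2 * h := by
  induction h with
  | zero =>
    rw [mul_zero, card_eq_zero, filter_eq_empty_iff]
    intro j hj
    rw [mem_range] at hj
    unfold cir2
    omega
  | succ h ih =>
    have e : (range m).filter (fun j => cir2 m (h + 1) i j) =
        (range m).filter (fun j => cir2 m h i j) ∪
        (range m).filter (fun j => cdi m (h + 2) i j) := by
      ext j
      rw [mem_union, mem_filter, mem_filter, mem_filter, mem_range]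
      unfold cir2 cdi
      omega
    rw [e, card_union_of_disjoint, ih (by omega), card_cdi hi (by omega) (by omega)]
    · ring
    · rw [disjoint_left]
      intro j hj hj2
      rw [mem_filter, mem_range] at hj hj2
      unfold cir2 at hj
      unfold cdi at hj2
      omega

/-- the bulk relation -/
def blk2 (m k i j : ℕ) : Prop := cir2 m (k / 2) i j ∨ (k % 2 = 1 ∧ mat m i j)

instance (m k i j : ℕ) : Decidable (blk2 m k i j) := by
  unfold blk2; infer_instance

theorem card_blk2 {m k i : ℕ} (hi : i < m) (hk : k + 3 ≤ m)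
    (hk2 : m % 2 = 1 → k % 2 = 1 → k + 4 ≤ m) :
    ((range m).filter (fun j => blk2 m k i j)).card =
      if m % 2 = 1 ∧ k % 2 = 1 ∧ i = 0 then k - 1 else k := by
  rcases Nat.mod_two_eq_zero_or_one k with h | h
  · rw [if_neg (by omega)]
    have e : (range m).filter (fun j => blk2 m k i j) =
        (range m).filter (fun j => cir2 m (k / 2) i j) := by
      ext j
      simp [blk2, h]
    rw [e, card_cir2 hi (by omega)]
    omega
  · have e : (range m).filter (fun j => blk2 m k i j) =
        (range m).filter (fun j => cir2 m (k / 2) i j) ∪ (range m).filter (fun j => mat m i j) := by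
      ext j
      simp only [blk2, h, mem_filter, mem_union, true_and]
      tauto
    rw [e, card_union_of_disjoint, card_cir2 hi (by omega), card_mat hi (by omega)]
    · split_ifs <;> omega
    · rw [disjoint_left]
      intro j hj hj2
      rw [mem_filter, mem_range] at hj hj2
      unfold cir2 at hj
      unfold mat at hj2
      split_ifs at hj2 <;> omega

theorem blk2_symm (m k i j : ℕ) : blk2 m k i j ↔ blk2 m k j i := by
  have h1 : cir2 m (k / 2) i j ↔ cir2 m (k / 2) j i := by
    unfold cir2
    constructor <;> intro h <;> omega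
  have h2 : mat m i j ↔ mat m j i := by
    unfold mat
    split_ifs <;> constructor <;> intro h <;> omega
  unfold blk2
  rw [h1, h2]

/-- positions at distance at most one are not joined -/
theorem not_blk2 {m k i j : ℕ} (hi : i < m) (hj : j < m) (hk : k + 3 ≤ m)
    (hk2 : m % 2 = 1 → k % 2 = 1 → k + 4 ≤ m) (h6 : 5 ≤ m)
    (h : (j ≤ i + 1 ∧ i ≤ j + 1) ∨ (j + m ≤ i + 1) ∨ (i + m ≤ j + 1)) : ¬ blk2 m k i j := by
  unfold blk2 cir2 mat
  split_ifs <;> omega

/-- positions at distance two are joined if `2 ≤ k` -/
theorem is_blk2 {m k i j : ℕ} (hk : 2 ≤ k) (h : j = i + 2 ∨ i = j + 2) : blk2 m k i j := by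
  left
  unfold cir2
  omega

/-! ### sums over a range -/

theorem sum_at {R : Type} [CommRing R] (m c : ℕ) (g : ℕ → R) :
    ∑ j ∈ range m, (if j = c then g j else 0) = if c < m then g c else 0 := by
  rw [Finset.sum_ite_eq']
  simp only [mem_range]

theorem sum_pred {R : Type} [CommRing R] (m i : ℕ) (hi : i < m) (g : ℕ → R) :
    ∑ j ∈ range m, (if j + 1 = i then g j else 0) = if 1 ≤ i then g (i - 1) else 0 := by
  rcases i with _ | i
  · simp
  · have : ∀ j, (if j + 1 = i + 1 then g j else 0) = (if j = i then g j else 0) := by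
      intro j
      by_cases h : j = i
      · rw [if_pos h, if_pos (by omega)]
      · rw [if_neg h, if_neg (by omega)]
    rw [Finset.sum_congr rfl fun j _ => this j, sum_at, if_pos (by omega), if_pos (by omega)]
    rfl

/-- the zero extension of a vector -/
def zext {R : Type} [CommRing R] {m : ℕ} (v : Fin m → R) (j : ℕ) : R :=
  if h : j < m then v ⟨j, h⟩ else 0

theorem zext_val {R : Type} [CommRing R] {m : ℕ} (v : Fin m → R) (j : Fin m) :
    zext v j.val = v j := by
  simp [zext, j.2]

theorem sum_zext {R : Type} [CommRing R] {m : ℕ} (f : ℕ → R) (v : Fin m → R) :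
    ∑ j : Fin m, f j.val * v j = ∑ j ∈ range m, f j * zext v j := by
  rw [← Fin.sum_univ_eq_sum_range (fun j => f j * zext v j) m]
  refine Finset.sum_congr rfl fun j _ => ?_
  rw [zext_val]

end Pool.Agent.J6H93.NutE
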