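import Pool.Agent.J6H28.Nut.Odd

/-!
# Two criteria for regular nut graphs on pairs, even degree
-/

set_option autoImplicit false
set_option linter.unusedSectionVars false

namespace Pool.Agent.J6H93.NutE

open Finset Pool.Agent.TH296.Nut Pool.Agent.J6H28.Nut

variable {V : Type} [Fintype V] [DecidableEq V]

/-- the bilinear form of a matrix -/
def bf (M : V → V → ℤ) (v w : V → ℤ) : ℤ := ∑ i, v i * ∑ j, M i j * w j

theorem bf_comm (M : V → V → ℤ) (hM : ∀ i j, M i j = M j i) (v w : V → ℤ) :
    bf M v w = bf M w v := by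
  unfold bf
  simp only [Finset.mul_sum]
  rw [Finset.sum_comm]
  refine Finset.sum_congr rfl fun i _ => Finset.sum_congr rfl fun j _ => ?_
  rw [hM j i]
  ring

theorem bf_add_right (M : V → V → ℤ) (v w w' : V → ℤ) :
    bf M v (fun i => w i + w' i) = bf M v w + bf M v w' := by
  unfold bf
  rw [← Finset.sum_add_distrib]
  refine Finset.sum_congr rfl fun i _ => ?_
  rw [← mul_add, ← Finset.sum_add_distrib]
  congr 1
  refine Finset.sum_congr rfl fun j _ => ?_
  ring

theorem bf_mul_right (M : V → V → ℤ) (c : ℤ) (v w : V → ℤ) :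
    bf M v (fun i => c * w i) = c * bf M v w := by
  unfold bf
  rw [Finset.mul_sum]
  refine Finset.sum_congr rfl fun i _ => ?_
  rw [← mul_assoc, mul_comm c, mul_assoc, Finset.mul_sum (a := c)]
  congr 1
  refine Finset.sum_congr rfl fun j _ => ?_
  ring

theorem bf_zero_right (M : V → V → ℤ) (v w : V → ℤ) (h : ∀ i, ∑ j, M i j * w j = 0) :
    bf M v w = 0 := by
  unfold bf
  refine Finset.sum_eq_zero fun i _ => ?_
  rw [h i, mul_zero]

/-- the expansion of the form at `v + 2 t` -/
theorem bf_exp (M : V → V → ℤ) (hM : ∀ i j, M i j = M j i) (v t : V → ℤ) :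
    bf M (fun i => v i + 2 * t i) (fun i => v i + 2 * t i) =
      bf M v v + 4 * bf M t v + 4 * bf M t t := by
  have h1 := bf_add_right M (fun i => v i + 2 * t i) v (fun i => 2 * t i)
  have h2 := bf_add_right M v v (fun i => 2 * t i)
  have h3 := bf_mul_right M 2 (fun i => v i + 2 * t i) t
  have h4 := bf_mul_right M 2 v t
  have h5 := bf_add_right M t v (fun i => 2 * t i)
  have h6 := bf_mul_right M 2 t t
  have h7 := bf_comm M hM (fun i => v i + 2 * t i) v
  have h8 := bf_comm M hM (fun i => v i + 2 * t i) t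
  have h9 := bf_comm M hM v t
  linarith

/-- a symmetric integral matrix with zero diagonal has even values -/
theorem even_bf (G : V → V → ℤ) (hs : ∀ i j, G i j = G j i) (hd : ∀ i, G i i = 0) (v : V → ℤ) :
    (2 : ℤ) ∣ bf G v v := by
  refine (ZMod.intCast_zmod_eq_zero_iff_dvd (bf G v v) 2).1 ?_
  unfold bf
  have e : (((∑ i, v i * ∑ j, G i j * v j : ℤ)) : ZMod 2) =
      ∑ p ∈ (univ : Finset V) ×ˢ (univ : Finset V), ((v p.1 * (G p.1 p.2 * v p.2) : ℤ) : ZMod 2) := by
    rw [Finset.sum_product]
    push_cast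
    refine Finset.sum_congr rfl fun i _ => ?_
    rw [Finset.mul_sum]
  rw [e]
  refine Finset.sum_involution (fun p _ => (p.2, p.1)) ?_ ?_ ?_ ?_
  · rintro ⟨i, j⟩ _
    simp only
    have : v j * (G j i * v i) = v i * (G i j * v j) := by rw [hs j i]; ring
    rw [this, ← two_mul]
    have h2 : (2 : ZMod 2) = 0 := by decide
    rw [h2, zero_mul]
  · rintro ⟨i, j⟩ _ hne heq
    simp only [Prod.mk.injEq] at heq
    apply hne
    simp only
    rw [heq.1, hd]
    simp
  · intro p _
    simp
  · rintro ⟨i, j⟩ _
    rfl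

/-- `B + S` is twice a symmetric matrix with zero diagonal -/
theorem PD.four {ρ : ℕ} {S K : V → V → ℤ} (h : PD V ρ S K) (v : V → ℤ) :
    (4 : ℤ) ∣ bf (fun i j => S i j ^ 2 + 2 * K i j) v v + bf S v v := by
  have h1 : ∀ i j, ∃ g : ℤ, S i j ^ 2 + S i j = 2 * g := by
    intro i j
    rcases h.val i j with e | e | e <;> rw [e]
    · exact ⟨0, by norm_num⟩
    · exact ⟨1, by norm_num⟩
    · exact ⟨0, by norm_num⟩
  choose g hg using h1
  have h2 := even_bf (fun i j => g i j + K i j) (by
    intro i j
    have e1 := hg i j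
    have e2 := hg j i
    rw [h.symm j i] at e2
    rw [h.ks i j]
    linarith) (by
    intro i
    rw [h.kd i]
    have e1 := hg i i
    rcases h.val i i with e | e | e
    · rw [e] at e1; linarith
    · exact absurd e (h.diag i)
    · rw [e] at e1; linarith) v
  have h3 : bf (fun i j => S i j ^ 2 + 2 * K i j) v v + bf S v v =
      2 * bf (fun i j => g i j + K i j) v v := by
    unfold bf
    rw [← Finset.sum_add_distrib, Finset.mul_sum]
    refine Finset.sum_congr rfl fun i _ => ?_
    rw [← mul_add, ← Finset.sum_add_distrib, mul_comm (2 : ℤ), mul_assoc, Finset.sum_mul]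
    congr 1
    refine Finset.sum_congr rfl fun j _ => ?_
    have e1 := hg i j
    linear_combination v j * e1
  rw [h3]
  obtain ⟨c, hc⟩ := h2
  rw [hc]
  exact ⟨c, by ring⟩

theorem PD.ones {ρ : ℕ} {S K : V → V → ℤ} (h : PD V ρ S K) :
    bf (fun i j => S i j ^ 2 + 2 * K i j) (fun _ => 1) (fun _ => 1) = ρ * Fintype.card V := by
  unfold bf
  have : ∀ i, (1 : ℤ) * ∑ j, (S i j ^ 2 + 2 * K i j) * 1 = ρ := by
    intro i
    rw [one_mul, ← h.deg i]
    refine Finset.sum_congr rfl fun j _ => ?_
    ring
  rw [Finset.sum_congr rfl fun i _ => this i]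
  simp [mul_comm]

/-- integer kernel vectors of `B` have sum zero -/
theorem PD.sum_zero {ρ : ℕ} {S K : V → V → ℤ} (h : PD V ρ S K) (hρ : 0 < ρ) (y : V → ℤ)
    (hy : ∀ i, ∑ j, (S i j ^ 2 + 2 * K i j) * y j = 0) : ∑ i, y i = 0 := by
  have h1 := bf_zero_right (fun i j => S i j ^ 2 + 2 * K i j) (fun _ => 1) y hy
  rw [bf_comm _ (fun i j => by rw [h.symm i j, h.ks i j])] at h1
  unfold bf at h1
  have e : ∀ i, y i * ∑ j, (S i j ^ 2 + 2 * K i j) * 1 = ρ * y i := by
    intro i
    rw [← h.deg i, mul_comm]
    congr 1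
    refine Finset.sum_congr rfl fun j _ => ?_
    ring
  rw [Finset.sum_congr rfl fun i _ => e i, ← Finset.mul_sum] at h1
  rcases mul_eq_zero.1 h1 with h2 | h2
  · exfalso
    have : (ρ : ℤ) ≠ 0 := by exact_mod_cast hρ.ne'
    exact this h2
  · exact h2

theorem lift2 (y : V → ℤ) (z : V → ℤ) (h : ∀ i, (y i : ZMod 2) = z i) :
    ∃ t : V → ℤ, ∀ i, y i = z i + 2 * t i := by
  have : ∀ i, ∃ c : ℤ, y i = z i + 2 * c := by
    intro i
    have h1 : ((y i - z i : ℤ) : ZMod 2) = 0 := by
      push_cast
      rw [h, sub_self]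
    obtain ⟨c, hc⟩ := (ZMod.intCast_zmod_eq_zero_iff_dvd (y i - z i) 2).1 h1
    exact ⟨c, by push_cast at hc; linarith⟩
  choose w hw using this
  exact ⟨w, hw⟩

/-- Criterion A: the kernel modulo `2` has dimension two, the kernel vector has an odd number of
odd entries, and `ρ m = 2` modulo `4`. -/
theorem PD.mem_four {ρ : ℕ} {S K : V → V → ℤ} (h : PD V ρ S K)
    (hm : (ρ * Fintype.card V) % 4 = 2)
    (a : V → ℤ) (ha : ∀ i, a i ≠ 0) (hSa : ∀ i, ∑ j, S i j * a j = 0)
    (hz : ∀ v : V → ZMod 2, (∀ i, ∑ j, (S i j : ZMod 2) * v j = 0) →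
      v = 0 ∨ v = 1 ∨ v = (fun i => (a i : ZMod 2)) ∨ v = (fun i => 1 + (a i : ZMod 2)))
    (hodd : ∑ i, (a i : ZMod 2) = 1) (hcard : Fintype.card V % 2 = 1) :
    2 * Fintype.card V ∈ nutOrders ρ := by
  have hρ : 0 < ρ := by
    rcases Nat.eq_zero_or_pos ρ with h0 | h0
    · rw [h0] at hm; simp at hm
    · exact h0
  have e2 : (2 : ZMod 2) = 0 := by decide
  have hBs : ∀ i j, S i j ^ 2 + 2 * K i j = S j i ^ 2 + 2 * K j i := by
    intro i j
    rw [h.symm i j, h.ks i j]
  have hQ1 : ¬ (4 : ℤ) ∣ bf (fun i j => S i j ^ 2 + 2 * K i j) (fun _ => 1) (fun _ => 1) := by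
    rw [PD.ones h]
    intro hd
    have : (4 : ℕ) ∣ ρ * Fintype.card V := by exact_mod_cast hd
    omega
  have hS1 : ¬ (4 : ℤ) ∣ bf S (fun _ => 1) (fun _ => 1) := by
    intro hd
    apply hQ1
    have := PD.four h (fun _ => 1)
    exact (Int.dvd_add_left hd).1 this
  -- integer kernel vectors of S are not 1 modulo 2
  have hA : ∀ v : V → ℤ, (∀ i, ∑ j, S i j * v j = 0) → ¬ ∀ i, (v i : ZMod 2) = 1 := by
    intro v hv hv1
    obtain ⟨t, ht⟩ := lift2 v (fun _ => 1) (by intro i; rw [hv1 i]; simp)
    apply hS1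
    have h1 : bf S v v = 0 := bf_zero_right S v v hv
    have h2 : v = fun i => (fun _ => (1 : ℤ)) i + 2 * t i := by
      funext i
      exact ht i
    rw [h2, bf_exp S h.symm] at h1
    exact ⟨-(bf S t (fun _ => 1)) - bf S t t, by linarith⟩
  have hq : ∃ q, (a q : ZMod 2) = 1 := by
    by_contra hcon
    push Not at hcon
    have : ∑ i, (a i : ZMod 2) = 0 := by
      refine Finset.sum_eq_zero fun i _ => ?_
      have h1 := hcon i
      generalize (a i : ZMod 2) = x at h1
      revert x
      decide
    rw [this] at hodd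
    exact absurd hodd (by decide)
  obtain ⟨q, hq⟩ := hq
  have haq : (a q : ℝ) ≠ 0 := by exact_mod_cast ha q
  have hline : ∀ d : V → ℝ, (∀ i, ∑ j, (S i j : ℝ) * d j = 0) → ∃ c : ℝ, ∀ i, d i = c * a i := by
    intro d hd
    refine ⟨d q / a q, ?_⟩
    have key := Pool.Agent.TH417.Nut.real_zero (R := Option V) (J := V)
      (fun r j => match r with | some i => S i j | none => if j = q then 1 else 0) (by
        intro v hv x
        have h0 : ∀ i, ∑ j, S i j * v j = 0 := fun i => by simpa using hv (some i)
        have h1 : ∀ i, ∑ j, (S i j : ZMod 2) * (v j : ZMod 2) = 0 := by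
          intro i
          have h2 : ((∑ j, S i j * v j : ℤ) : ZMod 2) = 0 := by rw [h0 i]; simp
          push_cast at h2
          exact h2
        have h3 : v q = 0 := by
          have := hv none
          simpa using this
        refine (ZMod.intCast_zmod_eq_zero_iff_dvd (v x) 2).1 ?_
        rcases hz (fun j => (v j : ZMod 2)) h1 with h4 | h4 | h4 | h4
        · exact congrFun h4 x
        · exfalso
          have := congrFun h4 q
          simp only [h3] at this
          exact absurd this (by simp)
        · exfalso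
          have := congrFun h4 q
          simp only [h3, hq] at this
          exact absurd this (by simp)
        · exfalso
          refine hA (fun i => v i + a i) ?_ ?_
          · intro i
            simp only [mul_add]
            rw [Finset.sum_add_distrib, h0 i, hSa i, add_zero]
          · intro i
            have := congrFun h4 i
            push_cast
            rw [this]
            linear_combination (a i : ZMod 2) * e2) (fun i => d i - d q / a q * a i) (by
        rintro (_ | i)
        · simp only [Int.cast_ite, Int.cast_one, Int.cast_zero, ite_mul, one_mul, zero_mul,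
            Finset.sum_ite_eq', Finset.mem_univ, if_true]
          field_simp
          ring
        · simp only
          have e1 : ∑ j, (S i j : ℝ) * (d j - d q / a q * a j) =
              ∑ j, (S i j : ℝ) * d j - d q / a q * ∑ j, (S i j : ℝ) * a j := by
            rw [Finset.mul_sum, ← Finset.sum_sub_distrib]
            refine Finset.sum_congr rfl fun j _ => ?_
            ring
          have e3 : ∑ j, (S i j : ℝ) * a j = 0 := by exact_mod_cast hSa i
          rw [e1, hd i, e3]
          ring)
    intro i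
    have := key i
    linarith
  have hB : ∀ s : V → ℝ, (∀ i, ∑ j, ((S i j : ℝ) ^ 2 + 2 * K i j) * s j = 0) → ∀ i, s i = 0 := by
    intro s hs
    refine Pool.Agent.TH417.Nut.real_zero (R := V) (J := V)
      (fun i j => S i j ^ 2 + 2 * K i j) ?_ s (by
        intro i
        rw [← hs i]
        push_cast
        rfl)
    intro y hy x
    have h1 : ∀ i, ∑ j, (S i j : ZMod 2) * (y j : ZMod 2) = 0 := by
      intro i
      have h2 : ((∑ j, (S i j ^ 2 + 2 * K i j) * y j : ℤ) : ZMod 2) = 0 := by rw [hy i]; simp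
      rw [← h2]
      push_cast
      refine Finset.sum_congr rfl fun j _ => ?_
      have := even_sq S h.val K i j
      push_cast at this
      rw [this]
    have hsum := PD.sum_zero h hρ y hy
    have hsum2 : ∑ i, (y i : ZMod 2) = 0 := by
      have : ((∑ i, y i : ℤ) : ZMod 2) = 0 := by rw [hsum]; simp
      push_cast at this
      exact this
    have hc2 : ((Fintype.card V : ℕ) : ZMod 2) = 1 := by
      have := ZMod.natCast_mod (Fintype.card V) 2
      rw [hcard] at this
      rw [← this]
      simp
    refine (ZMod.intCast_zmod_eq_zero_iff_dvd (y x) 2).1 ?_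
    rcases hz (fun j => (y j : ZMod 2)) h1 with h4 | h4 | h4 | h4
    · exact congrFun h4 x
    · exfalso
      have h5 : ∑ i, (y i : ZMod 2) = ∑ _i : V, (1 : ZMod 2) :=
        Finset.sum_congr rfl fun i _ => congrFun h4 i
      rw [hsum2] at h5
      simp only [Finset.sum_const, Finset.card_univ, nsmul_eq_mul, mul_one, hc2] at h5
      exact absurd h5 (by decide)
    · exfalso
      have h5 : ∑ i, (y i : ZMod 2) = ∑ i, (a i : ZMod 2) :=
        Finset.sum_congr rfl fun i _ => congrFun h4 i
      rw [hsum2, hodd] at h5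
      exact absurd h5 (by decide)
    · exfalso
      -- u = y + 1 = a + 2 t
      obtain ⟨t, ht⟩ := lift2 (fun i => y i + 1) a (by
        intro i
        have := congrFun h4 i
        push_cast
        rw [this]
        linear_combination e2)
      apply hQ1
      have g1 : bf (fun i j => S i j ^ 2 + 2 * K i j) (fun i => y i + 1) (fun i => y i + 1) =
          bf (fun i j => S i j ^ 2 + 2 * K i j) (fun _ => 1) (fun _ => 1) := by
        rw [bf_add_right, bf_zero_right _ _ y hy, zero_add, bf_comm _ hBs, bf_add_right,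
          bf_zero_right _ _ y hy, zero_add]
      have g2 : (fun i => y i + 1) = fun i => a i + 2 * t i := by
        funext i
        exact ht i
      rw [← g1, g2, bf_exp _ hBs]
      have g3 := PD.four h a
      rw [bf_zero_right S a a hSa, add_zero] at g3
      obtain ⟨c, hc⟩ := g3
      rw [hc]
      exact ⟨c + bf (fun i j => S i j ^ 2 + 2 * K i j) t a +
        bf (fun i j => S i j ^ 2 + 2 * K i j) t t, by ring⟩
  have haR : ∀ i, (a i : ℝ) ≠ 0 := fun i => by exact_mod_cast ha i
  have hSaR : ∀ i, ∑ j, (S i j : ℝ) * (a j : ℝ) = 0 := by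
    intro i
    exact_mod_cast hSa i
  have hc : 2 ≤ Fintype.card (V × Bool) := by
    rw [card_db]
    omega
  have := (h.nw (fun i => (a i : ℝ)) haR hSaR hline hB).mem hc
  rwa [card_db] at this

end Pool.Agent.J6H93.NutE
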