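import Pool.Agent.J6H28.Nut.Odd

/-!
# Complements of cubic graphs with simple eigenvalue `-1`
-/

set_option autoImplicit false
set_option linter.unusedSectionVars false

namespace Pool.Agent.J6H93.NutE

open Finset Pool.Agent.TH296.Nut Pool.Agent.J6H28.Nut

/-- a cubic graph on `n` vertices whose eigenvalue `-1` is simple with an eigenvector without zero
entries, and an edge `u v` with `x u + 2 x v` not zero -/
structure CB (n : ℕ) (V : Type) [Fintype V] [DecidableEq V] (A : V → V → ℤ) (x : V → ℤ)
    (u v : V) : Prop where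
  card : Fintype.card V = n
  zo : ∀ i j, A i j = 0 ∨ A i j = 1
  symm : ∀ i j, A i j = A j i
  diag : ∀ i, A i i = 0
  deg : ∀ i, ∑ j, A i j = 3
  uv : A u v = 1
  nz : ∀ i, x i ≠ 0
  ker : ∀ i, x i + ∑ j, A i j * x j = 0
  uniq : ∀ y : V → ℝ, (∀ i, y i + ∑ j, (A i j : ℝ) * y j = 0) → ∃ c : ℝ, ∀ i, y i = c * x i
  cond : x u + 2 * x v ≠ 0

section ins

variable {V : Type} [Fintype V] [DecidableEq V]

/-- the inserted piece -/
def gad (s t : Fin 8) : ℤ := ent
  [[0, 0, 0, 1, 0, 1, 0, 0],
   [0, 0, 1, 1, 0, 0, 0, 0],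
   [0, 1, 0, 0, 1, 0, 0, 1],
   [1, 1, 0, 0, 1, 0, 0, 0],
   [0, 0, 1, 1, 0, 0, 1, 0],
   [1, 0, 0, 0, 0, 0, 1, 1],
   [0, 0, 0, 0, 1, 1, 0, 1],
   [0, 0, 1, 0, 0, 1, 1, 0]] s t

/-- replacement of the edge `u v` by the piece -/
def ins8 (A : V → V → ℤ) (u v : V) : V ⊕ Fin 8 → V ⊕ Fin 8 → ℤ
  | .inl i, .inl j => if (i = u ∧ j = v) ∨ (i = v ∧ j = u) then 0 else A i j
  | .inl i, .inr t => if i = u ∧ t = 0 then 1 else if i = v ∧ t = 1 then 1 else 0
  | .inr t, .inl i => if i = u ∧ t = 0 then 1 else if i = v ∧ t = 1 then 1 else 0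
  | .inr s, .inr t => gad s t

theorem ins8_inl {R : Type} [CommRing R] (A : V → V → ℤ) (hs : ∀ i j, A i j = A j i) (u v : V)
    (huv : u ≠ v) (h1 : A u v = 1) (g : V ⊕ Fin 8 → R) (i : V) :
    ∑ q, ((ins8 A u v (.inl i) q : ℤ) : R) * g q = ∑ j, (A i j : R) * g (.inl j) +
      (if i = u then g (.inr 0) - g (.inl v) else 0) +
      (if i = v then g (.inr 1) - g (.inl u) else 0) := by
  rw [Fintype.sum_sum_type, Fin.sum_univ_eight]
  have h2 : ∀ j, ((ins8 A u v (.inl i) (.inl j) : ℤ) : R) * g (.inl j) =
      (A i j : R) * g (.inl j) + ((if j = v then (if i = u then - g (.inl v) else 0) else 0) +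
        (if j = u then (if i = v then - g (.inl u) else 0) else 0)) := by
    intro j
    have h1' : A v u = 1 := by rw [hs]; exact h1
    simp only [ins8]
    by_cases i1 : i = u
    · subst i1
      simp only [huv, true_and, false_and, or_false, if_true, if_false]
      by_cases j1 : j = v
      · subst j1
        simp [h1, huv.symm]
      · simp [j1]
    · by_cases i2 : i = v
      · subst i2
        simp only [i1, true_and, false_and, false_or, if_true, if_false]
        by_cases j1 : j = u
        · subst j1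
          simp [h1']
        · simp [j1]
      · simp [i1, i2]
  rw [Finset.sum_congr rfl fun j _ => h2 j, Finset.sum_add_distrib, Finset.sum_add_distrib]
  simp only [Finset.sum_ite_eq', Finset.mem_univ, if_true, ins8]
  by_cases i1 : i = u
  · subst i1
    simp [huv]
    ring
  · by_cases i2 : i = v
    · subst i2
      simp [i1]
      ring
    · simp [i1, i2]

theorem ins8_inr {R : Type} [CommRing R] (A : V → V → ℤ) (u v : V) (g : V ⊕ Fin 8 → R)
    (s : Fin 8) :
    ∑ q, ((ins8 A u v (.inr s) q : ℤ) : R) * g q =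
      (if s = 0 then g (.inl u) else 0) + (if s = 1 then g (.inl v) else 0) +
      ∑ t, ((gad s t : ℤ) : R) * g (.inr t) := by
  rw [Fintype.sum_sum_type]
  congr 1
  have h2 : ∀ j, ((ins8 A u v (.inr s) (.inl j) : ℤ) : R) * g (.inl j) =
      (if j = u then (if s = 0 then g (.inl u) else 0) else 0) +
      (if j = v then (if s = 1 then g (.inl v) else 0) else 0) := by
    intro j
    simp only [ins8]
    by_cases s0 : s = 0
    · subst s0
      by_cases j1 : j = u
      · subst j1
        simp
      · simp [j1]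
    · by_cases s1 : s = 1
      · subst s1
        by_cases j1 : j = v
        · subst j1
          simp
        · simp [j1]
      · simp [s0, s1]
  rw [Finset.sum_congr rfl fun j _ => h2 j, Finset.sum_add_distrib]
  simp

/-- the eight rows of the piece -/
theorem gad_rows {R : Type} [CommRing R] (g : Fin 8 → R) :
    (∑ t, ((gad 0 t : ℤ) : R) * g t = g 3 + g 5) ∧
    (∑ t, ((gad 1 t : ℤ) : R) * g t = g 2 + g 3) ∧
    (∑ t, ((gad 2 t : ℤ) : R) * g t = g 1 + g 4 + g 7) ∧
    (∑ t, ((gad 3 t : ℤ) : R) * g t = g 0 + g 1 + g 4) ∧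
    (∑ t, ((gad 4 t : ℤ) : R) * g t = g 2 + g 3 + g 6) ∧
    (∑ t, ((gad 5 t : ℤ) : R) * g t = g 0 + g 6 + g 7) ∧
    (∑ t, ((gad 6 t : ℤ) : R) * g t = g 4 + g 5 + g 7) ∧
    (∑ t, ((gad 7 t : ℤ) : R) * g t = g 2 + g 5 + g 6) := by
  refine ⟨?_, ?_, ?_, ?_, ?_, ?_, ?_, ?_⟩ <;>
    · rw [Fin.sum_univ_eight]
      simp [gad, ent]

/-- the extension of the eigenvector -/
def ext8 (x : V → ℤ) (u v : V) : V ⊕ Fin 8 → ℤ
  | .inl i => x i
  | .inr t => if t = 0 then x v else if t = 1 then x u else if t = 2 then x v else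
      if t = 3 then -x u - 2 * x v else if t = 4 then x v else if t = 5 then x v else
      if t = 6 then x u else -x u - 2 * x v

theorem CB.step {n : ℕ} {A : V → V → ℤ} {x : V → ℤ} {u v : V} (h : CB n V A x u v) :
    CB (n + 8) (V ⊕ Fin 8) (ins8 A u v) (ext8 x u v) (.inl u) (.inr 0) := by
  have huv : u ≠ v := by
    intro he
    have h1 := h.uv
    rw [he, h.diag] at h1
    exact zero_ne_one h1
  have hc := h.cond
  refine ⟨?_, ?_, ?_, ?_, ?_, ?_, ?_, ?_, ?_, ?_⟩
  · rw [Fintype.card_sum, h.card, Fintype.card_fin]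
  · intro q r
    rcases q with i | s <;> rcases r with j | t <;> simp only [ins8]
    · split_ifs
      · simp
      · exact h.zo i j
    · split_ifs <;> simp
    · split_ifs <;> simp
    · revert s t
      decide
  · intro q r
    rcases q with i | s <;> rcases r with j | t
    · simp only [ins8]
      rw [h.symm i j]
      by_cases h' : (i = u ∧ j = v) ∨ (i = v ∧ j = u)
      · rw [if_pos h', if_pos (by tauto)]
      · rw [if_neg h', if_neg (by tauto)]
    · simp only [ins8]
    · simp only [ins8]
    · simp only [ins8]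
      revert s t
      decide
  · intro q
    rcases q with i | s <;> simp only [ins8]
    · split_ifs
      · rfl
      · exact h.diag i
    · revert s
      decide
  · intro q
    rcases q with i | s
    · have := ins8_inl (R := ℤ) A h.symm u v huv h.uv (fun _ => 1) i
      simp only [Int.cast_id, mul_one, sub_self, ite_self, add_zero] at this
      rw [this, h.deg i]
    · have := ins8_inr (R := ℤ) A u v (fun _ => 1) s
      simp only [Int.cast_id, mul_one] at this
      rw [this]
      clear this
      revert s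
      decide
  · simp [ins8]
  · intro q
    rcases q with i | t
    · exact h.nz i
    · have h1 := h.nz u
      have h2 := h.nz v
      have h3 : -x u - 2 * x v ≠ 0 := by
        intro h4
        apply hc
        linarith
      simp only [ext8]
      split_ifs <;> assumption
  · intro q
    rcases q with i | s
    · have := ins8_inl (R := ℤ) A h.symm u v huv h.uv (ext8 x u v) i
      simp only [Int.cast_id] at this
      rw [this]
      simp only [ext8]
      have h1 := h.ker i
      simp only [if_true, sub_self, ite_self, add_zero]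
      simp
      exact h1
    · have h0 := ins8_inr (R := ℤ) A u v (ext8 x u v) s
      have hg := gad_rows (R := ℤ) (fun t => ext8 x u v (.inr t))
      simp only [Int.cast_id] at h0 hg
      obtain ⟨g0, g1, g2, g3, g4, g5, g6, g7⟩ := hg
      rw [h0]
      fin_cases s
      · simp only [Fin.zero_eta, Fin.isValue, g0]
        simp [ext8]
        try ring
      · simp only [Fin.mk_one, Fin.isValue, g1]
        simp [ext8]
        try ring
      · simp only [Fin.reduceFinMk, Fin.isValue, g2]
        simp [ext8]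
        try ring
      · simp only [Fin.reduceFinMk, Fin.isValue, g3]
        simp [ext8]
        try ring
      · simp only [Fin.reduceFinMk, Fin.isValue, g4]
        simp [ext8]
        try ring
      · simp only [Fin.reduceFinMk, Fin.isValue, g5]
        simp [ext8]
        try ring
      · simp only [Fin.reduceFinMk, Fin.isValue, g6]
        simp [ext8]
        try ring
      · simp only [Fin.reduceFinMk, Fin.isValue, g7]
        simp [ext8]
        try ring
  · intro y hy
    obtain ⟨g0, g1, g2, g3, g4, g5, g6, g7⟩ := gad_rows (R := ℝ) (fun t => y (.inr t))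
    have r0 := hy (.inr 0)
    have r1 := hy (.inr 1)
    have r2 := hy (.inr 2)
    have r3 := hy (.inr 3)
    have r4 := hy (.inr 4)
    have r5 := hy (.inr 5)
    have r6 := hy (.inr 6)
    have r7 := hy (.inr 7)
    rw [ins8_inr] at r0 r1 r2 r3 r4 r5 r6 r7
    rw [g0] at r0
    rw [g1] at r1
    rw [g2] at r2
    rw [g3] at r3
    rw [g4] at r4
    rw [g5] at r5
    rw [g6] at r6
    rw [g7] at r7
    simp at r0 r1 r2 r3 r4 r5 r6 r7
    have k0 : y (.inr 0) = y (.inl v) := by linarith
    have k1 : y (.inr 1) = y (.inl u) := by linarith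
    have k2 : y (.inr 2) = y (.inl v) := by linarith
    have k3 : y (.inr 3) = -y (.inl u) - 2 * y (.inl v) := by linarith
    have k4 : y (.inr 4) = y (.inl v) := by linarith
    have k5 : y (.inr 5) = y (.inl v) := by linarith
    have k6 : y (.inr 6) = y (.inl u) := by linarith
    have k7 : y (.inr 7) = -y (.inl u) - 2 * y (.inl v) := by linarith
    obtain ⟨c, hc'⟩ := h.uniq (fun i => y (.inl i)) (by
      intro i
      have := hy (.inl i)
      rw [ins8_inl A h.symm u v huv h.uv, k0, k1] at this
      simpa using this)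
    refine ⟨c, ?_⟩
    intro q
    rcases q with i | t
    · exact hc' i
    · have hu := hc' u
      have hv := hc' v
      fin_cases t
      · simp only [Fin.zero_eta, Fin.isValue, k0, ext8, hv, if_true]
      · simp only [Fin.mk_one, Fin.isValue, k1, ext8, hu]
        simp
      · simp only [Fin.reduceFinMk, Fin.isValue, k2, ext8, hv]
        simp
      · simp only [Fin.reduceFinMk, Fin.isValue, k3, ext8, hu, hv]
        simp
        ring
      · simp only [Fin.reduceFinMk, Fin.isValue, k4, ext8, hv]
        simp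
      · simp only [Fin.reduceFinMk, Fin.isValue, k5, ext8, hv]
        simp
      · simp only [Fin.reduceFinMk, Fin.isValue, k6, ext8, hu]
        simp
      · simp only [Fin.reduceFinMk, Fin.isValue, k7, ext8, hu, hv]
        simp
        ring
  · simp only [ext8, if_true]
    exact hc

end ins

/-- the complement is a nut graph -/
theorem CB.mem {n : ℕ} {V : Type} [Fintype V] [DecidableEq V] {A : V → V → ℤ} {x : V → ℤ} {u v : V}
    (h : CB n V A x u v) (hn : 5 ≤ n) : n ∈ nutOrders (n - 4) := by
  have hnR : (n : ℝ) ≠ 4 := by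
    intro h4
    have : n = 4 := by exact_mod_cast h4
    omega
  have hrow : ∀ (y : V → ℝ) (i : V),
      ∑ j, ((1 : ℝ) - (if i = j then 1 else 0) - (A i j : ℝ)) * y j =
        ∑ j, y j - (y i + ∑ j, (A i j : ℝ) * y j) := by
    intro y i
    have h1 : ∀ j, ((1 : ℝ) - (if i = j then 1 else 0) - (A i j : ℝ)) * y j =
        y j - ((if i = j then y j else 0) + (A i j : ℝ) * y j) := by
      intro j
      split_ifs <;> ring
    rw [Finset.sum_congr rfl fun j _ => h1 j, Finset.sum_sub_distrib, Finset.sum_add_distrib,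
      Finset.sum_ite_eq, if_pos (Finset.mem_univ _)]
  have hcol : ∀ j, ∑ i, (A i j : ℝ) = 3 := by
    intro j
    have h1 := h.deg j
    have h2 : ∑ i, (A i j : ℝ) = ((∑ i, A j i : ℤ) : ℝ) := by
      push_cast
      refine Finset.sum_congr rfl fun i _ => ?_
      rw [h.symm i j]
    rw [h2, h1]
    norm_num
  have htot : ∀ y : V → ℝ, ∑ i, (y i + ∑ j, (A i j : ℝ) * y j) = 4 * ∑ i, y i := by
    intro y
    rw [Finset.sum_add_distrib, Finset.sum_comm]
    have h1 : ∀ j, ∑ i, (A i j : ℝ) * y j = 3 * y j := by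
      intro j
      rw [← Finset.sum_mul, hcol j]
    rw [Finset.sum_congr rfl fun j _ => h1 j, ← Finset.mul_sum]
    ring
  have hxR : ∀ i, (x i : ℝ) + ∑ j, (A i j : ℝ) * (x j : ℝ) = 0 := by
    intro i
    exact_mod_cast h.ker i
  have hx0 : ∑ i, (x i : ℝ) = 0 := by
    have h1 := htot (fun i => (x i : ℝ))
    rw [Finset.sum_congr rfl fun i _ => hxR i] at h1
    simp only [Finset.sum_const_zero] at h1
    linarith
  have key : NW V (n - 4) (fun i j => (1 : ℝ) - (if i = j then 1 else 0) - (A i j : ℝ))
      (fun i => (x i : ℝ)) := by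
    refine ⟨?_, ?_, ?_, ?_, ?_, ?_, ?_⟩
    · intro i j
      by_cases hij : i = j
      · subst hij
        left
        simp [h.diag i]
      · rcases h.zo i j with e | e
        · right; simp [hij, e]
        · left; simp [hij, e]
    · intro i j
      simp only [h.symm i j]
      by_cases hij : i = j
      · subst hij; rfl
      · rw [if_neg hij, if_neg (fun hh => hij hh.symm)]
    · intro i
      simp [h.diag i]
    · intro i
      have h1 := hrow (fun _ => 1) i
      simp only [mul_one] at h1
      rw [h1]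
      have h2 : ∑ j, (A i j : ℝ) = 3 := by exact_mod_cast h.deg i
      rw [h2]
      simp only [Finset.sum_const, Finset.card_univ, nsmul_eq_mul, mul_one, h.card]
      rw [Nat.cast_sub (by omega)]
      push_cast
      ring
    · intro i
      exact_mod_cast h.nz i
    · intro i
      rw [hrow, hx0, hxR i]
      ring
    · intro y hy
      apply h.uniq
      have h1 : ∀ i, y i + ∑ j, (A i j : ℝ) * y j = ∑ j, y j := by
        intro i
        have := hy i
        rw [hrow] at this
        linarith
      have h2 : (4 : ℝ) * ∑ i, y i = n * ∑ i, y i := by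
        rw [← htot y, Finset.sum_congr rfl fun i _ => h1 i]
        simp [h.card]
      have h3 : ∑ i, y i = 0 := by
        have h4 : ((n : ℝ) - 4) * ∑ i, y i = 0 := by linarith
        rcases mul_eq_zero.1 h4 with h5 | h5
        · exact absurd (by linarith) hnR
        · exact h5
      intro i
      rw [h1 i, h3]
  have := key.mem (by rw [h.card]; omega)
  rwa [h.card] at this

/-- existence -/
def HasCB (n : ℕ) : Prop :=
  ∃ (V : Type) (_ : Fintype V) (_ : DecidableEq V) (A : V → V → ℤ) (x : V → ℤ) (u v : V),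
    CB n V A x u v

theorem HasCB.steps {n : ℕ} (h : HasCB n) (j : ℕ) : HasCB (n + 8 * j) := by
  induction j with
  | zero => exact h
  | succ j ih =>
    obtain ⟨V, _, _, A, x, u, v, h⟩ := ih
    exact ⟨_, _, _, _, _, _, _, h.step⟩

theorem HasCB.mem {n : ℕ} (h : HasCB n) (hn : 5 ≤ n) : n ∈ nutOrders (n - 4) := by
  obtain ⟨V, _, _, A, x, u, v, h⟩ := h
  exact h.mem hn

/-- decidable certificate -/
def ChkC (n : ℕ) (A L : List (List ℤ)) (x : List ℤ) (d : ℤ) (q u v : Fin n) : Prop :=
  d ≠ 0 ∧
  (∀ i j : Fin n, ent A i j = 0 ∨ ent A i j = 1) ∧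
  (∀ i j : Fin n, ent A i j = ent A j i) ∧
  (∀ i : Fin n, ent A i i = 0) ∧
  (∀ i : Fin n, ∑ j : Fin n, ent A i j = 3) ∧
  (ent A u v = 1) ∧
  (∀ i : Fin n, x.getD i 0 ≠ 0) ∧
  (∀ i : Fin n, x.getD i 0 + ∑ j : Fin n, ent A i j * x.getD j 0 = 0) ∧
  (∀ j k : Fin n, k ≠ q → ∑ i : Fin n, ent L j i * (ent A i k + if i = k then 1 else 0) =
    if j = k then d else 0) ∧
  (∀ j : Fin n, j ≠ q → (∑ i : Fin n, ent L j i * (ent A i q + if i = q then 1 else 0)) *
    x.getD q 0 = - (d * x.getD j 0)) ∧
  (x.getD u 0 + 2 * x.getD v 0 ≠ 0)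

instance (n : ℕ) (A L : List (List ℤ)) (x : List ℤ) (d : ℤ) (q u v : Fin n) :
    Decidable (ChkC n A L x d q u v) := by
  unfold ChkC; infer_instance

theorem ChkC.has {n : ℕ} {A L : List (List ℤ)} {x : List ℤ} {d : ℤ} {q u v : Fin n}
    (h : ChkC n A L x d q u v) : HasCB n := by
  obtain ⟨cd, c1, c2, c3, c4, cuv, c5, c6, c7, c8, c9⟩ := h
  have hx : ∀ i : Fin n, ((x.getD i 0 : ℤ) : ℝ) ≠ 0 := fun i => by exact_mod_cast c5 i
  have hd : (d : ℝ) ≠ 0 := by exact_mod_cast cd
  refine ⟨Fin n, inferInstance, inferInstance, fun i j => ent A i j, fun i => x.getD i 0, u, v, ?_⟩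
  refine ⟨Fintype.card_fin n, c1, c2, c3, c4, cuv, c5, c6, ?_, c9⟩
  intro y hy
  refine ⟨y q / ((x.getD q 0 : ℤ) : ℝ), ?_⟩
  have hy2 : ∀ i : Fin n, ∑ k : Fin n, ((ent A i k + if i = k then 1 else 0 : ℤ) : ℝ) * y k = 0 := by
    intro i
    rw [← hy i]
    have h1 : ∀ k : Fin n, ((ent A i k + if i = k then 1 else 0 : ℤ) : ℝ) * y k =
        (if i = k then y k else 0) + (ent A i k : ℝ) * y k := by
      intro k
      push_cast
      split_ifs <;> ring
    rw [Finset.sum_congr rfl fun k _ => h1 k, Finset.sum_add_distrib, Finset.sum_ite_eq,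
      if_pos (Finset.mem_univ _)]
  intro j
  by_cases hjq : j = q
  · subst hjq
    rw [div_mul_cancel₀ _ (hx j)]
  · have h1 : ∑ i : Fin n, (ent L j i : ℝ) *
        ∑ k : Fin n, ((ent A i k + if i = k then 1 else 0 : ℤ) : ℝ) * y k = 0 := by
      refine Finset.sum_eq_zero fun i _ => ?_
      rw [hy2 i, mul_zero]
    have h2 : ∑ i : Fin n, (ent L j i : ℝ) *
        ∑ k : Fin n, ((ent A i k + if i = k then 1 else 0 : ℤ) : ℝ) * y k =
        ∑ k : Fin n, ((∑ i : Fin n, ent L j i * (ent A i k + if i = k then 1 else 0) : ℤ) : ℝ) *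
          y k := by
      simp only [Finset.mul_sum]
      rw [Finset.sum_comm]
      refine Finset.sum_congr rfl fun k _ => ?_
      push_cast
      rw [Finset.sum_mul]
      refine Finset.sum_congr rfl fun i _ => ?_
      ring
    have h3 : ∑ k : Fin n,
        ((∑ i : Fin n, ent L j i * (ent A i k + if i = k then 1 else 0) : ℤ) : ℝ) * y k =
        ∑ k : Fin n, ((if k = j then (d : ℝ) * y j else 0) +
          (if k = q then ((∑ i : Fin n, ent L j i * (ent A i q + if i = q then 1 else 0) : ℤ) : ℝ) *
            y q else 0)) := by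
      refine Finset.sum_congr rfl fun k _ => ?_
      by_cases hkq : k = q
      · subst hkq
        rw [if_neg (fun hh => hjq hh.symm), if_pos rfl, zero_add]
      · rw [c7 j k hkq, if_neg hkq]
        by_cases hkj : k = j
        · subst hkj
          simp
        · rw [if_neg hkj, if_neg (fun hh => hkj hh.symm)]
          simp
    rw [h2, h3, Finset.sum_add_distrib, Finset.sum_ite_eq', Finset.sum_ite_eq',
      if_pos (Finset.mem_univ _), if_pos (Finset.mem_univ _)] at h1
    have h4 : ((∑ i : Fin n, ent L j i * (ent A i q + if i = q then 1 else 0) : ℤ) : ℝ) *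
        ((x.getD q 0 : ℤ) : ℝ) = - ((d : ℝ) * ((x.getD j 0 : ℤ) : ℝ)) := by
      exact_mod_cast c8 j hjq
    generalize ((∑ i : Fin n, ent L j i * (ent A i q + if i = q then 1 else 0) : ℤ) : ℝ) = g
      at h1 h4
    have h5 := hx q
    generalize ((x.getD q 0 : ℤ) : ℝ) = xq at h4 h5 ⊢
    generalize ((x.getD j 0 : ℤ) : ℝ) = xj at h4 ⊢
    have h6 : d * (y j * xq) = d * (y q * xj) := by
      linear_combination xq * h1 - y q * h4
    have h7 := mul_left_cancel₀ hd h6
    field_simp
    linarith

end Pool.Agent.J6H93.NutE
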