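import Pool.Agent.J6H93.NutE.Cub
import Pool.Agent.J6H28.Nut.Expl

/-! # Explicit graphs -/

set_option autoImplicit false

namespace Pool.Agent.J6H93.NutE

open Pool.Agent.TH296.Nut Pool.Agent.J6H28.Nut

theorem c22 : HasCB 22 :=
  ChkC.has (A := [
    [0, 0, 0, 0, 0, 0, 0, 0, 0, 0, 0, 1, 0, 0, 1, 0, 0, 0, 1, 0, 0, 0],
    [0, 0, 0, 1, 0, 0, 0, 0, 0, 0, 0, 0, 0, 0, 0, 0, 1, 0, 0, 0, 0, 1],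
    [0, 0, 0, 0, 0, 0, 0, 0, 1, 0, 0, 0, 0, 0, 0, 1, 1, 0, 0, 0, 0, 0],
    [0, 1, 0, 0, 1, 0, 0, 0, 0, 0, 0, 0, 0, 1, 0, 0, 0, 0, 0, 0, 0, 0],
    [0, 0, 0, 1, 0, 1, 0, 0, 0, 0, 0, 0, 0, 0, 0, 0, 0, 0, 0, 1, 0, 0],
    [0, 0, 0, 0, 1, 0, 0, 0, 0, 0, 0, 0, 0, 1, 0, 1, 0, 0, 0, 0, 0, 0],
    [0, 0, 0, 0, 0, 0, 0, 0, 0, 1, 0, 0, 0, 0, 0, 0, 0, 0, 1, 0, 0, 1],
    [0, 0, 0, 0, 0, 0, 0, 0, 0, 0, 0, 1, 1, 0, 0, 0, 0, 0, 0, 0, 0, 1],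
    [0, 0, 1, 0, 0, 0, 0, 0, 0, 0, 0, 0, 1, 0, 0, 0, 0, 0, 1, 0, 0, 0],
    [0, 0, 0, 0, 0, 0, 1, 0, 0, 0, 1, 0, 0, 0, 1, 0, 0, 0, 0, 0, 0, 0],
    [0, 0, 0, 0, 0, 0, 0, 0, 0, 1, 0, 1, 0, 0, 0, 0, 0, 1, 0, 0, 0, 0],
    [1, 0, 0, 0, 0, 0, 0, 1, 0, 0, 1, 0, 0, 0, 0, 0, 0, 0, 0, 0, 0, 0],
    [0, 0, 0, 0, 0, 0, 0, 1, 1, 0, 0, 0, 0, 0, 1, 0, 0, 0, 0, 0, 0, 0],
    [0, 0, 0, 1, 0, 1, 0, 0, 0, 0, 0, 0, 0, 0, 0, 0, 0, 0, 0, 1, 0, 0],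
    [1, 0, 0, 0, 0, 0, 0, 0, 0, 1, 0, 0, 1, 0, 0, 0, 0, 0, 0, 0, 0, 0],
    [0, 0, 1, 0, 0, 1, 0, 0, 0, 0, 0, 0, 0, 0, 0, 0, 0, 0, 0, 0, 1, 0],
    [0, 1, 1, 0, 0, 0, 0, 0, 0, 0, 0, 0, 0, 0, 0, 0, 0, 1, 0, 0, 0, 0],
    [0, 0, 0, 0, 0, 0, 0, 0, 0, 0, 1, 0, 0, 0, 0, 0, 1, 0, 0, 0, 1, 0],
    [1, 0, 0, 0, 0, 0, 1, 0, 1, 0, 0, 0, 0, 0, 0, 0, 0, 0, 0, 0, 0, 0],
    [0, 0, 0, 0, 1, 0, 0, 0, 0, 0, 0, 0, 0, 1, 0, 0, 0, 0, 0, 0, 1, 0],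
    [0, 0, 0, 0, 0, 0, 0, 0, 0, 0, 0, 0, 0, 0, 0, 1, 0, 1, 0, 1, 0, 0],
    [0, 1, 0, 0, 0, 0, 1, 1, 0, 0, 0, 0, 0, 0, 0, 0, 0, 0, 0, 0, 0, 0]])
    (L := [
    [-39, 156, -126, -252, -72, 162, -78, -78, 48, 9, 48, 69, 9, -72, 21, -18, 96, -126, 69, 162, -18, 0],
    [24, -96, 96, 312, 72, -192, 48, 48, -48, -24, -48, -24, -24, 72, 24, 48, -96, 96, -24, -192, 48, 0],
    [-42, 168, -148, -336, -96, 196, -84, -84, 104, 62, 64, 62, 22, -96, -42, -4, 168, -188, 22, 236, -44, 0],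
    [0, 0, 0, 0, 0, 0, 0, 0, 0, 0, 0, 0, 0, 0, 0, 0, 0, 0, 0, 0, 0, 0],
    [-12, 48, -48, -96, 24, 96, -24, -24, 24, 12, 24, 12, 12, -96, -12, -24, 48, -48, 12, 96, -24, 0],
    [6, -24, 4, 48, 48, -28, 12, 12, -32, -26, 8, -26, 14, 48, 6, 52, -24, 44, 14, -68, -28, 0],
    [6, -144, 84, 168, 48, -108, 12, 132, -72, 54, -72, -66, -66, 48, 6, 12, -24, 84, 54, -108, 12, 0],
    [6, -144, 84, 168, 48, -108, 132, 12, -72, -66, -72, 54, 54, 48, 6, 12, -24, 84, -66, -108, 12, 0],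
    [-36, 144, -64, -168, -48, 88, -72, -72, 32, -4, 112, -4, 76, -48, -36, 8, 24, -104, 76, 128, -32, 0],
    [9, -156, 146, 252, 72, -182, 138, 18, -88, -79, -8, -19, 1, 72, 69, 38, -96, 106, -59, -142, -2, 0],
    [-36, 144, -104, -168, -48, 128, -72, -72, 112, 76, 32, 76, -4, -48, -36, -32, 24, -64, -4, 88, 8, 0],
    [69, -156, 146, 252, 72, -182, 18, 138, -88, -19, -8, -79, -59, 72, 9, 38, -96, 106, 1, -142, -2, 0],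
    [9, -156, 106, 252, 72, -142, 18, 138, -8, 1, -88, -59, -79, 72, 69, -2, -96, 146, -19, -182, 38, 0],
    [-12, 48, -48, -96, -96, 96, -24, -24, 24, 12, 24, 12, 12, 24, -12, -24, 48, -48, 12, 96, -24, 0],
    [21, 156, -126, -252, -72, 162, -78, -78, 48, 69, 48, 9, 69, -72, -39, -18, 96, -126, 9, 162, -18, 0],
    [18, -72, 92, 144, 24, -44, 36, 36, -16, 2, -56, 2, -38, 24, 18, -4, -72, 52, -38, -124, 76, 0],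
    [60, -240, 240, 360, 120, -240, 120, 120, -120, -60, -120, -60, -60, 120, 60, 0, -120, 240, -60, -240, 0, 0],
    [-42, 168, -188, -336, -96, 236, -84, -84, 64, 22, 104, 22, 62, -96, -42, -44, 168, -148, 62, 196, -4, 0],
    [69, -156, 106, 252, 72, -142, 138, 18, -8, -59, -88, 1, -19, 72, 9, -2, -96, 146, -79, -182, 38, 0],
    [6, -24, 44, 48, 48, -68, 12, 12, 8, 14, -32, 14, -26, 48, 6, -28, -24, 4, -26, -28, 52, 0],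
    [18, -72, 52, 144, 24, -124, 36, 36, -56, -38, -16, -38, 2, 24, 18, 76, -72, 92, 2, -44, -4, 0],
    [-84, 456, -336, -672, -192, 432, -168, -168, 168, 84, 168, 84, 84, -192, -84, -48, 216, -336, 84, 432, -48, 0]])
    (x := [2, -3, 3, 1, 1, -1, -1, -1, 1, -2, 1, -2, -2, 1, 2, -1, -3, 3, -2, -1, -1, 5])
    (d := 120) (q := 3) (u := 0) (v := 11) (by decide +kernel)

theorem c26 : HasCB 26 :=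
  ChkC.has (A := [
    [0, 0, 0, 0, 0, 0, 0, 0, 1, 0, 0, 0, 0, 0, 0, 0, 1, 0, 0, 0, 0, 1, 0, 0, 0, 0],
    [0, 0, 0, 0, 0, 0, 0, 0, 0, 0, 0, 0, 1, 0, 1, 0, 0, 0, 0, 0, 0, 1, 0, 0, 0, 0],
    [0, 0, 0, 0, 0, 0, 0, 0, 0, 1, 0, 0, 0, 0, 0, 0, 0, 0, 0, 0, 0, 0, 0, 0, 1, 1],
    [0, 0, 0, 0, 0, 0, 0, 0, 0, 0, 0, 0, 1, 0, 0, 1, 0, 0, 0, 0, 1, 0, 0, 0, 0, 0],
    [0, 0, 0, 0, 0, 0, 0, 0, 0, 0, 1, 0, 0, 0, 0, 0, 1, 1, 0, 0, 0, 0, 0, 0, 0, 0],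
    [0, 0, 0, 0, 0, 0, 1, 1, 0, 0, 0, 0, 0, 0, 0, 1, 0, 0, 0, 0, 0, 0, 0, 0, 0, 0],
    [0, 0, 0, 0, 0, 1, 0, 0, 0, 1, 0, 0, 0, 0, 0, 0, 0, 0, 0, 1, 0, 0, 0, 0, 0, 0],
    [0, 0, 0, 0, 0, 1, 0, 0, 0, 0, 0, 0, 0, 0, 0, 0, 0, 0, 0, 1, 0, 0, 0, 0, 1, 0],
    [1, 0, 0, 0, 0, 0, 0, 0, 0, 0, 1, 0, 0, 0, 1, 0, 0, 0, 0, 0, 0, 0, 0, 0, 0, 0],
    [0, 0, 1, 0, 0, 0, 1, 0, 0, 0, 0, 0, 0, 0, 0, 0, 0, 0, 0, 0, 1, 0, 0, 0, 0, 0],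
    [0, 0, 0, 0, 1, 0, 0, 0, 1, 0, 0, 0, 0, 1, 0, 0, 0, 0, 0, 0, 0, 0, 0, 0, 0, 0],
    [0, 0, 0, 0, 0, 0, 0, 0, 0, 0, 0, 0, 0, 0, 0, 0, 1, 0, 0, 0, 0, 0, 0, 1, 1, 0],
    [0, 1, 0, 1, 0, 0, 0, 0, 0, 0, 0, 0, 0, 0, 0, 0, 0, 0, 1, 0, 0, 0, 0, 0, 0, 0],
    [0, 0, 0, 0, 0, 0, 0, 0, 0, 0, 1, 0, 0, 0, 1, 0, 0, 0, 0, 0, 0, 0, 0, 0, 0, 1],
    [0, 1, 0, 0, 0, 0, 0, 0, 1, 0, 0, 0, 0, 1, 0, 0, 0, 0, 0, 0, 0, 0, 0, 0, 0, 0],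
    [0, 0, 0, 1, 0, 1, 0, 0, 0, 0, 0, 0, 0, 0, 0, 0, 0, 0, 0, 0, 0, 0, 1, 0, 0, 0],
    [1, 0, 0, 0, 1, 0, 0, 0, 0, 0, 0, 1, 0, 0, 0, 0, 0, 0, 0, 0, 0, 0, 0, 0, 0, 0],
    [0, 0, 0, 0, 1, 0, 0, 0, 0, 0, 0, 0, 0, 0, 0, 0, 0, 0, 0, 0, 0, 0, 1, 1, 0, 0],
    [0, 0, 0, 0, 0, 0, 0, 0, 0, 0, 0, 0, 1, 0, 0, 0, 0, 0, 0, 0, 0, 0, 1, 0, 0, 1],
    [0, 0, 0, 0, 0, 0, 1, 1, 0, 0, 0, 0, 0, 0, 0, 0, 0, 0, 0, 0, 0, 0, 0, 1, 0, 0],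
    [0, 0, 0, 1, 0, 0, 0, 0, 0, 1, 0, 0, 0, 0, 0, 0, 0, 0, 0, 0, 0, 1, 0, 0, 0, 0],
    [1, 1, 0, 0, 0, 0, 0, 0, 0, 0, 0, 0, 0, 0, 0, 0, 0, 0, 0, 0, 1, 0, 0, 0, 0, 0],
    [0, 0, 0, 0, 0, 0, 0, 0, 0, 0, 0, 0, 0, 0, 0, 1, 0, 1, 1, 0, 0, 0, 0, 0, 0, 0],
    [0, 0, 0, 0, 0, 0, 0, 0, 0, 0, 0, 1, 0, 0, 0, 0, 0, 1, 0, 1, 0, 0, 0, 0, 0, 0],
    [0, 0, 1, 0, 0, 0, 0, 1, 0, 0, 0, 1, 0, 0, 0, 0, 0, 0, 0, 0, 0, 0, 0, 0, 0, 0],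
    [0, 0, 1, 0, 0, 0, 0, 0, 0, 0, 0, 0, 0, 1, 0, 0, 0, 0, 1, 0, 0, 0, 0, 0, 0, 0]])
    (L := [
    [171, -48, -84, 96, -168, -24, 87, 57, 15, 27, -33, -30, 54, 186, -153, -120, 27, 174, -102, -90, -30, -93, 48, -54, 57, 0],
    [0, 0, 0, 0, 0, 0, 0, 0, 0, 0, 0, 0, 0, 0, 0, 0, 0, 0, 0, 0, 0, 0, 0, 0, 0, 0],
    [92, 64, -8, -48, -96, -8, -156, 124, -20, 204, 44, -40, 48, 72, -116, 40, 44, 8, -64, -40, -40, -116, 16, 72, -76, 0],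
    [-144, -48, 96, -24, 192, -24, 72, -168, 0, -168, -48, 0, 24, -144, 192, 120, -48, -96, 48, 120, 0, 192, -72, -24, 72, 0],
    [-216, 48, 144, -96, 168, 24, -72, -72, 0, -72, 48, 0, -24, -216, 168, 120, 48, -144, 72, 120, 0, 168, -48, 24, -72, 0],
    [72, 24, -48, -48, -96, 72, -96, 144, 0, 144, 24, 0, 48, 72, -96, 0, 24, 48, -24, -120, 0, -96, -24, 72, -96, 0],
    [-313, -56, 172, -48, 384, -8, 219, -371, -5, -321, -61, 50, -42, -318, 379, 160, -121, -202, 146, 230, -70, 439, -104, -78, 149, 0],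
    [217, -16, -148, 72, -216, 32, -51, 179, 5, 129, -11, -50, 18, 222, -211, -160, 49, 178, -74, -110, 70, -271, 56, -18, 19, 0],
    [-113, -16, 92, -48, 144, 32, -21, -91, 35, -81, 19, 10, -42, -198, 179, 80, -41, -122, 106, 70, 10, 119, -64, 42, -11, 0],
    [315, 0, -180, 120, -360, 0, 15, 225, 15, 195, 15, -30, 30, 330, -345, -240, 75, 270, -150, -210, 90, -405, 120, -30, -15, 0],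
    [79, 8, -76, 24, -72, -16, 3, 53, 35, 63, 43, 10, 6, 114, -157, -40, -17, 46, -38, -50, 10, -97, 32, -6, 13, 0],
    [-94, -8, 16, -24, 72, 16, 42, -98, 10, -78, 2, 20, -36, -84, 82, 40, 2, -76, 68, 20, 20, 82, -32, 36, 62, 0],
    [214, 8, -136, 144, -192, -16, 78, 98, -10, 78, -2, -20, 36, 204, -202, -160, -2, 196, -68, -140, -20, -202, 32, -36, 58, 0],
    [250, -40, -160, 120, -240, -40, 90, 110, -70, 90, 10, -20, 60, 300, -190, -160, 10, 220, -140, -140, -20, -190, 80, -60, 70, 0],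
    [-137, 56, 68, -72, 96, 8, -69, -19, 35, -9, -29, 10, -18, -102, 131, 80, 31, -98, 34, 70, 10, 71, -16, 18, -59, 0],
    [24, 48, 24, 24, -72, 24, -72, 48, 0, 48, 48, 0, -24, 24, -72, 0, 48, -24, -48, 0, 0, -72, 72, 24, -72, 0],
    [139, 8, -76, 24, -72, -16, -57, 113, -25, 123, -17, 10, 6, 114, -97, -40, 43, 46, -38, -50, 10, -157, 32, -6, -47, 0],
    [-2, -64, 8, 48, 96, 8, 126, -94, -10, -114, -74, -20, 12, -12, 86, -40, -74, 52, 4, -20, -20, 86, -16, -12, 106, 0],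
    [-70, 40, 40, -120, 0, 40, -150, 70, 10, 90, 50, 20, 60, -60, 10, 40, 50, -100, 20, 20, 20, 10, 40, 60, -130, 0],
    [-74, 32, 56, -24, 72, -64, -18, 2, -10, -18, 22, -20, -36, -84, 62, 80, 22, -116, 28, 100, -20, 62, 8, 36, -38, 0],
    [-94, -8, 16, -24, 72, 16, -78, 22, 10, 42, 2, 20, -36, -84, 82, 40, 2, -76, 68, 20, 20, 82, -32, 36, -58, 0],
    [-77, 56, 68, -72, 96, 8, -9, -79, -25, -69, 31, 10, -18, -102, 71, 80, -29, -98, 34, 70, 10, 131, -16, 18, 1, 0],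
    [48, -24, -72, 48, -24, -72, 96, -24, 0, -24, -24, 0, -48, 48, -24, 0, -24, 72, 24, 0, 0, -24, 24, -72, 96, 0],
    [170, 40, -80, 0, -240, 40, -150, 190, 10, 210, 50, 20, 60, 180, -230, -80, 50, 140, -100, -100, 20, -230, 40, 60, -130, 0],
    [-215, -40, 140, 0, 240, -40, 165, -205, 5, -255, -35, 70, -30, -210, 245, 80, -95, -110, 70, 130, -50, 305, -40, -90, 115, 0],
    [-192, -24, 168, -72, 216, 48, -24, -144, 0, -144, -24, 0, -48, -192, 216, 120, -24, -168, 144, 120, 0, 216, -96, 48, -24, 0]])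
    (x := [-2, -1, -1, 3, 3, -1, 6, -4, 2, -6, -2, 1, -3, -3, 2, -1, -2, 1, 1, 1, 1, 2, -1, -3, 4, 3])
    (d := 120) (q := 1) (u := 0) (v := 8) (by decide +kernel)

theorem x22_14 : 22 ∈ nutOrders 14 :=
  Exp.mem (n := 22) (A := [
    [0, 0, 0, 1, 1, 1, 1, 1, 0, 1, 0, 1, 1, 1, 1, 0, 1, 1, 0, 1, 1, 0],
    [0, 0, 0, 0, 1, 0, 1, 1, 1, 1, 1, 1, 1, 1, 1, 1, 0, 0, 1, 0, 1, 1],
    [0, 0, 0, 1, 0, 0, 0, 1, 1, 0, 1, 1, 1, 1, 1, 1, 1, 1, 1, 0, 1, 1],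
    [1, 0, 1, 0, 1, 1, 1, 0, 1, 1, 1, 0, 1, 0, 1, 0, 1, 1, 0, 0, 1, 1],
    [1, 1, 0, 1, 0, 1, 0, 0, 1, 1, 1, 0, 1, 1, 1, 1, 0, 0, 1, 1, 1, 0],
    [1, 0, 0, 1, 1, 0, 1, 1, 0, 1, 0, 1, 0, 0, 1, 1, 1, 0, 1, 1, 1, 1],
    [1, 1, 0, 1, 0, 1, 0, 0, 1, 1, 0, 1, 1, 1, 0, 1, 0, 1, 1, 0, 1, 1],
    [1, 1, 1, 0, 0, 1, 0, 0, 1, 0, 1, 1, 1, 1, 1, 1, 0, 1, 1, 0, 0, 1],
    [0, 1, 1, 1, 1, 0, 1, 1, 0, 0, 1, 1, 0, 1, 0, 1, 0, 1, 1, 1, 1, 0],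
    [1, 1, 0, 1, 1, 1, 1, 0, 0, 0, 0, 1, 1, 1, 1, 1, 1, 0, 0, 1, 1, 0],
    [0, 1, 1, 1, 1, 0, 0, 1, 1, 0, 0, 1, 1, 1, 0, 1, 1, 1, 1, 0, 0, 1],
    [1, 1, 1, 0, 0, 1, 1, 1, 1, 1, 1, 0, 1, 1, 1, 0, 0, 1, 0, 1, 0, 0],
    [1, 1, 1, 1, 1, 0, 1, 1, 0, 1, 1, 1, 0, 0, 1, 0, 1, 1, 0, 1, 0, 0],
    [1, 1, 1, 0, 1, 0, 1, 1, 1, 1, 1, 1, 0, 0, 1, 0, 0, 1, 0, 1, 0, 1],
    [1, 1, 1, 1, 1, 1, 0, 1, 0, 1, 0, 1, 1, 1, 0, 0, 1, 0, 1, 1, 0, 0],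
    [0, 1, 1, 0, 1, 1, 1, 1, 1, 1, 1, 0, 0, 0, 0, 0, 1, 1, 0, 1, 1, 1],
    [1, 0, 1, 1, 0, 1, 0, 0, 0, 1, 1, 0, 1, 0, 1, 1, 0, 1, 1, 1, 1, 1],
    [1, 0, 1, 1, 0, 0, 1, 1, 1, 0, 1, 1, 1, 1, 0, 1, 1, 0, 1, 0, 0, 1],
    [0, 1, 1, 0, 1, 1, 1, 1, 1, 0, 1, 0, 0, 0, 1, 0, 1, 1, 0, 1, 1, 1],
    [1, 0, 0, 0, 1, 1, 0, 0, 1, 1, 0, 1, 1, 1, 1, 1, 1, 0, 1, 0, 1, 1],
    [1, 1, 1, 1, 1, 1, 1, 0, 1, 1, 0, 0, 0, 0, 0, 1, 1, 0, 1, 1, 0, 1],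
    [0, 1, 1, 1, 0, 1, 1, 1, 0, 0, 1, 0, 0, 1, 0, 1, 1, 1, 1, 1, 1, 0]])
    (L := [
    [-59, 27, 68, -7, -62, -38, 27, -45, 6, 34, -38, 37, 13, 0, 34, -28, 13, -35, 13, 6, 37, 0],
    [0, 0, 0, 0, 0, 0, 0, 0, 0, 0, 0, 0, 0, 0, 0, 0, 0, 0, 0, 0, 0, 0],
    [79, -46, -113, 7, 88, 51, -32, 51, -4, -53, 58, -48, -11, 0, -53, 28, -11, 63, -4, 10, -62, 0],
    [-44, 32, 57, -21, -60, -58, 32, -58, 4, 25, -37, 27, 25, 0, 25, -42, 25, -21, 32, 18, 41, 0],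
    [-81, 50, 100, -14, -92, -67, 36, -67, 8, 50, -53, 47, 22, 0, 50, -42, 22, -56, 22, 8, 61, 0],
    [-10, 13, -2, -7, -6, -3, 13, 4, -8, 6, -3, 2, 13, -14, 6, 0, -1, -7, 13, -8, 2, 0],
    [28, -14, -28, 14, 28, 28, -14, 28, 0, -14, 14, -14, -14, 0, -14, 14, -14, 14, -14, -14, -14, 0],
    [-17, 13, -2, -7, -6, 4, 13, -3, -8, 6, 4, 9, 13, -14, 6, 0, -1, -7, 13, -8, -5, 0],
    [91, -56, -126, 28, 126, 91, -42, 91, -14, -56, 77, -63, -28, 0, -56, 56, -42, 56, -28, -28, -77, 0],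
    [7, 0, -7, -7, 0, -7, 0, -7, 0, -7, 0, 0, 7, 0, -7, 0, 7, 7, 0, 14, 0, 0],
    [-66, 41, 89, -14, -76, -59, 27, -52, 6, 41, -52, 37, 20, 0, 41, -28, 20, -42, 13, 6, 51, 0],
    [113, -65, -151, 28, 142, 106, -51, 113, -16, -65, 85, -80, -30, 0, -65, 70, -44, 70, -37, -30, -94, 0],
    [70, -42, -91, 35, 98, 84, -42, 84, -14, -35, 63, -49, -35, 0, -35, 56, -35, 35, -42, -42, -63, 0],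
    [-149, 88, 218, -56, -214, -177, 74, -177, 32, 88, -135, 111, 46, 14, 88, -112, 74, -84, 60, 74, 139, 0],
    [7, 0, -7, -7, 0, -7, 0, -7, 0, -7, 0, 0, 7, 0, -7, -14, 7, 7, 14, 14, 0, 0],
    [19, -10, -48, 0, 38, 33, -10, 33, -10, -10, 33, -15, 4, -14, -24, 28, -10, 14, -10, -10, -29, 0],
    [14, -14, -7, 7, 14, 14, -14, 14, 0, -7, 7, -7, -7, 0, -7, 14, -7, 7, -14, 0, -7, 0],
    [-16, 4, 29, 7, -18, -2, 4, -2, 4, 11, -9, 13, -3, 0, 11, 0, -3, -21, -10, -10, 13, 0],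
    [42, -28, -42, 28, 56, 56, -28, 56, 0, -28, 28, -28, -28, 0, -14, 28, -28, 14, -28, -28, -28, 0],
    [35, -28, -28, 14, 42, 35, -28, 35, 0, -14, 21, -21, -28, 14, -14, 28, -14, 14, -28, -14, -21, 0],
    [57, -37, -81, 14, 72, 50, -23, 43, -2, -37, 43, -38, -16, 0, -37, 28, -16, 42, -9, -2, -52, 0],
    [-121, 74, 176, -42, -172, -135, 60, -135, 18, 74, -107, 83, 32, 14, 74, -84, 60, -70, 46, 46, 111, 0]])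
    (x := [2, -1, -3, 1, 3, 2, -1, 2, -1, -1, 2, -2, -1, 1, -1, 1, -1, 1, -1, -1, -2, 1])
    (d := 14) (q := 1) (by decide +kernel)

/-- the smallest order `ρ + 4`, for `ρ = 2` modulo `4` -/
theorem mem_IV {ρ : ℕ} (hρ : ρ % 4 = 2) (h18 : 18 ≤ ρ) : ρ + 4 ∈ nutOrders ρ := by
  by_cases h8 : ρ % 8 = 2
  · obtain ⟨j, rfl⟩ : ∃ j, ρ = 18 + 8 * j := ⟨(ρ - 18) / 8, by omega⟩
    have := (c22.steps j).mem (by omega)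
    have e : 22 + 8 * j - 4 = 18 + 8 * j := by omega
    rw [e] at this
    have e2 : 18 + 8 * j + 4 = 22 + 8 * j := by ring
    rw [e2]
    exact this
  · obtain ⟨j, rfl⟩ : ∃ j, ρ = 22 + 8 * j := ⟨(ρ - 22) / 8, by omega⟩
    have := (c26.steps j).mem (by omega)
    have e : 26 + 8 * j - 4 = 22 + 8 * j := by omega
    rw [e] at this
    have e2 : 22 + 8 * j + 4 = 26 + 8 * j := by ring
    rw [e2]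
    exact this

end Pool.Agent.J6H93.NutE
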