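import Pool.Agent.J6H93.NutE.ExpG

/-! # Explicit regular nut graphs of degree 5 -/

set_option autoImplicit false

namespace Pool.Agent.J6H93.NutE

open Pool.Agent.TH296.Nut Pool.Agent.J6H28.Nut

theorem g5_10 : Good 5 10 :=
  good_of_exp (A := [
    [0, 1, 0, 0, 0, 1, 1, 1, 1, 0],
    [1, 0, 1, 0, 0, 0, 1, 1, 0, 1],
    [0, 1, 0, 1, 0, 1, 0, 1, 1, 0],
    [0, 0, 1, 0, 1, 0, 1, 0, 1, 1],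
    [0, 0, 0, 1, 0, 1, 1, 0, 1, 1],
    [1, 0, 1, 0, 1, 0, 0, 1, 1, 0],
    [1, 1, 0, 1, 1, 0, 0, 0, 0, 1],
    [1, 1, 1, 0, 0, 1, 0, 0, 0, 1],
    [1, 0, 1, 1, 1, 1, 0, 0, 0, 0],
    [0, 1, 0, 1, 1, 0, 1, 1, 0, 0]])
    (L := [
    [0, 0, 0, 0, 0, 0, 0, 0, 0, 0],
    [0, 0, 6, 6, -6, -6, 0, 0, 0, 0],
    [-4, 2, 8, 8, -6, -6, -4, 0, 2, 0],
    [-4, 2, 8, 5, -3, -6, -1, -3, 2, 0],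
    [4, -2, -8, -5, 3, 6, 4, 0, 1, 0],
    [4, -2, -8, -8, 6, 6, 1, 3, 1, 0],
    [2, 2, 2, 5, -3, -6, -1, -3, 2, 0],
    [2, 2, -4, -7, 3, 6, 2, 0, -1, 0],
    [-2, -2, 4, 4, 0, 0, -2, 0, -2, 0],
    [0, 0, -6, -6, 6, 6, 3, 3, -3, 0]])
    (x := [-2, -2, -2, -2, 3, 3, -2, 3, -2, 3])
    (d := 6) (q := 0) (by decide +kernel)

theorem g5_12 : Good 5 12 :=
  good_of_exp (A := [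
    [0, 0, 0, 0, 1, 1, 0, 1, 0, 1, 0, 1],
    [0, 0, 0, 1, 0, 1, 1, 0, 0, 1, 1, 0],
    [0, 0, 0, 0, 1, 0, 0, 1, 1, 1, 1, 0],
    [0, 1, 0, 0, 0, 1, 1, 0, 1, 0, 0, 1],
    [1, 0, 1, 0, 0, 0, 0, 0, 1, 0, 1, 1],
    [1, 1, 0, 1, 0, 0, 1, 0, 0, 0, 0, 1],
    [0, 1, 0, 1, 0, 1, 0, 1, 0, 0, 1, 0],
    [1, 0, 1, 0, 0, 0, 1, 0, 1, 1, 0, 0],
    [0, 0, 1, 1, 1, 0, 0, 1, 0, 0, 1, 0],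
    [1, 1, 1, 0, 0, 0, 0, 1, 0, 0, 0, 1],
    [0, 1, 1, 0, 1, 0, 1, 0, 1, 0, 0, 0],
    [1, 0, 0, 1, 1, 1, 0, 0, 0, 1, 0, 0]])
    (L := [
    [4, 0, 0, -18, 6, 6, 14, -4, -20, 2, 16, 0],
    [0, 0, 0, 0, 0, 0, 0, 0, 0, 0, 0, 0],
    [0, 0, -5, 5, 0, -5, -5, 5, 10, 0, -5, 0],
    [2, -10, -5, 11, -2, 3, -3, 13, 20, -14, -17, 0],
    [6, 0, 0, -12, 4, 4, 6, -6, -10, -2, 14, 0],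
    [6, 0, -5, -7, 4, -1, 11, -1, -10, -2, 9, 0],
    [-6, 10, 5, -3, -4, 1, -1, -9, -10, 12, 11, 0],
    [-4, 0, 5, 3, -6, -1, 1, -1, 0, 8, -1, 0],
    [0, -10, 0, 10, 0, 0, 0, 10, 10, -10, -10, 0],
    [2, 0, 0, 6, -2, -2, -8, 8, 10, -4, -12, 0],
    [-4, 10, 5, -7, 4, -1, 1, -11, -10, 8, 9, 0],
    [0, 0, 0, 10, 0, 0, -10, 0, 10, 0, -10, 0]])
    (x := [2, -1, -1, -2, 1, 1, 2, 1, -1, -2, 1, -1])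
    (d := 10) (q := 1) (by decide +kernel)

theorem g5_14 : Good 5 14 :=
  good_of_exp (A := [
    [0, 0, 1, 0, 0, 1, 0, 0, 1, 0, 0, 1, 0, 1],
    [0, 0, 1, 0, 1, 1, 1, 0, 1, 0, 0, 0, 0, 0],
    [1, 1, 0, 0, 0, 1, 0, 1, 0, 0, 0, 1, 0, 0],
    [0, 0, 0, 0, 0, 0, 0, 1, 0, 1, 1, 1, 1, 0],
    [0, 1, 0, 0, 0, 0, 1, 0, 0, 1, 1, 0, 0, 1],
    [1, 1, 1, 0, 0, 0, 0, 1, 0, 0, 0, 1, 0, 0],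
    [0, 1, 0, 0, 1, 0, 0, 0, 0, 1, 1, 0, 1, 0],
    [0, 0, 1, 1, 0, 1, 0, 0, 1, 0, 0, 1, 0, 0],
    [1, 1, 0, 0, 0, 0, 0, 1, 0, 0, 0, 0, 1, 1],
    [0, 0, 0, 1, 1, 0, 1, 0, 0, 0, 1, 0, 0, 1],
    [0, 0, 0, 1, 1, 0, 1, 0, 0, 1, 0, 0, 1, 0],
    [1, 0, 1, 1, 0, 1, 0, 1, 0, 0, 0, 0, 0, 0],
    [0, 0, 0, 1, 0, 0, 1, 0, 1, 0, 1, 0, 0, 1],
    [1, 0, 0, 0, 1, 0, 0, 0, 1, 1, 0, 0, 1, 0]])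
    (L := [
    [-12, 0, 4, -10, 8, 4, 6, 14, 8, -2, -4, -6, -2, 0],
    [0, 0, 0, 0, 0, 0, 0, 0, 0, 0, 0, 0, 0, 0],
    [-11, 5, -8, 0, 9, 2, -2, 17, 9, 4, -7, -3, -11, 0],
    [5, -5, 0, 0, -5, 0, 0, -5, -5, 0, 5, 5, 5, 0],
    [23, -5, 4, 0, -17, 4, 6, -31, -17, -2, 11, 9, 13, 0],
    [-11, 5, 2, 0, 9, -8, -2, 17, 9, 4, -7, -3, -11, 0],
    [-24, 10, -2, 0, 16, -2, -8, 28, 16, 6, -8, -12, -14, 0],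
    [29, -5, 2, 10, -21, 2, -2, -43, -21, -6, 13, 17, 19, 0],
    [23, -5, 4, 0, -17, 4, 6, -31, -17, -12, 11, 9, 23, 0],
    [28, -10, 4, 0, -12, 4, 6, -36, -22, -12, 16, 14, 18, 0],
    [-19, 5, -2, 0, 11, -2, 2, 23, 11, 6, -13, -7, -9, 0],
    [-6, 0, 2, 0, 4, 2, -2, 12, 4, 4, -2, -8, -6, 0],
    [-32, 10, -6, 0, 18, -6, -4, 44, 28, 8, -14, -16, -22, 0],
    [15, -5, 0, 0, -5, 0, 0, -15, -5, 0, 5, 5, 5, 0]])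
    (x := [3, -1, 1, -1, -2, 1, 2, -4, -2, -2, 2, 1, 3, -1])
    (d := 10) (q := 1) (by decide +kernel)

theorem g5_16 : Good 5 16 :=
  good_of_exp (A := [
    [0, 0, 0, 1, 0, 0, 1, 0, 1, 1, 0, 0, 1, 0, 0, 0],
    [0, 0, 0, 1, 0, 0, 1, 0, 1, 0, 0, 0, 0, 1, 1, 0],
    [0, 0, 0, 0, 0, 1, 0, 1, 1, 0, 0, 0, 1, 0, 0, 1],
    [1, 1, 0, 0, 0, 0, 0, 0, 1, 0, 1, 0, 0, 0, 1, 0],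
    [0, 0, 0, 0, 0, 0, 0, 0, 0, 1, 1, 0, 0, 1, 1, 1],
    [0, 0, 1, 0, 0, 0, 1, 1, 0, 0, 0, 0, 1, 0, 0, 1],
    [1, 1, 0, 0, 0, 1, 0, 0, 0, 1, 0, 0, 0, 0, 1, 0],
    [0, 0, 1, 0, 0, 1, 0, 0, 0, 0, 0, 1, 1, 0, 1, 0],
    [1, 1, 1, 1, 0, 0, 0, 0, 0, 0, 0, 1, 0, 0, 0, 0],
    [1, 0, 0, 0, 1, 0, 1, 0, 0, 0, 1, 1, 0, 0, 0, 0],
    [0, 0, 0, 1, 1, 0, 0, 0, 0, 1, 0, 0, 1, 1, 0, 0],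
    [0, 0, 0, 0, 0, 0, 0, 1, 1, 1, 0, 0, 0, 1, 0, 1],
    [1, 0, 1, 0, 0, 1, 0, 1, 0, 0, 1, 0, 0, 0, 0, 0],
    [0, 1, 0, 0, 1, 0, 0, 0, 0, 0, 1, 1, 0, 0, 0, 1],
    [0, 1, 0, 1, 1, 0, 1, 1, 0, 0, 0, 0, 0, 0, 0, 0],
    [0, 0, 1, 0, 1, 1, 0, 0, 0, 0, 0, 1, 0, 1, 0, 0]])
    (L := [
    [0, 0, 0, 0, 0, 0, 0, 0, 0, 0, 0, 0, 0, 0, 0, 0],
    [-75, -15, 75, 45, 0, 45, 60, -90, 90, 90, 45, -30, -45, -90, -45, 0],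
    [64, 44, -120, -28, -64, 8, -20, 68, -88, -116, -20, 40, 72, 136, 0, 0],
    [47, 7, -15, -29, 28, -41, -40, 34, -14, -58, -25, -10, 21, 38, 45, 0],
    [83, 43, -135, -41, -68, -29, -40, 106, -146, -142, -25, 50, 69, 182, 45, 0],
    [-14, 26, 30, -22, -16, 2, 40, -28, 8, 16, 10, -20, 18, 4, -30, 0],
    [-26, 14, 30, 2, -4, 38, 40, -52, 32, 64, 10, -20, -18, -44, -30, 0],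
    [-29, -49, 45, 23, 44, -13, -20, 2, 38, 46, -5, 10, -27, -86, 45, 0],
    [52, 32, -60, -4, -52, -16, -20, 44, -64, -68, -20, 40, 36, 88, 0, 0],
    [45, -15, -45, -15, 0, -15, 0, 30, -30, -30, -15, 30, 15, 30, 15, 0],
    [-21, -21, 45, 27, 36, 3, 0, -42, 42, 54, 15, -30, -3, -54, -15, 0],
    [-36, -36, 60, 12, 36, -12, 0, -12, 72, 84, 0, 0, -48, -84, 0, 0],
    [-58, -38, 90, 46, 28, 34, 20, -56, 76, 92, 50, -40, -54, -112, -30, 0],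
    [-117, 3, 105, 39, 12, 51, 60, -114, 114, 138, 75, -30, -51, -138, -75, 0],
    [44, 4, -60, -8, 16, -32, -40, 88, -68, -76, -40, 20, 12, 56, 60, 0],
    [49, 29, -45, -43, -4, -7, -20, 38, -58, -86, -35, 10, 27, 106, 15, 0]])
    (x := [1, -4, 3, 2, 5, -1, -2, -1, 2, 1, -2, -2, -3, -5, 3, 3])
    (d := 60) (q := 0) (by decide +kernel)

theorem g5_18 : Good 5 18 :=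
  good_of_exp (A := [
    [0, 0, 0, 1, 0, 1, 1, 0, 0, 1, 0, 0, 1, 0, 0, 0, 0, 0],
    [0, 0, 0, 0, 0, 1, 0, 1, 0, 1, 1, 0, 0, 0, 0, 0, 0, 1],
    [0, 0, 0, 0, 1, 1, 0, 1, 0, 0, 0, 1, 0, 0, 0, 0, 0, 1],
    [1, 0, 0, 0, 1, 0, 0, 1, 1, 0, 0, 0, 0, 0, 0, 0, 0, 1],
    [0, 0, 1, 1, 0, 0, 0, 0, 0, 1, 0, 1, 0, 1, 0, 0, 0, 0],
    [1, 1, 1, 0, 0, 0, 1, 0, 0, 0, 0, 0, 0, 0, 0, 1, 0, 0],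
    [1, 0, 0, 0, 0, 1, 0, 0, 0, 1, 0, 0, 0, 0, 1, 0, 1, 0],
    [0, 1, 1, 1, 0, 0, 0, 0, 0, 0, 0, 1, 1, 0, 0, 0, 0, 0],
    [0, 0, 0, 1, 0, 0, 0, 0, 0, 0, 0, 0, 1, 0, 1, 1, 1, 0],
    [1, 1, 0, 0, 1, 0, 1, 0, 0, 0, 0, 0, 0, 1, 0, 0, 0, 0],
    [0, 1, 0, 0, 0, 0, 0, 0, 0, 0, 0, 0, 0, 1, 1, 0, 1, 1],
    [0, 0, 1, 0, 1, 0, 0, 1, 0, 0, 0, 0, 0, 1, 1, 0, 0, 0],
    [1, 0, 0, 0, 0, 0, 0, 1, 1, 0, 0, 0, 0, 1, 0, 1, 0, 0],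
    [0, 0, 0, 0, 1, 0, 0, 0, 0, 1, 1, 1, 1, 0, 0, 0, 0, 0],
    [0, 0, 0, 0, 0, 0, 1, 0, 1, 0, 1, 1, 0, 0, 0, 1, 0, 0],
    [0, 0, 0, 0, 0, 1, 0, 0, 1, 0, 0, 0, 1, 0, 1, 0, 1, 0],
    [0, 0, 0, 0, 0, 0, 1, 0, 1, 0, 1, 0, 0, 0, 0, 1, 0, 1],
    [0, 1, 1, 1, 0, 0, 0, 0, 0, 0, 1, 0, 0, 0, 0, 0, 1, 0]])
    (L := [
    [7, -10, 2, -4, -16, -17, 18, 13, -4, 1, 3, 0, 12, 1, 0, -17, 9, 0],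
    [-12, 12, -4, 4, 16, 20, -14, -6, 2, 2, -6, 0, -12, -2, -4, 18, -6, 0],
    [0, 0, 0, 0, 0, 0, 0, 0, 0, 0, 0, 0, 0, 0, 0, 0, 0, 0],
    [-6, 6, -2, 2, 8, 0, -2, 2, 6, 6, -8, 0, -6, -6, -2, 4, 2, 0],
    [-12, 8, 0, 4, 16, 14, -12, -10, 6, 6, -10, 0, -12, 0, -6, 16, -2, 0],
    [-7, 4, 4, -6, 6, 3, 0, 1, 0, 5, -9, 0, -2, -3, -8, 9, 7, 0],
    [14, -6, 0, 2, -12, -8, 4, 0, -2, -2, 10, 0, 4, 0, 12, -12, -6, 0],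
    [7, 4, -2, 6, -6, -1, -4, -3, 2, -3, 7, 0, 2, -1, 12, -5, -15, 0],
    [-8, 6, -4, 6, 14, 12, -10, -6, 0, 0, -6, 0, -8, -2, -2, 16, -2, 0],
    [-3, 6, -4, 6, 14, 17, -10, -11, 0, -5, -1, 0, -8, 3, -2, 11, -7, 0],
    [-3, 4, -2, -4, -6, -11, 6, 7, 2, 7, -3, 0, 2, -1, 2, -5, 5, 0],
    [6, -8, 4, -2, -8, -8, 8, 6, -4, -4, 6, 0, 6, 2, 6, -10, 0, 0],
    [12, -10, 2, -4, -16, -12, 8, 8, -4, -4, 8, 0, 12, 6, 0, -12, 4, 0],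
    [3, -4, 2, -6, -4, -9, 4, 3, -2, 3, 3, 0, 8, 1, -2, -5, 5, 0],
    [2, -8, 0, -4, -6, -4, 12, 10, -6, -6, 0, 10, 2, 0, -4, -6, 12, 0],
    [-9, 4, 2, -2, 12, 15, -8, -7, 4, -1, -7, 0, -4, 1, -8, 11, 3, 0],
    [1, 8, -2, 8, 2, 1, -10, -13, 10, 5, 7, -10, -4, -1, 14, 3, -21, 0],
    [6, -8, 4, -2, -8, -8, 8, 6, -4, -4, 6, 0, 6, 2, -4, -10, 10, 0]])
    (x := [-2, 3, -1, 1, 2, 1, -2, -1, 2, 2, -1, -1, -2, -1, 1, 2, -2, -1])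
    (d := 10) (q := 2) (by decide +kernel)

end Pool.Agent.J6H93.NutE
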