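import Pool.Agent.J6H93.NutE.ExpG

/-! # Explicit regular nut graphs of degree 6 -/

set_option autoImplicit false

namespace Pool.Agent.J6H93.NutE

open Pool.Agent.TH296.Nut Pool.Agent.J6H28.Nut

theorem g6_13 : Good 6 13 :=
  good_of_exp (A := [
    [0, 1, 0, 0, 0, 0, 1, 0, 1, 1, 1, 0, 1],
    [1, 0, 1, 1, 1, 0, 0, 0, 0, 1, 1, 0, 0],
    [0, 1, 0, 0, 1, 0, 1, 1, 0, 0, 1, 1, 0],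
    [0, 1, 0, 0, 1, 1, 0, 0, 0, 1, 0, 1, 1],
    [0, 1, 1, 1, 0, 1, 0, 1, 0, 0, 0, 0, 1],
    [0, 0, 0, 1, 1, 0, 1, 1, 1, 0, 0, 0, 1],
    [1, 0, 1, 0, 0, 1, 0, 0, 1, 1, 0, 1, 0],
    [0, 0, 1, 0, 1, 1, 0, 0, 1, 0, 1, 1, 0],
    [1, 0, 0, 0, 0, 1, 1, 1, 0, 0, 1, 1, 0],
    [1, 1, 0, 1, 0, 0, 1, 0, 0, 0, 0, 1, 1],
    [1, 1, 1, 0, 0, 0, 0, 1, 1, 0, 0, 0, 1],
    [0, 0, 1, 1, 0, 0, 1, 1, 1, 1, 0, 0, 0],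
    [1, 0, 0, 1, 1, 1, 0, 0, 0, 1, 1, 0, 0]])
    (L := [
    [0, 0, 0, 0, 0, 0, 0, 0, 0, 0, 0, 0, 0],
    [6, -3, 15, -9, 12, 3, 15, -6, -12, -3, -9, -9, 0],
    [-10, -7, -27, 29, -18, -27, -55, 32, 12, 9, 17, 43, 0],
    [6, 9, 21, -27, 18, 21, 45, -24, -12, -3, -15, -33, 0],
    [-4, -4, -6, 14, -6, -6, -22, 14, 0, 0, 2, 16, 0],
    [2, -7, -3, 5, 6, -3, -7, 8, 0, -3, -7, 7, 0],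
    [-6, -15, -27, 33, -18, -27, -63, 36, 12, 9, 9, 51, 0],
    [0, 6, 12, -12, 6, 12, 24, -18, 0, -6, 0, -18, 0],
    [8, 2, 18, -22, 12, 18, 38, -16, -12, -6, -10, -26, 0],
    [2, 5, 3, -1, 0, 3, 11, -10, 0, -3, -1, -5, 0],
    [6, 9, 9, -15, 6, 9, 21, -12, 0, -3, -3, -21, 0],
    [-2, 7, 9, -11, 0, 9, 25, -14, 0, 3, 1, -19, 0],
    [-4, 2, -18, 14, -12, -6, -22, 8, 12, 6, 14, 10, 0]])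
    (x := [-1, -1, -2, 2, -2, -2, -4, 2, 1, 1, 2, 3, 1])
    (d := 12) (q := 0) (by decide +kernel)

theorem g6_14 : Good 6 14 :=
  good_of_exp (A := [
    [0, 0, 1, 0, 1, 0, 1, 1, 0, 0, 1, 0, 1, 0],
    [0, 0, 1, 1, 0, 0, 0, 0, 1, 1, 1, 0, 0, 1],
    [1, 1, 0, 0, 1, 0, 0, 0, 0, 0, 1, 0, 1, 1],
    [0, 1, 0, 0, 0, 1, 1, 1, 0, 1, 1, 0, 0, 0],
    [1, 0, 1, 0, 0, 1, 0, 0, 0, 1, 0, 1, 0, 1],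
    [0, 0, 0, 1, 1, 0, 0, 0, 1, 1, 0, 1, 0, 1],
    [1, 0, 0, 1, 0, 0, 0, 1, 1, 1, 1, 0, 0, 0],
    [1, 0, 0, 1, 0, 0, 1, 0, 1, 0, 0, 1, 1, 0],
    [0, 1, 0, 0, 0, 1, 1, 1, 0, 0, 1, 0, 1, 0],
    [0, 1, 0, 1, 1, 1, 1, 0, 0, 0, 0, 1, 0, 0],
    [1, 1, 1, 1, 0, 0, 1, 0, 1, 0, 0, 0, 0, 0],
    [0, 0, 0, 0, 1, 1, 0, 1, 0, 1, 0, 0, 1, 1],
    [1, 0, 1, 0, 0, 0, 0, 1, 1, 0, 0, 1, 0, 1],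
    [0, 1, 1, 0, 1, 1, 0, 0, 0, 0, 0, 1, 1, 0]])
    (L := [
    [0, 0, 0, 0, 0, 0, 0, 0, 0, 0, 0, 0, 0, 0],
    [-4, -8, 12, 6, 4, -12, 8, 4, -14, 2, 6, 2, 2, 0],
    [4, -4, 0, -6, 8, 0, 4, -4, 2, -2, 6, -2, -2, 0],
    [-8, 14, 18, 21, -10, -54, 10, 26, -55, 25, -9, 19, 13, 0],
    [8, -8, -12, -18, 4, 36, -4, -20, 34, -10, 6, -10, -10, 0],
    [4, -4, -24, -30, 8, 48, -8, -28, 62, -14, 6, -14, -14, 0],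
    [0, 12, 0, 18, -12, -12, -12, 12, -18, 6, -6, 6, 6, 0],
    [-4, 4, 12, 18, -8, -36, 8, 16, -38, 14, -6, 14, 14, 0],
    [8, -14, -30, -39, 10, 78, -10, -38, 85, -31, 15, -25, -19, 0],
    [0, -6, 6, 9, 6, -6, 6, 6, -15, -3, 3, 3, -3, 0],
    [4, 2, -6, -9, 2, 18, -2, -10, 23, -5, -3, -11, -5, 0],
    [0, -6, 6, 3, 6, -6, 6, 6, -9, 3, -3, -3, 3, 0],
    [0, -6, 6, -3, 6, -6, 6, 6, -3, -3, 3, 3, -3, 0],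
    [-8, 20, 12, 24, -16, -36, -8, 20, -40, 16, -12, 16, 16, 0]])
    (x := [-1, 3, 1, 4, -3, -5, -1, 3, -6, 2, -2, 2, 2, 1])
    (d := 12) (q := 0) (by decide +kernel)

theorem g6_15 : Good 6 15 :=
  good_of_exp (A := [
    [0, 1, 0, 0, 1, 0, 0, 0, 1, 1, 0, 0, 0, 1, 1],
    [1, 0, 0, 1, 1, 1, 0, 0, 1, 0, 1, 0, 0, 0, 0],
    [0, 0, 0, 1, 0, 0, 0, 1, 1, 0, 1, 0, 1, 0, 1],
    [0, 1, 1, 0, 0, 1, 1, 0, 0, 0, 1, 0, 0, 1, 0],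
    [1, 1, 0, 0, 0, 0, 1, 0, 0, 0, 0, 1, 1, 0, 1],
    [0, 1, 0, 1, 0, 0, 1, 0, 0, 1, 1, 0, 1, 0, 0],
    [0, 0, 0, 1, 1, 1, 0, 0, 0, 0, 1, 1, 0, 0, 1],
    [0, 0, 1, 0, 0, 0, 0, 0, 1, 1, 0, 1, 0, 1, 1],
    [1, 1, 1, 0, 0, 0, 0, 1, 0, 0, 0, 1, 1, 0, 0],
    [1, 0, 0, 0, 0, 1, 0, 1, 0, 0, 1, 0, 0, 1, 1],
    [0, 1, 1, 1, 0, 1, 1, 0, 0, 1, 0, 0, 0, 0, 0],
    [0, 0, 0, 0, 1, 0, 1, 1, 1, 0, 0, 0, 1, 1, 0],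
    [0, 0, 1, 0, 1, 1, 0, 0, 1, 0, 0, 1, 0, 1, 0],
    [1, 0, 0, 1, 0, 0, 0, 1, 0, 1, 0, 1, 1, 0, 0],
    [1, 0, 1, 0, 1, 0, 1, 1, 0, 1, 0, 0, 0, 0, 0]])
    (L := [
    [0, 0, 0, 0, 0, 0, 0, 0, 0, 0, 0, 0, 0, 0, 0],
    [12, 8, 2, 20, 6, -16, -4, -6, 0, -10, -4, -6, -10, 14, 0],
    [-6, -16, 5, -13, -12, 14, 8, 3, 9, 2, 8, 3, 11, -19, 0],
    [12, -16, 23, 32, -3, -22, 8, -15, -18, -25, -1, -6, 2, 26, 0],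
    [0, -6, -6, -15, -9, 12, 12, 0, 9, 3, 3, 9, 3, -15, 0],
    [-6, 2, -4, -22, 6, 14, -10, -6, 0, 20, 8, -6, 20, -10, 0],
    [-6, 14, -10, 8, 6, -10, 2, 12, 0, -4, 2, 12, -22, 2, 0],
    [0, 18, -9, 9, 0, -18, 0, 9, 9, 0, 0, 9, -27, 9, 0],
    [0, 24, -3, 6, 9, -12, -12, 9, 0, -3, -3, 0, -12, 6, 0],
    [-6, 8, -16, -25, -3, 20, -4, 12, 9, 17, 5, 3, -1, -13, 0],
    [-6, 14, -10, -1, -3, 8, 2, 12, 9, 5, -7, 3, -13, -7, 0],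
    [0, 18, -9, 18, 9, -18, 0, 9, 0, -9, -9, 0, -18, 18, 0],
    [-6, -28, 11, -34, -3, 38, -4, -15, 0, 17, 5, -6, 44, -22, 0],
    [12, -22, 17, 26, -3, -10, 2, -15, -18, -13, -7, -6, 14, 20, 0],
    [0, -12, 6, -12, 0, 6, 6, 0, 0, 6, 6, 0, 6, -12, 0]])
    (x := [1, -1, 2, 2, 1, -1, -1, -2, -2, -1, -1, -2, 2, 2, 1])
    (d := 18) (q := 0) (by decide +kernel)

theorem g6_17 : Good 6 17 :=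
  good_of_exp (A := [
    [0, 1, 0, 1, 0, 1, 0, 0, 0, 1, 0, 0, 1, 0, 0, 1, 0],
    [1, 0, 1, 1, 1, 0, 0, 1, 0, 0, 0, 1, 0, 0, 0, 0, 0],
    [0, 1, 0, 0, 0, 1, 0, 1, 0, 1, 0, 0, 1, 0, 0, 1, 0],
    [1, 1, 0, 0, 0, 1, 0, 1, 0, 1, 0, 1, 0, 0, 0, 0, 0],
    [0, 1, 0, 0, 0, 0, 1, 0, 0, 1, 1, 1, 0, 1, 0, 0, 0],
    [1, 0, 1, 1, 0, 0, 0, 1, 0, 0, 0, 1, 0, 1, 0, 0, 0],
    [0, 0, 0, 0, 1, 0, 0, 0, 1, 1, 1, 0, 0, 1, 1, 0, 0],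
    [0, 1, 1, 1, 0, 1, 0, 0, 0, 0, 0, 1, 0, 0, 0, 0, 1],
    [0, 0, 0, 0, 0, 0, 1, 0, 0, 0, 1, 0, 1, 1, 1, 1, 0],
    [1, 0, 1, 1, 1, 0, 1, 0, 0, 0, 0, 0, 0, 0, 0, 0, 1],
    [0, 0, 0, 0, 1, 0, 1, 0, 1, 0, 0, 0, 1, 0, 1, 1, 0],
    [0, 1, 0, 1, 1, 1, 0, 1, 0, 0, 0, 0, 0, 0, 0, 0, 1],
    [1, 0, 1, 0, 0, 0, 0, 0, 1, 0, 1, 0, 0, 0, 1, 0, 1],
    [0, 0, 0, 0, 1, 1, 1, 0, 1, 0, 0, 0, 0, 0, 0, 1, 1],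
    [0, 0, 0, 0, 0, 0, 1, 0, 1, 0, 1, 0, 1, 0, 0, 1, 1],
    [1, 0, 1, 0, 0, 0, 0, 0, 1, 0, 1, 0, 0, 1, 1, 0, 0],
    [0, 0, 0, 0, 0, 0, 0, 1, 0, 1, 0, 1, 1, 1, 1, 0, 0]])
    (L := [
    [-6, 6, 15, -6, 0, -6, -3, 6, -3, 9, -3, -9, -3, 0, -3, 12, 0],
    [-6, 6, 21, -18, 12, -6, -9, 6, -9, 3, 3, -3, 3, 0, -9, 12, 0],
    [0, 0, 0, 0, 0, 0, 0, 0, 0, 0, 0, 0, 0, 0, 0, 0, 0],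
    [18, -6, -27, 10, 0, 10, -1, -14, 3, -9, 3, 13, 7, 0, 3, -12, 0],
    [-12, 12, 21, -12, 0, -12, 3, 12, -3, 9, -3, -9, -9, 0, -3, 12, 0],
    [6, -6, -21, 22, -12, -2, 5, -2, 9, -3, -3, 7, -11, 0, 9, 0, 0],
    [12, -12, -30, 20, 0, 8, -2, -16, 6, -6, 6, 14, 2, 0, 6, -12, 0],
    [6, -6, -15, 10, 0, 10, -1, -14, 3, -9, 3, 13, 7, 0, 3, -12, 0],
    [6, -6, -12, 6, 0, 6, 0, -6, -6, -6, 6, 6, 0, 0, 6, 0, 0],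
    [6, -6, -6, 6, 0, 6, 6, -6, 0, 0, 0, 0, 6, 0, 0, -12, 0],
    [6, 6, -12, 6, 0, -6, 0, -6, 6, -6, -6, 6, 0, 0, 6, 0, 0],
    [-6, 6, 6, -2, 0, -2, 2, 10, 0, 0, 0, -8, -2, 0, 0, 0, 0],
    [-12, 0, 12, 4, -12, -8, 8, 16, 0, 12, 0, -8, -20, -12, 12, 12, 0],
    [-12, 0, 21, -12, 0, 0, 3, 12, -3, 9, -3, -9, -9, 0, -3, 12, 0],
    [6, -6, -12, 6, 0, 6, 0, -6, 6, -6, 6, 6, 12, 0, -6, -12, 0],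
    [0, 12, 21, -24, 12, 0, -9, 0, -3, -3, -3, -9, 15, 12, -15, 0, 0],
    [-12, 0, 21, -12, 0, 0, 3, 12, -3, 9, -3, -9, 3, 0, -3, 0, 0]])
    (x := [-2, -2, 1, 2, -2, 2, 3, 2, 1, 1, 1, -1, -1, -2, 1, -2, -2])
    (d := 12) (q := 2) (by decide +kernel)

theorem g6_19 : Good 6 19 :=
  good_of_exp (A := [
    [0, 0, 0, 0, 1, 0, 0, 1, 0, 1, 0, 0, 0, 0, 0, 1, 1, 1, 0],
    [0, 0, 0, 0, 0, 0, 1, 0, 1, 0, 0, 1, 1, 0, 1, 0, 0, 0, 1],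
    [0, 0, 0, 0, 0, 0, 0, 1, 1, 1, 1, 0, 0, 1, 0, 0, 0, 1, 0],
    [0, 0, 0, 0, 0, 1, 0, 0, 0, 0, 0, 0, 1, 0, 1, 1, 1, 0, 1],
    [1, 0, 0, 0, 0, 0, 0, 1, 0, 1, 0, 1, 0, 0, 0, 1, 0, 0, 1],
    [0, 0, 0, 1, 0, 0, 1, 0, 0, 0, 0, 0, 1, 0, 1, 0, 1, 1, 0],
    [0, 1, 0, 0, 0, 1, 0, 1, 0, 0, 1, 1, 0, 0, 0, 0, 0, 1, 0],
    [1, 0, 1, 0, 1, 0, 1, 0, 0, 1, 1, 0, 0, 0, 0, 0, 0, 0, 0],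
    [0, 1, 1, 0, 0, 0, 0, 0, 0, 1, 0, 1, 0, 1, 0, 0, 1, 0, 0],
    [1, 0, 1, 0, 1, 0, 0, 1, 1, 0, 0, 0, 0, 0, 0, 0, 1, 0, 0],
    [0, 0, 1, 0, 0, 0, 1, 1, 0, 0, 0, 0, 1, 0, 1, 1, 0, 0, 0],
    [0, 1, 0, 0, 1, 0, 1, 0, 1, 0, 0, 0, 0, 0, 0, 1, 0, 0, 1],
    [0, 1, 0, 1, 0, 1, 0, 0, 0, 0, 1, 0, 0, 1, 0, 0, 1, 0, 0],
    [0, 0, 1, 0, 0, 0, 0, 0, 1, 0, 0, 0, 1, 0, 1, 0, 0, 1, 1],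
    [0, 1, 0, 1, 0, 1, 0, 0, 0, 0, 1, 0, 0, 1, 0, 0, 0, 1, 0],
    [1, 0, 0, 1, 1, 0, 0, 0, 0, 0, 1, 1, 0, 0, 0, 0, 0, 0, 1],
    [1, 0, 0, 1, 0, 1, 0, 0, 1, 1, 0, 0, 1, 0, 0, 0, 0, 0, 0],
    [1, 0, 1, 0, 0, 1, 1, 0, 0, 0, 0, 0, 0, 1, 1, 0, 0, 0, 0],
    [0, 1, 0, 1, 1, 0, 0, 0, 0, 0, 0, 1, 0, 1, 0, 1, 0, 0, 0]])
    (L := [
    [0, 0, 0, 0, 0, 0, 0, 0, 0, 0, 0, 0, 0, 0, 0, 0, 0, 0, 0],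
    [27, 28, -21, -22, 5, -19, -7, 5, -12, -6, 2, -12, 32, 15, 5, -14, -4, -4, 0],
    [-18, -21, 12, 12, -3, 12, 6, -3, 9, 3, 0, 9, -18, -6, -6, 9, 3, 3, 0],
    [-6, -13, 6, 1, -2, 7, 4, -5, 3, -3, 1, 6, -2, 0, -11, 8, 4, 4, 0],
    [27, 32, -21, -17, 4, -20, -11, 7, -12, 0, 1, -15, 22, 9, 16, -13, -5, -5, 0],
    [-3, -1, 0, 4, 1, 1, 1, 1, 0, 3, -2, 0, -5, -3, 4, -1, 1, 1, 0],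
    [-6, 2, 0, 4, 4, 4, -2, 4, 0, 6, -2, 0, -8, -6, 10, -4, -2, -2, 0],
    [30, 41, -27, -23, 13, -23, -14, 10, -18, 3, 1, -21, 31, 12, 22, -22, -8, -8, 0],
    [-27, -39, 27, 18, -12, 21, 15, -12, 15, -3, 0, 21, -24, -9, -27, 21, 9, 9, 0],
    [15, 12, -9, -12, 3, -9, -3, 3, -6, -6, 0, -6, 18, 9, -3, -6, 0, 0, 0],
    [-18, -25, 18, 13, -8, 13, 10, -5, 9, -3, 1, 12, -14, -6, -17, 14, 4, 4, 0],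
    [-24, -30, 21, 18, -9, 18, 12, -9, 15, 0, 0, 15, -27, -12, -15, 18, 6, 6, 0],
    [21, 41, -24, -11, 10, -20, -17, 13, -12, 9, 1, -21, 13, 3, 37, -22, -8, -14, 0],
    [12, 24, -12, -6, 6, -12, -12, 6, -6, 6, 0, -12, 6, 0, 24, -12, -6, -6, 0],
    [15, -4, 0, -14, -8, -5, 7, -8, -3, -18, 4, 3, 25, 15, -32, 8, 4, 10, 0],
    [-42, -59, 39, 32, -16, 32, 20, -16, 24, -3, 2, 30, -43, -18, -31, 31, 11, 11, 0],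
    [-12, -13, 9, 10, -2, 10, 4, -2, 6, 3, -2, 6, -11, -6, -5, 5, 1, 1, 0],
    [-12, -13, 9, 10, -2, 10, 4, -2, 6, 3, -2, 6, -17, -6, 1, 5, 1, 1, 0],
    [21, 36, -24, -15, 15, -18, -15, 12, -15, 6, -3, -18, 21, 9, 27, -21, -9, -9, 0]])
    (x := [1, 3, -2, -1, 2, -1, -1, 2, -2, 1, -1, -2, 2, 1, 2, -3, -1, -1, 1])
    (d := 6) (q := 0) (by decide +kernel)

theorem g6_21 : Good 6 21 :=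
  good_of_exp (A := [
    [0, 0, 0, 0, 0, 1, 0, 1, 1, 0, 0, 0, 0, 1, 1, 1, 0, 0, 0, 0, 0],
    [0, 0, 1, 0, 1, 0, 1, 0, 0, 0, 0, 0, 0, 1, 0, 0, 1, 0, 0, 1, 0],
    [0, 1, 0, 1, 0, 0, 0, 0, 0, 1, 0, 0, 1, 0, 0, 0, 0, 0, 0, 1, 1],
    [0, 0, 1, 0, 1, 0, 0, 1, 1, 0, 0, 1, 0, 0, 1, 0, 0, 0, 0, 0, 0],
    [0, 1, 0, 1, 0, 0, 0, 0, 0, 1, 0, 0, 0, 0, 1, 0, 1, 1, 0, 0, 0],
    [1, 0, 0, 0, 0, 0, 0, 0, 1, 0, 1, 0, 0, 1, 0, 0, 0, 0, 1, 0, 1],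
    [0, 1, 0, 0, 0, 0, 0, 0, 1, 0, 1, 1, 0, 0, 0, 0, 0, 1, 1, 0, 0],
    [1, 0, 0, 1, 0, 0, 0, 0, 0, 1, 0, 0, 0, 0, 0, 1, 1, 0, 0, 0, 1],
    [1, 0, 0, 1, 0, 1, 1, 0, 0, 0, 0, 0, 0, 0, 0, 1, 0, 0, 0, 1, 0],
    [0, 0, 1, 0, 1, 0, 0, 1, 0, 0, 1, 1, 1, 0, 0, 0, 0, 0, 0, 0, 0],
    [0, 0, 0, 0, 0, 1, 1, 0, 0, 1, 0, 0, 1, 0, 1, 0, 0, 0, 0, 1, 0],
    [0, 0, 0, 1, 0, 0, 1, 0, 0, 1, 0, 0, 1, 0, 0, 0, 1, 1, 0, 0, 0],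
    [0, 0, 1, 0, 0, 0, 0, 0, 0, 1, 1, 1, 0, 0, 0, 0, 0, 0, 1, 0, 1],
    [1, 1, 0, 0, 0, 1, 0, 0, 0, 0, 0, 0, 0, 0, 1, 1, 0, 1, 0, 0, 0],
    [1, 0, 0, 1, 1, 0, 0, 0, 0, 0, 1, 0, 0, 1, 0, 1, 0, 0, 0, 0, 0],
    [1, 0, 0, 0, 0, 0, 0, 1, 1, 0, 0, 0, 0, 1, 1, 0, 0, 0, 0, 0, 1],
    [0, 1, 0, 0, 1, 0, 0, 1, 0, 0, 0, 1, 0, 0, 0, 0, 0, 0, 1, 1, 0],
    [0, 0, 0, 0, 1, 0, 1, 0, 0, 0, 0, 1, 0, 1, 0, 0, 0, 0, 1, 0, 1],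
    [0, 0, 0, 0, 0, 1, 1, 0, 0, 0, 0, 0, 1, 0, 0, 0, 1, 1, 0, 1, 0],
    [0, 1, 1, 0, 0, 0, 0, 0, 1, 0, 1, 0, 0, 0, 0, 0, 1, 0, 1, 0, 0],
    [0, 0, 1, 0, 0, 1, 0, 1, 0, 0, 0, 0, 1, 0, 0, 1, 0, 1, 0, 0, 0]])
    (L := [
    [0, 0, 0, 0, 0, 0, 0, 0, 0, 0, 0, 0, 0, 0, 0, 0, 0, 0, 0, 0, 0],
    [4, 18, -2, -10, 20, 40, 6, 12, 14, 34, 2, -6, -26, 8, -38, -24, -4, 0, -28, -16, 0],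
    [0, -6, 6, 6, -12, -24, -6, -12, -6, -18, -6, 6, 18, 0, 18, 12, 0, 0, 12, 12, 0],
    [0, -14, 6, 6, -4, -24, -6, -12, -2, -18, -6, 2, 14, -8, 22, 12, 0, 4, 16, 12, 0],
    [2, 30, -10, -2, 34, 92, 0, 24, 22, 56, 4, -6, -46, 16, -64, -54, -2, -6, -44, -38, 0],
    [15, 33, -9, -9, 51, 108, 0, 24, 33, 72, 0, -15, -51, 12, -84, -69, -9, -3, -48, -45, 0],
    [-3, 17, -9, -9, 13, 36, 6, 12, 17, 30, 6, 1, -23, 8, -34, -15, -3, -1, -28, -15, 0],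
    [3, 17, -9, -9, 19, 48, 0, 12, 17, 36, 0, 1, -23, 8, -40, -21, 3, -7, -28, -21, 0],
    [4, 14, -2, 2, 12, 40, 6, 12, 10, 22, 2, -2, -22, 4, -30, -24, -4, -4, -20, -16, 0],
    [9, 33, -9, -9, 33, 84, 6, 24, 21, 54, 6, -3, -39, 12, -66, -51, -3, -9, -48, -39, 0],
    [-3, 13, -9, -9, 17, 36, 6, 12, 13, 30, 6, -7, -19, 4, -26, -15, -3, -5, -20, -15, 0],
    [2, -20, 8, 4, -18, -64, 6, -12, -16, -34, -2, -4, 28, -16, 42, 30, -2, 10, 32, 22, 0],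
    [-4, -34, 14, 10, -40, -88, -6, -24, -30, -58, -2, 10, 42, -12, 70, 48, 4, 8, 48, 40, 0],
    [7, -7, 7, -1, -9, -32, 0, -12, -11, -20, -4, 1, 17, -8, 24, 15, -1, 5, 16, 11, 0],
    [-11, -35, 7, 11, -35, -92, -6, -24, -27, -62, 2, 5, 45, -12, 74, 57, 5, 7, 48, 41, 0],
    [-6, -22, 6, 6, -38, -72, 0, -12, -22, -48, 0, 10, 34, -4, 56, 42, 6, 2, 32, 30, 0],
    [0, -8, 0, 0, -4, -24, 0, 0, -8, -12, 0, -4, 8, -8, 16, 12, 0, 4, 16, 12, 0],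
    [-2, 6, -2, 2, 2, 16, 0, 0, 2, 4, -4, 6, -2, 8, -8, -6, 2, -6, -4, -10, 0],
    [-5, -31, 7, 11, -33, -68, -12, -24, -23, -56, -4, 13, 41, -8, 60, 39, 11, 5, 40, 35, 0],
    [-6, -14, 6, 6, -22, -48, 0, -12, -14, -36, 0, 2, 26, -8, 40, 30, 6, -2, 28, 18, 0],
    [-3, 11, -3, -3, 13, 36, 0, 12, 11, 24, 0, -5, -17, 8, -28, -15, -3, -1, -16, -15, 0]])
    (x := [-1, 1, -1, -1, 3, 2, 2, 2, 1, 2, 2, -3, -3, -2, -2, -1, -1, 1, -2, -1, 2])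
    (d := 12) (q := 0) (by decide +kernel)

theorem g6_23 : Good 6 23 :=
  good_of_exp (A := [
    [0, 1, 0, 0, 0, 0, 0, 0, 1, 0, 1, 0, 0, 0, 1, 0, 0, 0, 0, 0, 1, 0, 1],
    [1, 0, 0, 0, 0, 0, 0, 0, 0, 0, 0, 1, 0, 0, 0, 1, 1, 1, 0, 0, 0, 0, 1],
    [0, 0, 0, 1, 0, 1, 0, 0, 1, 0, 0, 0, 1, 0, 0, 1, 0, 0, 0, 1, 0, 0, 0],
    [0, 0, 1, 0, 0, 0, 1, 0, 0, 0, 0, 0, 1, 1, 0, 0, 0, 0, 0, 0, 1, 1, 0],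
    [0, 0, 0, 0, 0, 0, 0, 1, 0, 0, 1, 0, 0, 0, 0, 0, 1, 1, 1, 1, 0, 0, 0],
    [0, 0, 1, 0, 0, 0, 1, 0, 0, 1, 1, 0, 0, 0, 0, 1, 0, 0, 1, 0, 0, 0, 0],
    [0, 0, 0, 1, 0, 1, 0, 0, 0, 0, 1, 0, 1, 0, 0, 1, 0, 0, 0, 0, 0, 0, 1],
    [0, 0, 0, 0, 1, 0, 0, 0, 0, 0, 1, 0, 0, 0, 0, 1, 1, 0, 0, 0, 1, 1, 0],
    [1, 0, 1, 0, 0, 0, 0, 0, 0, 1, 0, 0, 0, 0, 0, 0, 0, 0, 1, 0, 0, 1, 1],
    [0, 0, 0, 0, 0, 1, 0, 0, 1, 0, 0, 1, 1, 0, 0, 0, 1, 0, 0, 0, 1, 0, 0],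
    [1, 0, 0, 0, 1, 1, 1, 1, 0, 0, 0, 0, 0, 1, 0, 0, 0, 0, 0, 0, 0, 0, 0],
    [0, 1, 0, 0, 0, 0, 0, 0, 0, 1, 0, 0, 0, 1, 0, 1, 0, 1, 0, 1, 0, 0, 0],
    [0, 0, 1, 1, 0, 0, 1, 0, 0, 1, 0, 0, 0, 0, 0, 0, 1, 0, 0, 1, 0, 0, 0],
    [0, 0, 0, 1, 0, 0, 0, 0, 0, 0, 1, 1, 0, 0, 1, 0, 0, 1, 1, 0, 0, 0, 0],
    [1, 0, 0, 0, 0, 0, 0, 0, 0, 0, 0, 0, 0, 1, 0, 0, 0, 1, 1, 0, 0, 1, 1],
    [0, 1, 1, 0, 0, 1, 1, 1, 0, 0, 0, 1, 0, 0, 0, 0, 0, 0, 0, 0, 0, 0, 0],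
    [0, 1, 0, 0, 1, 0, 0, 1, 0, 1, 0, 0, 1, 0, 0, 0, 0, 0, 0, 0, 1, 0, 0],
    [0, 1, 0, 0, 1, 0, 0, 0, 0, 0, 0, 1, 0, 1, 1, 0, 0, 0, 0, 0, 0, 1, 0],
    [0, 0, 0, 0, 1, 1, 0, 0, 1, 0, 0, 0, 0, 1, 1, 0, 0, 0, 0, 0, 0, 1, 0],
    [0, 0, 1, 0, 1, 0, 0, 0, 0, 0, 0, 1, 1, 0, 0, 0, 0, 0, 0, 0, 1, 0, 1],
    [1, 0, 0, 1, 0, 0, 0, 1, 0, 1, 0, 0, 0, 0, 0, 0, 1, 0, 0, 1, 0, 0, 0],
    [0, 0, 0, 1, 0, 0, 0, 1, 1, 0, 0, 0, 0, 0, 1, 0, 0, 1, 1, 0, 0, 0, 0],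
    [1, 1, 0, 0, 0, 0, 1, 0, 1, 0, 0, 0, 0, 0, 1, 0, 0, 0, 0, 1, 0, 0, 0]])
    (L := [
    [92, 296, 103, 201, 273, -133, -156, -145, 464, -13, 284, 35, -159, 69, -516, -193, 45, 21, -25, -180, -252, -157, 0],
    [92, 176, 37, 99, 291, -163, -48, -103, 440, 65, 236, 101, -33, -69, -456, -139, 51, 171, -151, -204, -396, -43, 0],
    [46, 286, -52, 273, 447, -170, -78, -176, 646, 28, 280, 190, -183, -69, -810, -200, -81, 45, 22, -90, -402, -44, 0],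
    [0, 0, 0, 0, 0, 0, 0, 0, 0, 0, 0, 0, 0, 0, 0, 0, 0, 0, 0, 0, 0, 0, 0],
    [0, 120, 66, -36, 120, 30, -108, -42, 24, -78, 48, -66, 12, 0, -60, -54, 132, -12, 126, 24, -132, -114, 0],
    [-46, -178, -68, -57, -63, -286, 174, 152, 314, 164, 260, 206, 111, 69, -210, -28, -159, 27, -226, -54, -186, 176, 0],
    [0, -96, 99, -123, -303, 183, -24, 75, -516, -117, -204, -237, 225, 69, 600, 195, 129, -87, 51, 36, 216, -33, 0],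
    [-46, -106, -56, -51, -129, 146, 54, 44, -334, -76, -208, -82, -75, -69, 306, 188, 3, -63, 98, 126, 342, 80, 0],
    [92, 272, 145, 15, 111, 413, -300, -247, -424, -163, -388, -283, -189, -69, 324, 149, 267, -225, 557, 36, 216, -355, 0],
    [-46, -70, -50, -117, -231, 224, -6, -10, -382, -58, -304, -88, 39, 69, 426, 158, 153, -177, 260, 78, 330, -106, 0],
    [92, 248, 49, 105, 225, 269, -168, -211, -208, -175, -232, -187, -219, 69, 60, 77, 213, -195, 449, -24, 132, -415, 0],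
    [-46, -82, 40, -141, -243, 290, -78, 8, -550, -64, -364, -178, -45, 69, 570, 260, 57, -93, 206, 186, 426, -136, 0],
    [0, 228, 84, 180, 228, -12, -12, -204, 156, -24, 36, -84, -60, 0, -252, -144, 168, 60, 60, -120, -168, -120, 0],
    [0, -36, -144, 66, 102, 60, 60, -84, 48, 120, 96, 144, -114, -138, -120, -108, -150, 114, -24, 48, 12, 48, 0],
    [0, -144, -93, 57, -75, -381, 240, 147, 468, 135, 384, 231, 165, 69, -480, -225, -255, 249, -441, -84, -228, 399, 0],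
    [-46, -94, -8, -27, -117, -58, 126, 164, 110, 68, 128, 146, 9, -69, -114, -52, -177, 129, -262, 18, -30, 248, 0],
    [0, 108, -120, 78, 246, -180, 96, -24, 408, 192, 264, 120, 66, -138, -468, -228, -102, 210, -204, -144, -312, 132, 0],
    [0, 252, 42, 90, 114, -6, -144, -102, -60, -150, -120, -42, -30, 138, 12, 66, 222, -246, 306, -60, -84, -198, 0],
    [-46, -274, -38, -111, -21, -172, 150, 158, 350, 254, 332, 176, 129, -69, -162, -178, -237, 285, -520, -18, -246, 350, 0],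
    [0, -228, 123, -111, -159, -57, 12, 135, -156, -45, -36, 15, 129, 69, 252, 75, -99, 9, -129, 120, 168, 51, 0],
    [0, -348, -81, -75, -279, -225, 120, 315, 96, 171, 192, 219, 117, 69, 36, -9, -231, 21, -393, 96, 24, 303, 0],
    [-46, -34, 94, -45, -195, 164, -66, 74, -430, -178, -400, -232, 15, 69, 546, 266, 165, -153, 284, 30, 318, -154, 0],
    [0, -204, -57, -201, -273, 87, 156, 99, -372, -33, -192, -81, 159, -69, 516, 147, -45, -21, -21, 180, 252, 111, 0]])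
    (x := [2, 2, 3, 1, 1, -1, -2, -1, 2, -1, 2, -1, 1, 1, -2, -1, 1, 1, -1, -2, -2, -1, -2])
    (d := 276) (q := 3) (by decide +kernel)

end Pool.Agent.J6H93.NutE
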