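import Pool.Agent.J6H93.NutE.Blk

/-!
# Odd number of cells, degree divisible by `4`
-/

set_option autoImplicit false
set_option linter.unusedSectionVars false

namespace Pool.Agent.J6H93.NutE

open Finset Pool.Agent.TH296.Nut Pool.Agent.J6H28.Nut

/-- a path, loops at the cells `0` and `m - 3`, a negative chord from `m - 3` to `m - 1` -/
def sO (m : ℕ) (i j : ℕ) : ℤ :=
  (if j = i + 1 then 1 else 0) + (if j + 1 = i then 1 else 0) -
    (if j = i ∧ (i = 0 ∨ i + 3 = m) then 1 else 0) -
    (if j + 1 = m ∧ i + 3 = m then 1 else 0) - (if j + 3 = m ∧ i + 1 = m then 1 else 0)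

theorem row_sO {R : Type} [CommRing R] {m : ℕ} (hm : 7 ≤ m) {i : ℕ} (hi : i < m)
    (g : ℕ → R) :
    ∑ j ∈ range m, (sO m i j : R) * g j =
      (if i + 1 < m then g (i + 1) else 0) + (if 1 ≤ i then g (i - 1) else 0) -
        (if i = 0 ∨ i + 3 = m then g i else 0) - (if i + 3 = m then g (m - 1) else 0) -
        (if i + 1 = m then g (m - 3) else 0) := by
  have h1 : ∀ j, (sO m i j : R) * g j = (if j = i + 1 then g j else 0) +
      (if j + 1 = i then g j else 0) -
      (if j = i then (if i = 0 ∨ i + 3 = m then g i else 0) else 0) -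
      (if j = m - 1 then (if i + 3 = m then g (m - 1) else 0) else 0) -
      (if j = m - 3 then (if i + 1 = m then g (m - 3) else 0) else 0) := by
    intro j
    unfold sO
    push_cast
    rw [sub_mul, sub_mul, sub_mul, add_mul]
    congr 1
    · congr 1
      · congr 1
        · congr 1
          · split_ifs <;> simp
          · split_ifs <;> simp
        · by_cases h : j = i
          · subst h
            simp only [true_and, if_true]
            split_ifs <;> simp
          · simp [h]
      · by_cases h : j + 1 = m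
        · have h' : j = m - 1 := by omega
          subst h'
          simp only [h, true_and, if_true]
          split_ifs <;> simp
        · rw [if_neg (fun hh => h hh.1), if_neg (by omega), zero_mul]
    · by_cases h : j + 3 = m
      · have h' : j = m - 3 := by omega
        subst h'
        simp only [h, true_and, if_true]
        split_ifs <;> simp
      · rw [if_neg (fun hh => h hh.1), if_neg (by omega), zero_mul]
  rw [Finset.sum_congr rfl fun j _ => h1 j, Finset.sum_sub_distrib, Finset.sum_sub_distrib,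
    Finset.sum_sub_distrib, Finset.sum_add_distrib, sum_at, sum_pred m i hi,
    sum_at m i (fun _ => if i = 0 ∨ i + 3 = m then g i else 0),
    sum_at m (m - 1) (fun _ => if i + 3 = m then g (m - 1) else 0),
    sum_at m (m - 3) (fun _ => if i + 1 = m then g (m - 3) else 0),
    if_pos hi, if_pos (show m - 1 < m by omega), if_pos (show m - 3 < m by omega)]

theorem sq_sO {m : ℕ} (hm : 7 ≤ m) (i j : ℕ) :
    sO m i j ^ 2 = (if j = i + 1 then 1 else 0) + (if j + 1 = i then 1 else 0) +
      (if j = i then (if i = 0 ∨ i + 3 = m then 1 else 0) else 0) +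
      (if j = m - 1 then (if i + 3 = m then 1 else 0) else 0) +
      (if j = m - 3 then (if i + 1 = m then 1 else 0) else 0) := by
  unfold sO
  split_ifs <;> first | omega | norm_num

theorem rowsq_sO {m : ℕ} (hm : 7 ≤ m) {i : ℕ} (hi : i < m) :
    ∑ j ∈ range m, sO m i j ^ 2 = 2 + 2 * (if i + 3 = m then 1 else 0) := by
  rw [Finset.sum_congr rfl fun j _ => sq_sO hm i j, Finset.sum_add_distrib,
    Finset.sum_add_distrib, Finset.sum_add_distrib, Finset.sum_add_distrib,
    sum_at (R := ℤ) m (i + 1) (fun _ => 1), sum_pred (R := ℤ) m i hi (fun _ => 1),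
    sum_at (R := ℤ) m i (fun _ => if i = 0 ∨ i + 3 = m then 1 else 0),
    sum_at (R := ℤ) m (m - 1) (fun _ => if i + 3 = m then 1 else 0),
    sum_at (R := ℤ) m (m - 3) (fun _ => if i + 1 = m then 1 else 0),
    if_pos hi, if_pos (show m - 1 < m by omega), if_pos (show m - 3 < m by omega)]
  split_ifs <;> omega

/-- the kernel vector -/
def aO (j : ℕ) : ℤ := if j % 4 < 2 then 1 else -1

/-- the bulk -/
def kO (m k : ℕ) (i j : ℕ) : ℤ :=
  (if blk2 m k i j then 1 else 0) - (if j = m - 1 then (if i + 3 = m then 1 else 0) else 0) -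
    (if j = m - 3 then (if i + 1 = m then 1 else 0) else 0) +
    (if j = m - 1 then (if i = 0 then 1 else 0) else 0) +
    (if j = 0 then (if i + 1 = m then 1 else 0) else 0)

theorem sO_symm (m i j : ℕ) : sO m i j = sO m j i := by
  unfold sO
  have e1 : (if j = i + 1 then (1 : ℤ) else 0) = (if j = i + 1 then (1 : ℤ) else 0) := rfl
  have e2 : (if j + 1 = i then (1 : ℤ) else 0) = (if i = j + 1 then (1 : ℤ) else 0) := by
    split_ifs <;> omega
  have e2' : (if i + 1 = j then (1 : ℤ) else 0) = (if j = i + 1 then (1 : ℤ) else 0) := by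
    split_ifs <;> omega
  have e3 : (if j = i ∧ (i = 0 ∨ i + 3 = m) then (1 : ℤ) else 0) =
      (if i = j ∧ (j = 0 ∨ j + 3 = m) then (1 : ℤ) else 0) := by
    split_ifs <;> omega
  have e4 : (if j + 1 = m ∧ i + 3 = m then (1 : ℤ) else 0) =
      (if i + 3 = m ∧ j + 1 = m then (1 : ℤ) else 0) := by
    split_ifs <;> omega
  have e5 : (if j + 3 = m ∧ i + 1 = m then (1 : ℤ) else 0) =
      (if i + 1 = m ∧ j + 3 = m then (1 : ℤ) else 0) := by
    split_ifs <;> omega
  rw [e2, e2', e3, e4, e5]
  ring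

theorem sO_val (m i j : ℕ) (hm : 7 ≤ m) : sO m i j = 0 ∨ sO m i j = 1 ∨ sO m i j = -1 := by
  unfold sO
  split_ifs <;> omega

theorem sO_diag (m i : ℕ) : sO m i i ≠ 1 := by
  unfold sO
  split_ifs <;> omega

theorem sO_band (m i j : ℕ) (h : sO m i j ≠ 0) :
    (j = i + 1 ∨ j + 1 = i ∨ j = i) ∨ (j + 1 = m ∧ i + 3 = m) ∨ (j + 3 = m ∧ i + 1 = m) := by
  by_contra hcon
  apply h
  unfold sO
  rw [if_neg (by tauto), if_neg (by tauto), if_neg (by tauto), if_neg (by tauto),
    if_neg (by tauto)]
  norm_num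

theorem kO_val (m k i j : ℕ) (hm : 7 ≤ m) (hi : i < m) (hj : j < m)
    (h1 : ((j ≤ i + 1 ∧ i ≤ j + 1) ∨ (j + m ≤ i + 1) ∨ (i + m ≤ j + 1)) → ¬ blk2 m k i j)
    (h2 : (i + 2 = j ∨ j + 2 = i) → blk2 m k i j) : kO m k i j = 0 ∨ kO m k i j = 1 := by
  unfold kO
  by_cases hb : blk2 m k i j
  · rw [if_pos hb]
    have h3 : ¬ ((j ≤ i + 1 ∧ i ≤ j + 1) ∨ (j + m ≤ i + 1) ∨ (i + m ≤ j + 1)) := fun h => h1 h hb
    clear h1 h2 hb
    split_ifs <;> omega
  · rw [if_neg hb]
    have h3 : ¬ (i + 2 = j ∨ j + 2 = i) := fun h => hb (h2 h)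
    clear h1 h2 hb
    split_ifs <;> omega

theorem kO_symm (m k i j : ℕ) (hi : i < m) (hj : j < m) (hm : 7 ≤ m) :
    kO m k i j = kO m k j i := by
  unfold kO
  have e1 : (if blk2 m k i j then (1 : ℤ) else 0) = (if blk2 m k j i then (1 : ℤ) else 0) := by
    by_cases hb : blk2 m k i j
    · rw [if_pos hb, if_pos ((blk2_symm _ _ _ _).1 hb)]
    · rw [if_neg hb, if_neg (fun hb2 => hb ((blk2_symm _ _ _ _).1 hb2))]
  have e2 : (if j = m - 1 then (if i + 3 = m then (1 : ℤ) else 0) else 0) =
      (if i = m - 3 then (if j + 1 = m then (1 : ℤ) else 0) else 0) := by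
    split_ifs <;> omega
  have e3 : (if j = m - 3 then (if i + 1 = m then (1 : ℤ) else 0) else 0) =
      (if i = m - 1 then (if j + 3 = m then (1 : ℤ) else 0) else 0) := by
    split_ifs <;> omega
  have e4 : (if j = m - 1 then (if i = 0 then (1 : ℤ) else 0) else 0) =
      (if i = 0 then (if j + 1 = m then (1 : ℤ) else 0) else 0) := by
    split_ifs <;> omega
  have e5 : (if j = 0 then (if i + 1 = m then (1 : ℤ) else 0) else 0) =
      (if i = m - 1 then (if j = 0 then (1 : ℤ) else 0) else 0) := by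
    split_ifs <;> omega
  rw [e1, e2, e3, e4, e5]
  ring

theorem kO_band (m k i j : ℕ) (hm : 7 ≤ m) (h : j = i + 1 ∨ j + 1 = i ∨ j = i)
    (hb : ¬ blk2 m k i j) : kO m k i j = 0 := by
  unfold kO
  rw [if_neg hb]
  clear hb
  split_ifs <;> omega

theorem kO_chord (m k i j : ℕ) (hm : 7 ≤ m)
    (h : (j + 1 = m ∧ i + 3 = m) ∨ (j + 3 = m ∧ i + 1 = m))
    (hb : blk2 m k i j) : kO m k i j = 0 := by
  unfold kO
  rw [if_pos hb]
  clear hb
  split_ifs <;> omega

theorem pd_O {m k : ℕ} (hm0 : m % 2 = 1) (hm : 7 ≤ m) (hk0 : k % 2 = 1) (hk2 : 3 ≤ k)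
    (hk : k + 4 ≤ m) :
    PD (Fin m) (2 * k + 2) (fun i j => sO m i j) (fun i j => kO m k i j) := by
  have hch : ∀ i j : ℕ, (i + 2 = j ∨ j + 2 = i) → blk2 m k i j := by
    intro i j hij
    apply is_blk2 (by omega)
    omega
  have hn : ∀ i j : ℕ, i < m → j < m →
      ((j ≤ i + 1 ∧ i ≤ j + 1) ∨ (j + m ≤ i + 1) ∨ (i + m ≤ j + 1)) → ¬ blk2 m k i j :=
    fun i j hi hj h => not_blk2 hi hj (by omega) (by omega) (by omega) h
  refine ⟨fun i j => sO_val m i j hm, fun i j => sO_symm m i j, fun i => sO_diag m i,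
    fun i j => kO_val m k i j hm i.2 j.2 (hn i j i.2 j.2) (hch i j),
    fun i j => kO_symm m k i j i.2 j.2 hm, ?_, ?_, ?_⟩
  · intro i
    have hi := i.2
    simp only [kO]
    rw [if_neg (hn i i hi hi (by omega))]
    split_ifs <;> omega
  · intro i j hij
    have hi := i.2
    have hj := j.2
    by_contra hS
    apply hij
    rcases sO_band m i j hS with hc | hc | hc
    · exact kO_band m k i j hm hc (hn i j hi hj (by omega))
    · exact kO_chord m k i j hm (Or.inl hc) (hch i j (by omega))
    · exact kO_chord m k i j hm (Or.inr hc) (hch i j (by omega))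
  · intro i
    have hi := i.2
    rw [Finset.sum_add_distrib, ← Finset.mul_sum,
      Fin.sum_univ_eq_sum_range (fun j => sO m i.val j ^ 2) m, rowsq_sO hm hi,
      Fin.sum_univ_eq_sum_range (fun j => kO m k i.val j) m]
    simp only [kO]
    rw [Finset.sum_add_distrib, Finset.sum_add_distrib, Finset.sum_sub_distrib,
      Finset.sum_sub_distrib, Finset.sum_boole, card_blk2 hi (by omega) (by omega),
      sum_at (R := ℤ) m (m - 1) (fun _ => if i.val + 3 = m then 1 else 0),
      sum_at (R := ℤ) m (m - 3) (fun _ => if i.val + 1 = m then 1 else 0),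
      sum_at (R := ℤ) m (m - 1) (fun _ => if i.val = 0 then 1 else 0),
      sum_at (R := ℤ) m 0 (fun _ => if i.val + 1 = m then 1 else 0),
      if_pos (show m - 1 < m by omega), if_pos (show m - 3 < m by omega),
      if_pos (show m - 1 < m by omega), if_pos (show 0 < m by omega)]
    rcases (show i.val = 0 ∨ i.val + 3 = m ∨ i.val + 1 = m ∨
      (i.val ≠ 0 ∧ i.val + 3 ≠ m ∧ i.val + 1 ≠ m) by omega) with hc | hc | hc | hc
    · rw [if_pos (show m % 2 = 1 ∧ k % 2 = 1 ∧ i.val = 0 from ⟨hm0, hk0, hc⟩),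
        if_neg (show ¬ i.val + 3 = m by omega), if_neg (show ¬ i.val + 1 = m by omega), if_pos hc]
      push_cast [Nat.cast_sub (show 1 ≤ k by omega)]
      ring
    · rw [if_neg (show ¬ (m % 2 = 1 ∧ k % 2 = 1 ∧ i.val = 0) by omega),
        if_pos hc, if_neg (show ¬ i.val + 1 = m by omega), if_neg (show ¬ i.val = 0 by omega)]
      push_cast
      ring
    · rw [if_neg (show ¬ (m % 2 = 1 ∧ k % 2 = 1 ∧ i.val = 0) by omega),
        if_neg (show ¬ i.val + 3 = m by omega), if_pos hc, if_neg (show ¬ i.val = 0 by omega)]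
      push_cast
      ring
    · rw [if_neg (show ¬ (m % 2 = 1 ∧ k % 2 = 1 ∧ i.val = 0) by omega),
        if_neg (show ¬ i.val + 3 = m by omega), if_neg (show ¬ i.val + 1 = m by omega),
        if_neg (show ¬ i.val = 0 by omega)]
      push_cast
      ring

theorem ker_O {m : ℕ} (hm0 : m % 2 = 1) (hm : 7 ≤ m) (i : Fin m) :
    ∑ j : Fin m, sO m i j * aO j = 0 := by
  rw [Fin.sum_univ_eq_sum_range (fun j => sO m i.val j * aO j) m]
  have := row_sO (R := ℤ) hm i.2 aO
  simp only [Int.cast_id] at this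
  rw [this]
  have hi := i.2
  unfold aO
  split_ifs <;> omega

theorem hz_O {m : ℕ} (hm : 7 ≤ m) (v : Fin m → ZMod 2)
    (hv : ∀ i : Fin m, ∑ j : Fin m, (sO m i j : ZMod 2) * v j = 0) : v = 0 ∨ v = 1 := by
  have e2 : (2 : ZMod 2) = 0 := by decide
  set g := zext v with hg
  have hrow : ∀ i, i < m → ∑ j ∈ range m, (sO m i j : ZMod 2) * g j = 0 := by
    intro i hi
    have := hv ⟨i, hi⟩
    rw [sum_zext (fun j => (sO m i j : ZMod 2)) v] at this
    exact this
  have hrow2 : ∀ i, i < m → (if i + 1 < m then g (i + 1) else 0) + (if 1 ≤ i then g (i - 1) else 0) -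
        (if i = 0 ∨ i + 3 = m then g i else 0) - (if i + 3 = m then g (m - 1) else 0) -
        (if i + 1 = m then g (m - 3) else 0) = 0 := by
    intro i hi
    rw [← row_sO (R := ZMod 2) hm hi g]
    exact hrow i hi
  -- up to m - 3
  have hall : ∀ i, (i + 3 ≤ m → g i = g 0) ∧ (i + 4 ≤ m → g (i + 1) = g 0) := by
    intro i
    induction i with
    | zero =>
      refine ⟨fun _ => rfl, fun _ => ?_⟩
      have := hrow2 0 (by omega)
      rw [if_pos (by omega), if_neg (by omega), if_pos (by omega), if_neg (by omega),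
        if_neg (by omega), add_zero, sub_zero, sub_zero] at this
      exact sub_eq_zero.1 this
    | succ i ih =>
      refine ⟨fun hi => ih.2 (by omega), fun hi => ?_⟩
      have := hrow2 (i + 1) (by omega)
      rw [if_pos (by omega), if_pos (by omega), if_neg (by omega), if_neg (by omega),
        if_neg (by omega), sub_zero, sub_zero, sub_zero] at this
      have h1 := ih.1 (by omega)
      have e : i + 1 - 1 = i := by omega
      rw [e, h1] at this
      linear_combination this - e2 * g 0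
  have h3 : g (m - 3) = g 0 := (hall (m - 3)).1 (by omega)
  have hm1 : g (m - 1) = g 0 := by
    have := hrow2 (m - 2) (by omega)
    rw [if_pos (by omega), if_pos (by omega), if_neg (by omega), if_neg (by omega),
      if_neg (by omega), sub_zero, sub_zero, sub_zero] at this
    have e : m - 2 + 1 = m - 1 := by omega
    have e' : m - 2 - 1 = m - 3 := by omega
    rw [e, e', h3] at this
    linear_combination this - e2 * g 0
  have hm2 : g (m - 2) = g 0 := by
    have := hrow2 (m - 1) (by omega)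
    rw [if_neg (by omega), if_pos (by omega), if_neg (by omega), if_neg (by omega),
      if_pos (by omega), sub_zero, sub_zero, zero_add] at this
    have e : m - 1 - 1 = m - 2 := by omega
    rw [e, h3] at this
    exact sub_eq_zero.1 this
  have hall2 : ∀ i, i < m → g i = g 0 := by
    intro i hi
    rcases (show i + 3 ≤ m ∨ i = m - 2 ∨ i = m - 1 by omega) with h | h | h
    · exact (hall i).1 h
    · rw [h, hm2]
    · rw [h, hm1]
  have h01 : ∀ x : ZMod 2, x = 0 ∨ x = 1 := by decide
  rcases h01 (g 0) with h | h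
  · left
    funext i
    rw [← zext_val v i, ← hg, hall2 i.val i.2, h]
    rfl
  · right
    funext i
    rw [← zext_val v i, ← hg, hall2 i.val i.2, h]
    rfl

/-- degree divisible by `4`, order `2` modulo `4` -/
theorem mem_II {ρ n : ℕ} (hρ : ρ % 4 = 0) (h8 : 8 ≤ ρ) (hn : n % 4 = 2)
    (h : ρ + 6 ≤ n) : n ∈ nutOrders ρ := by
  obtain ⟨m, rfl⟩ : ∃ m, n = 2 * m := ⟨n / 2, by omega⟩
  obtain ⟨k, rfl⟩ : ∃ k, ρ = 2 * k + 2 := ⟨(ρ - 2) / 2, by omega⟩
  obtain ⟨J, r, hr, hJr⟩ : ∃ J r : ℕ, r % 2 = 1 ∧ 2 * k + 2 = 2 ^ J * r := by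
    obtain ⟨J, r, hr, hJr⟩ := Nat.exists_eq_two_pow_mul_odd (n := 2 * k + 2) (by omega)
    exact ⟨J, r, Nat.odd_iff.1 hr, hJr⟩
  have hJ : 1 ≤ J := by
    by_contra hcon
    have : J = 0 := by omega
    rw [this, pow_zero, one_mul] at hJr
    omega
  have hcard : Fintype.card (Fin m) = m := Fintype.card_fin m
  have := PD.mem_ones (pd_O (m := m) (k := k) (by omega) (by omega) (by omega) (by omega)
    (by omega)) J r hJ hr hJr
    (hz_O (by omega)) (fun i => aO i) (fun i => by unfold aO; split_ifs <;> norm_num)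
    (ker_O (by omega) (by omega))
    (Or.inl (by rw [hcard]; omega)) (by rw [hcard]; omega)
  rwa [hcard] at this

end Pool.Agent.J6H93.NutE
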