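import Pool.Agent.J6H93.NutE.TorMem

/-! # Base cores -/

set_option autoImplicit false

namespace Pool.Agent.J6H93.NutE

open Pool.Agent.TH296.Nut

theorem b13 : HasCT 13 :=
  ChkT.has (S := [
    [-1, -1, 0, -1, 0, 0, 0, 0, 0, 0, 0, 0, 1],
    [-1, 0, -1, 0, 0, 0, 0, 0, 0, 0, 0, 0, 0],
    [0, -1, 0, 1, 0, 0, 0, 0, 0, 0, 0, 0, 0],
    [-1, 0, 1, -1, 0, -1, 0, 0, 0, 0, 0, 0, 0],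
    [0, 0, 0, 0, -1, -1, 1, 0, 0, -1, 0, 0, 0],
    [0, 0, 0, -1, -1, 0, -1, 0, 0, 0, 1, 0, 0],
    [0, 0, 0, 0, 1, -1, 0, -1, 0, 0, 0, 1, 0],
    [0, 0, 0, 0, 0, 0, -1, 0, 0, -1, 0, 0, 0],
    [0, 0, 0, 0, 0, 0, 0, 0, -1, 1, 0, 0, 0],
    [0, 0, 0, 0, -1, 0, 0, -1, 1, 0, 1, 0, 0],
    [0, 0, 0, 0, 0, 1, 0, 0, 0, 1, -1, 1, 0],
    [0, 0, 0, 0, 0, 0, 1, 0, 0, 0, 1, -1, 1],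
    [1, 0, 0, 0, 0, 0, 0, 0, 0, 0, 0, 1, 0]])
    (R := [
    [0, 0, 0, 1, 0, 0, 0, 0, 0, 0, 0, 0, 0],
    [0, 0, 0, 0, 0, 0, 0, 0, 0, 0, 0, 0, 0],
    [0, 0, 0, 0, 0, 0, 0, 0, 0, 0, 0, 0, 0],
    [1, 0, 0, 0, 0, 0, 0, 0, 0, 0, 0, 0, 0],
    [0, 0, 0, 0, 0, 0, 0, 0, 0, 1, 0, 0, 0],
    [0, 0, 0, 0, 0, 0, 0, 0, 0, 0, 1, 0, 0],
    [0, 0, 0, 0, 0, 0, 0, 0, 0, 0, 0, 1, 0],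
    [0, 0, 0, 0, 0, 0, 0, 0, 0, 0, 0, 0, 0],
    [0, 0, 0, 0, 0, 0, 0, 0, 0, 0, 0, 0, 0],
    [0, 0, 0, 0, 1, 0, 0, 0, 0, 0, 0, 0, 0],
    [0, 0, 0, 0, 0, 1, 0, 0, 0, 0, 0, 0, 0],
    [0, 0, 0, 0, 0, 0, 1, 0, 0, 0, 0, 0, 0],
    [0, 0, 0, 0, 0, 0, 0, 0, 0, 0, 0, 0, 0]])
    (L := [
    [1, 0, 1, 0, 0, 0, 0, 0, 0, 0, 0, 0, 0],
    [0, 1, 1, 1, 0, 0, 1, 1, 1, 1, 0, 1, 0],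
    [1, 1, 1, 0, 0, 0, 0, 0, 0, 0, 0, 0, 0],
    [0, 1, 0, 1, 0, 0, 1, 1, 1, 1, 0, 1, 0],
    [0, 0, 0, 0, 1, 0, 1, 0, 1, 1, 0, 1, 0],
    [0, 0, 0, 0, 0, 0, 1, 1, 1, 1, 0, 1, 0],
    [0, 1, 0, 1, 1, 1, 0, 1, 0, 0, 0, 0, 0],
    [0, 1, 0, 1, 0, 1, 1, 0, 0, 0, 0, 1, 0],
    [0, 1, 0, 1, 1, 1, 0, 0, 1, 0, 0, 0, 0],
    [0, 1, 0, 1, 1, 1, 0, 0, 0, 0, 0, 0, 0],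
    [0, 0, 0, 0, 0, 0, 0, 0, 0, 0, 0, 0, 0],
    [0, 1, 0, 1, 1, 1, 0, 1, 0, 0, 0, 1, 0],
    [0, 0, 0, 0, 0, 0, 0, 0, 0, 0, 0, 0, 0]])
    (a := [1, 1, -1, 1, -1, -3, -2, 1, 2, 2, -2, -1, 3])
    (al := [0, 0, 0, 0, 0, 0, 1, 0, 1, 1, 1, 0, 0])
    (be := [1, 1, 1, 1, 1, 1, 0, 1, 0, 0, 0, 1, 1])
    (e := 12) (f := 0) (q1 := 10) (q2 := 12) (by decide +kernel)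

theorem b15 : HasCT 15 :=
  ChkT.has (S := [
    [-1, 0, 0, 0, 0, 0, 0, 0, 0, 0, 0, 0, 0, 0, 1],
    [0, -1, 0, -1, 0, 0, 0, 0, 0, 0, 0, 0, 0, 0, 0],
    [0, 0, -1, 0, 1, 0, 0, 0, 0, 0, 0, 0, 0, 0, 0],
    [0, -1, 0, -1, 1, -1, 0, 0, 0, 0, 0, 0, 0, 0, 0],
    [0, 0, 1, 1, 0, 0, 1, 0, 1, 0, 0, 0, 0, 0, 0],
    [0, 0, 0, -1, 0, 0, 1, 1, 0, 0, -1, 0, 0, 0, 0],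
    [0, 0, 0, 0, 1, 1, 0, 1, 0, -1, 0, 0, 0, 0, 0],
    [0, 0, 0, 0, 0, 1, 1, 0, 1, -1, 0, 0, 0, 0, 0],
    [0, 0, 0, 0, 1, 0, 0, 1, -1, 0, 1, 0, 0, 0, 0],
    [0, 0, 0, 0, 0, 0, -1, -1, 0, -1, 0, 1, 0, 0, 0],
    [0, 0, 0, 0, 0, -1, 0, 0, 1, 0, 0, -1, 1, 0, 0],
    [0, 0, 0, 0, 0, 0, 0, 0, 0, 1, -1, -1, 0, 0, 1],
    [0, 0, 0, 0, 0, 0, 0, 0, 0, 0, 1, 0, 0, 0, 1],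
    [0, 0, 0, 0, 0, 0, 0, 0, 0, 0, 0, 0, 0, -1, -1],
    [1, 0, 0, 0, 0, 0, 0, 0, 0, 0, 0, 1, 1, -1, 0]])
    (R := [
    [0, 0, 0, 0, 0, 0, 0, 0, 0, 0, 0, 0, 0, 0, 0],
    [0, 0, 0, 0, 0, 0, 0, 0, 0, 0, 0, 0, 0, 0, 0],
    [0, 0, 0, 0, 0, 0, 0, 0, 0, 0, 0, 0, 0, 0, 0],
    [0, 0, 0, 0, 0, 0, 0, 1, 0, 0, 0, 0, 0, 0, 0],
    [0, 0, 0, 0, 0, 0, 0, 0, 1, 0, 0, 0, 0, 0, 0],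
    [0, 0, 0, 0, 0, 0, 0, 0, 0, 0, 1, 0, 0, 0, 0],
    [0, 0, 0, 0, 0, 0, 0, 0, 0, 1, 0, 0, 0, 0, 0],
    [0, 0, 0, 1, 0, 0, 0, 0, 0, 0, 0, 0, 0, 0, 0],
    [0, 0, 0, 0, 1, 0, 0, 0, 0, 0, 0, 0, 0, 0, 0],
    [0, 0, 0, 0, 0, 0, 1, 0, 0, 0, 0, 0, 0, 0, 0],
    [0, 0, 0, 0, 0, 1, 0, 0, 0, 0, 0, 0, 0, 0, 0],
    [0, 0, 0, 0, 0, 0, 0, 0, 0, 0, 0, 0, 0, 0, 1],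
    [0, 0, 0, 0, 0, 0, 0, 0, 0, 0, 0, 0, 0, 0, 0],
    [0, 0, 0, 0, 0, 0, 0, 0, 0, 0, 0, 0, 0, 0, 0],
    [0, 0, 0, 0, 0, 0, 0, 0, 0, 0, 0, 1, 0, 0, 0]])
    (L := [
    [1, 0, 0, 0, 0, 0, 0, 0, 0, 0, 0, 0, 0, 0, 0],
    [0, 1, 0, 0, 0, 1, 0, 0, 0, 1, 0, 1, 0, 0, 0],
    [0, 0, 1, 0, 0, 0, 1, 1, 0, 1, 0, 1, 1, 0, 0],
    [0, 0, 0, 0, 0, 1, 0, 0, 0, 1, 0, 1, 0, 0, 0],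
    [0, 0, 0, 0, 0, 0, 1, 1, 0, 1, 0, 1, 1, 0, 0],
    [0, 1, 0, 1, 0, 0, 1, 1, 0, 1, 0, 1, 1, 0, 0],
    [0, 0, 1, 0, 1, 1, 1, 1, 0, 0, 0, 0, 1, 0, 0],
    [0, 0, 1, 0, 1, 1, 1, 1, 0, 1, 0, 1, 0, 0, 0],
    [0, 0, 0, 0, 0, 0, 0, 0, 0, 0, 0, 0, 0, 0, 0],
    [0, 1, 1, 1, 1, 1, 0, 1, 0, 1, 0, 1, 0, 0, 0],
    [0, 0, 0, 0, 0, 0, 0, 0, 0, 0, 0, 0, 1, 0, 0],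
    [0, 1, 1, 1, 1, 1, 0, 1, 0, 1, 0, 0, 1, 0, 0],
    [0, 0, 1, 0, 1, 1, 1, 0, 0, 0, 1, 1, 0, 0, 0],
    [0, 0, 0, 0, 0, 0, 0, 0, 0, 0, 0, 0, 0, 1, 0],
    [0, 0, 0, 0, 0, 0, 0, 0, 0, 0, 0, 0, 0, 0, 0]])
    (a := [1, -3, -2, 3, -2, -2, 1, 1, -2, -3, -1, -1, -1, -1, 1])
    (al := [0, 0, 1, 0, 1, 1, 0, 0, 1, 0, 0, 0, 0, 0, 0])
    (be := [1, 1, 0, 1, 0, 0, 1, 1, 0, 1, 1, 1, 1, 1, 1])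
    (e := 14) (f := 0) (q1 := 8) (q2 := 14) (by decide +kernel)

/-- degree `2` modulo `4`, order `2` modulo `4`, at least `26` -/
theorem mem_III {ρ n : ℕ} (hρ : ρ % 4 = 2) (h14 : 14 ≤ ρ) (hn : n % 4 = 2) (h26 : 26 ≤ n)
    (h : ρ + 8 ≤ n) : n ∈ nutOrders ρ := by
  obtain ⟨d, rfl⟩ : ∃ d, ρ = 4 * d + 2 := ⟨ρ / 4, by omega⟩
  by_cases h8 : n % 8 = 2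
  · obtain ⟨j, rfl⟩ : ∃ j, n = 2 * (13 + 4 * j) := ⟨(n - 26) / 8, by omega⟩
    exact (b13.steps j).mem (by omega) (by omega) (by omega)
  · obtain ⟨j, rfl⟩ : ∃ j, n = 2 * (15 + 4 * j) := ⟨(n - 30) / 8, by omega⟩
    exact (b15.steps j).mem (by omega) (by omega) (by omega)

end Pool.Agent.J6H93.NutE
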