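import Pool.Agent.J6H93.NutE.PathE
import Pool.Agent.J6H93.NutE.PathO
import Pool.Agent.J6H93.NutE.TorBase
import Pool.Agent.J6H93.NutE.CubBase

/-! # Even degree and even order -/

set_option autoImplicit false

namespace Pool.Agent.J6H93.NutE

open Pool.Agent.TH296.Nut Pool.Agent.J6H28.Nut

/-- regular nut graphs of even degree `ρ ≥ 12` on `n` vertices exist for all even `n ≥ ρ + 4`,
with the only possible exception `ρ = 14`, `n = 18` -/
theorem even_mem {ρ n : ℕ} (hρ : ρ % 2 = 0) (h12 : 12 ≤ ρ) (hn : n % 2 = 0) (h : ρ + 4 ≤ n)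
    (hex : ¬ (ρ = 14 ∧ n = 18)) : n ∈ nutOrders ρ := by
  rcases (show n % 4 = 0 ∨ n % 4 = 2 by omega) with h4 | h4
  · exact mem_I hρ (by omega) h4 (by omega) h
  · rcases (show ρ % 4 = 0 ∨ ρ % 4 = 2 by omega) with h5 | h5
    · exact mem_II h5 (by omega) h4 (by omega)
    · rcases (show n = ρ + 4 ∨ ρ + 8 ≤ n by omega) with h6 | h6
      · rw [h6]
        exact mem_IV h5 (by omega)
      · by_cases h7 : ρ = 14 ∧ n = 22
        · rw [h7.1, h7.2]
          exact x22_14
        · exact mem_III h5 (by omega) h4 (by omega) h6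

end Pool.Agent.J6H93.NutE
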