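import Pool.Agent.J6H28.Nut.Expl

/-! # Explicit graphs as seeds for Fowler's construction -/

set_option autoImplicit false

namespace Pool.Agent.J6H93.NutE

open Finset Pool.Agent.TH296.Nut Pool.Agent.J6H28.Nut

theorem good_of_exp {n ρ : ℕ} {A L : List (List ℤ)} {x : List ℤ} {d : ℤ} {q : Fin n}
    (h : Exp n ρ A L x d q) : Good ρ n := by
  obtain ⟨c0, cd, c1, c2, c3, c4, c5, c6, c7, c8⟩ := h
  have hx : ∀ i : Fin n, ((x.getD i 0 : ℤ) : ℝ) ≠ 0 := fun i => by exact_mod_cast c5 i
  have hd : (d : ℝ) ≠ 0 := by exact_mod_cast cd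
  have key : NW (Fin n) ρ (fun i j => (ent A i j : ℝ)) (fun i => ((x.getD i 0 : ℤ) : ℝ)) := by
    refine ⟨?_, ?_, ?_, ?_, hx, ?_, ?_⟩
    · intro i j
      rcases c1 i j with e | e
      · left; rw [e]; simp
      · right; rw [e]; simp
    · intro i j
      rw [c2 i j]
    · intro i
      rw [c3 i]
      simp
    · intro i
      exact_mod_cast c4 i
    · intro i
      exact_mod_cast c6 i
    · intro y hy
      refine ⟨y q / ((x.getD q 0 : ℤ) : ℝ), ?_⟩
      intro j
      by_cases hjq : j = q
      · subst hjq
        rw [div_mul_cancel₀ _ (hx j)]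
      · have h1 : ∑ i : Fin n, (ent L j i : ℝ) * ∑ k : Fin n, (ent A i k : ℝ) * y k = 0 := by
          refine Finset.sum_eq_zero fun i _ => ?_
          rw [hy i, mul_zero]
        have h2 : ∑ i : Fin n, (ent L j i : ℝ) * ∑ k : Fin n, (ent A i k : ℝ) * y k =
            ∑ k : Fin n, ((∑ i : Fin n, ent L j i * ent A i k : ℤ) : ℝ) * y k := by
          simp only [Finset.mul_sum]
          rw [Finset.sum_comm]
          refine Finset.sum_congr rfl fun k _ => ?_
          push_cast
          rw [Finset.sum_mul]
          refine Finset.sum_congr rfl fun i _ => ?_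
          ring
        have h3 : ∑ k : Fin n, ((∑ i : Fin n, ent L j i * ent A i k : ℤ) : ℝ) * y k =
            ∑ k : Fin n, ((if k = j then (d : ℝ) * y j else 0) +
              (if k = q then ((∑ i : Fin n, ent L j i * ent A i q : ℤ) : ℝ) * y q else 0)) := by
          refine Finset.sum_congr rfl fun k _ => ?_
          by_cases hkq : k = q
          · subst hkq
            rw [if_neg (fun hh => hjq hh.symm), if_pos rfl, zero_add]
          · rw [c7 j k hkq, if_neg hkq]
            by_cases hkj : k = j
            · subst hkj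
              simp
            · rw [if_neg hkj, if_neg (fun hh => hkj hh.symm)]
              simp
        rw [h2, h3, Finset.sum_add_distrib, Finset.sum_ite_eq', Finset.sum_ite_eq',
          if_pos (Finset.mem_univ _), if_pos (Finset.mem_univ _)] at h1
        have h4 : ((∑ i : Fin n, ent L j i * ent A i q : ℤ) : ℝ) * ((x.getD q 0 : ℤ) : ℝ) =
            - ((d : ℝ) * ((x.getD j 0 : ℤ) : ℝ)) := by exact_mod_cast c8 j hjq
        generalize ((∑ i : Fin n, ent L j i * ent A i q : ℤ) : ℝ) = g at h1 h4
        have h5 := hx q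
        generalize ((x.getD q 0 : ℤ) : ℝ) = xq at h4 h5 ⊢
        generalize ((x.getD j 0 : ℤ) : ℝ) = xj at h4 ⊢
        have h6 : d * (y j * xq) = d * (y q * xj) := by
          linear_combination xq * h1 - y q * h4
        have h7 := mul_left_cancel₀ hd h6
        field_simp
        linarith
  exact ⟨Fin n, inferInstance, _, _, key, Fintype.card_fin n⟩

end Pool.Agent.J6H93.NutE
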