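import Pool.Agent.J6H93.NutE.Crit

/-!
# Criterion B: the kernel modulo `2` is spanned by the all-ones vector
-/

set_option autoImplicit false
set_option linter.unusedSectionVars false

namespace Pool.Agent.J6H93.NutE

open Finset Pool.Agent.TH296.Nut Pool.Agent.J6H28.Nut

variable {V : Type} [Fintype V] [DecidableEq V]

/-- Criterion B. Here `ρ = 2 ^ J r` with `r` odd and `w` solves `S w = 1` modulo `2`. -/
theorem PD.mem_ones {ρ : ℕ} {S K : V → V → ℤ} (h : PD V ρ S K) (J r : ℕ) (hJ : 1 ≤ J)
    (hr : r % 2 = 1) (hρ : ρ = 2 ^ J * r)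
    (hz : ∀ v : V → ZMod 2, (∀ i, ∑ j, (S i j : ZMod 2) * v j = 0) → v = 0 ∨ v = 1)
    (a : V → ℤ) (ha : ∀ i, a i ≠ 0) (hSa : ∀ i, ∑ j, S i j * a j = 0)
    (hcond : (Fintype.card V % 2 = 1) ∨ ∃ w : V → ZMod 2,
      (∀ i, ∑ j, (S i j : ZMod 2) * w j = 1) ∧
      ∀ s : ℤ, (Fintype.card V : ℤ) = 2 ^ J * s → (s : ZMod 2) ≠ ∑ i, w i)
    (hc0 : 1 ≤ Fintype.card V) :
    2 * Fintype.card V ∈ nutOrders ρ := by
  have e2 : (2 : ZMod 2) = 0 := by decide
  have hρ0 : 0 < ρ := by
    rw [hρ]
    have : 0 < r := by omega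
    positivity
  obtain ⟨q⟩ : Nonempty V := Fintype.card_pos_iff.1 hc0
  have hline := ker_line S (1 : V → ZMod 2) q (by simp) hz a (ha q) hSa
  have hB : ∀ s : V → ℝ, (∀ i, ∑ j, ((S i j : ℝ) ^ 2 + 2 * K i j) * s j = 0) → ∀ i, s i = 0 := by
    intro s hs
    by_contra hcon
    push Not at hcon
    obtain ⟨i0, hi0⟩ := hcon
    obtain ⟨y0, hy0, hyz0⟩ := odd_vec S (fun i j => S i j ^ 2 + 2 * K i j) (even_sq S h.val K) 1 hz s
      (by intro i; rw [← hs i]; push_cast; rfl) i0 hi0
    -- induction
    have key : ∀ j, 1 ≤ j → j ≤ J → ∃ v : V → ℤ,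
        ∀ i, ∑ l, (S i l ^ 2 + 2 * K i l) * (1 + 2 ^ j * v l) = 0 := by
      intro j hj1
      induction j, hj1 using Nat.le_induction with
      | base =>
        intro _
        obtain ⟨t, ht⟩ := lift2 y0 (fun _ => 1) (by intro i; rw [hyz0 i]; simp)
        refine ⟨t, fun i => ?_⟩
        rw [← hy0 i]
        refine Finset.sum_congr rfl fun l _ => ?_
        rw [ht l]
        ring
      | succ j hj1 ih =>
        intro hjJ
        obtain ⟨v, hv⟩ := ih (by omega)
        -- B v = - (ρ / 2 ^ j)
        have hBv : ∀ i, (2 : ℤ) ^ j *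
            (∑ l, (S i l ^ 2 + 2 * K i l) * v l + 2 ^ (J - j) * (r : ℤ)) = 0 := by
          intro i
          have h1 := hv i
          have h2 : ∑ l, (S i l ^ 2 + 2 * K i l) * (1 + 2 ^ j * v l) =
              ∑ l, (S i l ^ 2 + 2 * K i l) + 2 ^ j * ∑ l, (S i l ^ 2 + 2 * K i l) * v l := by
            rw [Finset.mul_sum, ← Finset.sum_add_distrib]
            refine Finset.sum_congr rfl fun l _ => ?_
            ring
          rw [h2, h.deg i, hρ] at h1
          have h3 : (2 : ℤ) ^ J = 2 ^ j * 2 ^ (J - j) := by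
            rw [← pow_add]
            congr 1
            omega
          push_cast at h1
          rw [h3] at h1
          linarith
        have hBv2 : ∀ i, ∑ l, (S i l ^ 2 + 2 * K i l) * v l = - ((2 : ℤ) ^ (J - j) * (r : ℤ)) := by
          intro i
          have h1 := hBv i
          have h2 : (2 : ℤ) ^ j ≠ 0 := by positivity
          have h3 := (mul_eq_zero.1 h1).resolve_left h2
          linarith
        have hSv : ∀ i, ∑ l, (S i l : ZMod 2) * (v l : ZMod 2) = 0 := by
          intro i
          have h1 : ((∑ l, (S i l ^ 2 + 2 * K i l) * v l : ℤ) : ZMod 2) = 0 := by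
            rw [hBv2 i]
            obtain ⟨c, hc⟩ : ∃ c, J - j = c + 1 := ⟨J - j - 1, by omega⟩
            rw [hc]
            push_cast
            rw [pow_succ, e2]
            ring
          rw [← h1]
          push_cast
          refine Finset.sum_congr rfl fun l _ => ?_
          have := even_sq S h.val K i l
          push_cast at this
          rw [this]
        rcases hz (fun l => (v l : ZMod 2)) hSv with h4 | h4
        · obtain ⟨t, ht⟩ := lift2 v (fun _ => 0) (by intro i; rw [congrFun h4 i]; simp)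
          refine ⟨t, fun i => ?_⟩
          rw [← hv i]
          refine Finset.sum_congr rfl fun l _ => ?_
          rw [ht l, pow_succ]
          ring
        · obtain ⟨t, ht⟩ := lift2 v (fun _ => 1) (by intro i; rw [congrFun h4 i]; simp)
          -- multiply by 1 + 2 ^ j
          obtain ⟨c, hc⟩ : ∃ c, j = c + 1 := ⟨j - 1, by omega⟩
          refine ⟨fun l => 1 + t l + 2 ^ c * (1 + 2 * t l), fun i => ?_⟩
          have h5 : ∑ l, (S i l ^ 2 + 2 * K i l) *
              (1 + 2 ^ (j + 1) * (1 + t l + 2 ^ c * (1 + 2 * t l))) =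
              (1 + 2 ^ j) * ∑ l, (S i l ^ 2 + 2 * K i l) * (1 + 2 ^ j * v l) := by
            rw [Finset.mul_sum]
            refine Finset.sum_congr rfl fun l _ => ?_
            rw [ht l, hc]
            ring
          rw [h5, hv i, mul_zero]
    obtain ⟨v, hv⟩ := key J hJ le_rfl
    have hsum := PD.sum_zero h hρ0 (fun l => 1 + 2 ^ J * v l) hv
    rw [Finset.sum_add_distrib, ← Finset.mul_sum] at hsum
    simp only [Finset.sum_const, Finset.card_univ, nsmul_eq_mul, mul_one] at hsum
    rcases hcond with hodd | ⟨w, hw, hs⟩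
    · obtain ⟨c, hc⟩ : ∃ c, J = c + 1 := ⟨J - 1, by omega⟩
      rw [hc, pow_succ] at hsum
      have : (Fintype.card V : ℤ) = 2 * (-(2 ^ c * ∑ i, v i)) := by linarith
      omega
    · have hBv : ∀ i, ∑ l, (S i l ^ 2 + 2 * K i l) * v l = - (r : ℤ) := by
        intro i
        have h1 := hv i
        have h2 : ∑ l, (S i l ^ 2 + 2 * K i l) * (1 + 2 ^ J * v l) =
            ∑ l, (S i l ^ 2 + 2 * K i l) + 2 ^ J * ∑ l, (S i l ^ 2 + 2 * K i l) * v l := by
          rw [Finset.mul_sum, ← Finset.sum_add_distrib]
          refine Finset.sum_congr rfl fun l _ => ?_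
          ring
        rw [h2, h.deg i, hρ] at h1
        push_cast at h1
        have h3 : (2 : ℤ) ^ J * (∑ l, (S i l ^ 2 + 2 * K i l) * v l + r) = 0 := by linarith
        have h4 : (2 : ℤ) ^ J ≠ 0 := by positivity
        have h5 := (mul_eq_zero.1 h3).resolve_left h4
        linarith
      have hr1 : ((r : ℕ) : ZMod 2) = 1 := by
        have := ZMod.natCast_mod r 2
        rw [hr] at this
        rw [← this]
        simp
      have hSv : ∀ i, ∑ l, (S i l : ZMod 2) * (v l : ZMod 2) = 1 := by
        intro i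
        have h1 : ((∑ l, (S i l ^ 2 + 2 * K i l) * v l : ℤ) : ZMod 2) = 1 := by
          rw [hBv i]
          push_cast
          rw [hr1, ZMod.neg_eq_self_mod_two]
        rw [← h1]
        push_cast
        refine Finset.sum_congr rfl fun l _ => ?_
        have := even_sq S h.val K i l
        push_cast at this
        rw [this]
      have hdiff : ∀ i, ∑ l, (S i l : ZMod 2) * ((v l : ZMod 2) - w l) = 0 := by
        intro i
        have h1 := hSv i
        have h2 := hw i
        simp only [mul_sub]
        rw [Finset.sum_sub_distrib, h1, h2, sub_self]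
      have hcm : (Fintype.card V : ZMod 2) = 0 := by
        obtain ⟨c, hc⟩ : ∃ c, J = c + 1 := ⟨J - 1, by omega⟩
        have h6 : (((Fintype.card V : ℤ) + 2 ^ J * ∑ i, v i : ℤ) : ZMod 2) = 0 := by
          rw [hsum]; simp
        rw [hc] at h6
        push_cast at h6
        rw [pow_succ, e2, mul_zero, zero_mul, add_zero] at h6
        exact h6
      have hvw : ∑ i, (v i : ZMod 2) = ∑ i, w i := by
        rcases hz (fun l => (v l : ZMod 2) - w l) hdiff with h4 | h4
        · refine Finset.sum_congr rfl fun i _ => ?_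
          have := congrFun h4 i
          simp only [Pi.zero_apply] at this
          exact sub_eq_zero.1 this
        · have h5 : ∀ i, (v i : ZMod 2) = w i + 1 := by
            intro i
            have := congrFun h4 i
            simp only [Pi.one_apply] at this
            linear_combination this
          rw [Finset.sum_congr rfl fun i _ => h5 i, Finset.sum_add_distrib]
          simp only [Finset.sum_const, Finset.card_univ, nsmul_eq_mul, mul_one, hcm, add_zero]
      refine hs (-∑ i, v i) (by linarith) ?_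
      push_cast
      rw [ZMod.neg_eq_self_mod_two, hvw]
  have haR : ∀ i, (a i : ℝ) ≠ 0 := fun i => by exact_mod_cast ha i
  have hSaR : ∀ i, ∑ j, (S i j : ℝ) * (a j : ℝ) = 0 := by
    intro i
    exact_mod_cast hSa i
  have hc : 2 ≤ Fintype.card (V × Bool) := by
    rw [card_db]
    omega
  have := (h.nw (fun i => (a i : ℝ)) haR hSaR hline hB).mem hc
  rwa [card_db] at this

end Pool.Agent.J6H93.NutE
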