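import Pool.Agent.J6H93.NutE.Blk

/-!
# Even number of cells, even degree
-/

set_option autoImplicit false
set_option linter.unusedSectionVars false

namespace Pool.Agent.J6H93.NutE

open Finset Pool.Agent.TH296.Nut Pool.Agent.J6H28.Nut

/-- indicator of the cells `1` and `3` -/
def c13 (i : ℕ) : ℤ := if i = 1 ∨ i = 3 then 1 else 0

/-- a path with loops at both ends; for `t = 1` with an additional chord and two loops -/
def sE (m : ℕ) (t : ℤ) (i j : ℕ) : ℤ :=
  (if j = i + 1 then 1 else 0) + (if j + 1 = i then 1 else 0) -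
    (if j = i ∧ (i = 0 ∨ i + 1 = m) then 1 else 0) - t * (c13 i * c13 j)

theorem row_sE {R : Type} [CommRing R] {m : ℕ} (hm : 4 ≤ m) (t : ℤ) {i : ℕ} (hi : i < m)
    (g : ℕ → R) :
    ∑ j ∈ range m, (sE m t i j : R) * g j =
      (if i + 1 < m then g (i + 1) else 0) + (if 1 ≤ i then g (i - 1) else 0) -
        (if i = 0 ∨ i + 1 = m then g i else 0) - (t : R) * (c13 i : R) * (g 1 + g 3) := by
  have h1 : ∀ j, (sE m t i j : R) * g j = (if j = i + 1 then g j else 0) +
      (if j + 1 = i then g j else 0) -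
      (if j = i then (if i = 0 ∨ i + 1 = m then g i else 0) else 0) -
      (t : R) * (c13 i : R) * ((if j = 1 then g j else 0) + (if j = 3 then g j else 0)) := by
    intro j
    unfold sE
    push_cast
    rw [sub_mul, sub_mul, add_mul]
    congr 1
    · congr 1
      · congr 1
        · split_ifs <;> simp
        · split_ifs <;> simp
      · by_cases h : j = i
        · subst h
          simp only [true_and, if_true]
          split_ifs <;> simp
        · simp [h]
    · have : (c13 j : R) * g j = (if j = 1 then g j else 0) + (if j = 3 then g j else 0) := by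
        unfold c13
        by_cases h : j = 1
        · subst h; simp
        · by_cases h' : j = 3
          · subst h'; simp
          · simp [h, h']
      rw [← this]
      ring
  rw [Finset.sum_congr rfl fun j _ => h1 j, Finset.sum_sub_distrib, Finset.sum_sub_distrib,
    Finset.sum_add_distrib, ← Finset.mul_sum, Finset.sum_add_distrib, sum_at, sum_pred m i hi,
    sum_at m 1, sum_at m 3, sum_at m i (fun _ => if i = 0 ∨ i + 1 = m then g i else 0),
    if_pos (show 1 < m by omega), if_pos (show 3 < m by omega), if_pos hi]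

theorem sq_sE {m : ℕ} (hm : 6 ≤ m) (t : ℤ) (ht : t = 0 ∨ t = 1) (i j : ℕ) :
    sE m t i j ^ 2 = (if j = i + 1 then 1 else 0) + (if j + 1 = i then 1 else 0) +
      (if j = i then (if i = 0 ∨ i + 1 = m then 1 else 0) else 0) + t * (c13 i * c13 j) := by
  unfold sE c13
  rcases ht with rfl | rfl
  · split_ifs <;> first | omega | norm_num
  · split_ifs <;> first | omega | norm_num

theorem rowsq_sE {m : ℕ} (hm : 6 ≤ m) (t : ℤ) (ht : t = 0 ∨ t = 1) {i : ℕ} (hi : i < m) :
    ∑ j ∈ range m, sE m t i j ^ 2 = 2 + 2 * (t * c13 i) := by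
  rw [Finset.sum_congr rfl fun j _ => sq_sE hm t ht i j, Finset.sum_add_distrib,
    Finset.sum_add_distrib, Finset.sum_add_distrib]
  have h1 := sum_at (R := ℤ) m (i + 1) (fun _ => 1)
  have h2 := sum_pred (R := ℤ) m i hi (fun _ => 1)
  have h3 := sum_at (R := ℤ) m i (fun _ => if i = 0 ∨ i + 1 = m then 1 else 0)
  have h4 : ∑ j ∈ range m, t * (c13 i * c13 j) = t * c13 i * 2 := by
    rw [← Finset.mul_sum, ← Finset.mul_sum]
    have : ∑ j ∈ range m, c13 j = 2 := by
      have e : ∀ j, c13 j = (if j = 1 then 1 else 0) + (if j = 3 then 1 else 0) := by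
        intro j
        unfold c13
        split_ifs <;> omega
      rw [Finset.sum_congr rfl fun j _ => e j, Finset.sum_add_distrib,
        sum_at m 1 (fun _ => (1 : ℤ)), sum_at m 3 (fun _ => (1 : ℤ)), if_pos (by omega),
        if_pos (by omega)]
      norm_num
    rw [this]
    ring
  rw [h1, h2, h3, h4, if_pos hi]
  have : ((if i + 1 < m then (1 : ℤ) else 0) + (if 1 ≤ i then 1 else 0)) +
      (if i = 0 ∨ i + 1 = m then 1 else 0) = 2 := by
    split_ifs <;> omega
  linarith

/-- the kernel vector -/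
def aE (j : ℕ) : ℤ := if j % 4 < 2 then 1 else -1

/-- the bulk -/
def kE (m k : ℕ) (t : ℤ) (i j : ℕ) : ℤ :=
  (if blk2 m k i j then 1 else 0) - t * (if (i = 1 ∧ j = 3) ∨ (i = 3 ∧ j = 1) then 1 else 0)

theorem pd_E {m k : ℕ} (hm0 : m % 2 = 0) (hm : 6 ≤ m) (hk : k + 3 ≤ m) (t : ℤ)
    (ht : t = 0 ∨ (t = 1 ∧ 2 ≤ k)) :
    PD (Fin m) (2 * k + 2) (fun i j => sE m t i j) (fun i j => kE m k t i j) := by
  have ht' : t = 0 ∨ t = 1 := by tauto
  have hch : t = 1 → ∀ i j : ℕ, ((i = 1 ∧ j = 3) ∨ (i = 3 ∧ j = 1)) → blk2 m k i j := by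
    intro h1 i j hij
    apply is_blk2
    · rcases ht with h | h
      · rw [h] at h1; exact absurd h1 (by norm_num)
      · exact h.2
    · omega
  refine ⟨?_, ?_, ?_, ?_, ?_, ?_, ?_, ?_⟩
  · intro i j
    simp only [sE, c13]
    rcases ht' with rfl | rfl
    · split_ifs <;> first | omega | norm_num
    · split_ifs <;> first | omega | norm_num
  · intro i j
    simp only [sE]
    have e1 : (if j.val = i.val + 1 then (1 : ℤ) else 0) + (if j.val + 1 = i.val then 1 else 0) =
        (if i.val = j.val + 1 then (1 : ℤ) else 0) + (if i.val + 1 = j.val then 1 else 0) := by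
      split_ifs <;> omega
    have e2 : (if j.val = i.val ∧ (i.val = 0 ∨ i.val + 1 = m) then (1 : ℤ) else 0) =
        (if i.val = j.val ∧ (j.val = 0 ∨ j.val + 1 = m) then (1 : ℤ) else 0) := by
      split_ifs <;> omega
    rw [e1, e2, mul_comm (c13 i)]
  · intro i
    simp only [sE, c13]
    rcases ht' with rfl | rfl
    · split_ifs <;> first | omega | norm_num
    · split_ifs <;> first | omega | norm_num
  · intro i j
    simp only [kE]
    rcases ht' with rfl | rfl
    · split_ifs <;> simp
    · by_cases hc : (i.val = 1 ∧ j.val = 3) ∨ (i.val = 3 ∧ j.val = 1)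
      · rw [if_pos hc, if_pos (hch rfl _ _ hc)]
        left; norm_num
      · rw [if_neg hc]
        split_ifs <;> simp
  · intro i j
    simp only [kE]
    have e1 : (if blk2 m k i j then (1 : ℤ) else 0) = (if blk2 m k j i then (1 : ℤ) else 0) := by
      by_cases hb : blk2 m k i j
      · rw [if_pos hb, if_pos ((blk2_symm _ _ _ _).1 hb)]
      · rw [if_neg hb, if_neg (fun hb2 => hb ((blk2_symm _ _ _ _).1 hb2))]
    rw [e1]
    congr 2
    split_ifs <;> omega
  · intro i
    simp only [kE]
    rw [if_neg (not_blk2 i.2 i.2 hk (by omega) (by omega) (by omega)), if_neg (by omega)]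
    ring
  · intro i j hij
    by_contra hS
    apply hij
    simp only [kE]
    by_cases hc : (i.val = 1 ∧ j.val = 3) ∨ (i.val = 3 ∧ j.val = 1)
    · rcases ht' with rfl | rfl
      · exfalso
        apply hS
        simp only [sE, c13]
        rcases hc with ⟨h1, h2⟩ | ⟨h1, h2⟩ <;> rw [h1, h2] <;> norm_num
      · rw [if_pos hc, if_pos (hch rfl _ _ hc)]
        norm_num
    · rw [if_neg hc, mul_zero, sub_zero, if_neg]
      apply not_blk2 i.2 j.2 hk (by omega) (by omega)
      left
      by_contra hd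
      apply hS
      simp only [sE, c13]
      rcases ht' with rfl | rfl
      · split_ifs <;> first | omega | norm_num
      · split_ifs <;> first | omega | norm_num
  · intro i
    rw [Finset.sum_add_distrib, ← Finset.mul_sum,
      Fin.sum_univ_eq_sum_range (fun j => sE m t i.val j ^ 2) m, rowsq_sE hm t ht' i.2,
      Fin.sum_univ_eq_sum_range (fun j => kE m k t i.val j) m]
    simp only [kE]
    rw [Finset.sum_sub_distrib, Finset.sum_boole, card_blk2 i.2 hk (by omega),
      if_neg (by omega), ← Finset.mul_sum]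
    have e1 : ∑ j ∈ range m, (if (i.val = 1 ∧ j = 3) ∨ (i.val = 3 ∧ j = 1) then (1 : ℤ) else 0) =
        c13 i.val := by
      have e2 : ∀ j, (if (i.val = 1 ∧ j = 3) ∨ (i.val = 3 ∧ j = 1) then (1 : ℤ) else 0) =
          (if j = 3 then (if i.val = 1 then 1 else 0) else 0) +
          (if j = 1 then (if i.val = 3 then 1 else 0) else 0) := by
        intro j
        split_ifs <;> omega
      rw [Finset.sum_congr rfl fun j _ => e2 j, Finset.sum_add_distrib,
        sum_at m 3 (fun _ => if i.val = 1 then (1 : ℤ) else 0),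
        sum_at m 1 (fun _ => if i.val = 3 then (1 : ℤ) else 0), if_pos (show 3 < m by omega),
        if_pos (show 1 < m by omega)]
      unfold c13
      split_ifs <;> omega
    rw [e1]
    push_cast
    ring

theorem ker_E {m : ℕ} (hm0 : m % 2 = 0) (hm : 6 ≤ m) (t : ℤ) (i : Fin m) :
    ∑ j : Fin m, sE m t i j * aE j = 0 := by
  rw [Fin.sum_univ_eq_sum_range (fun j => sE m t i.val j * aE j) m]
  have := row_sE (R := ℤ) (by omega) t i.2 aE
  simp only [Int.cast_id] at this
  rw [this]
  have h13 : aE 1 + aE 3 = 0 := by decide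
  rw [h13, mul_zero, sub_zero]
  have hi := i.2
  unfold aE
  split_ifs <;> omega

theorem hz_E {m : ℕ} (hm : 6 ≤ m) (t : ℤ) (v : Fin m → ZMod 2)
    (hv : ∀ i : Fin m, ∑ j : Fin m, (sE m t i j : ZMod 2) * v j = 0) : v = 0 ∨ v = 1 := by
  have e2 : (2 : ZMod 2) = 0 := by decide
  set g := zext v with hg
  have hrow : ∀ i, i < m → ∑ j ∈ range m, (sE m t i j : ZMod 2) * g j = 0 := by
    intro i hi
    have := hv ⟨i, hi⟩
    rw [sum_zext (fun j => (sE m t i j : ZMod 2)) v] at this
    exact this
  have hrow2 : ∀ i, i < m → (if i + 1 < m then g (i + 1) else 0) + (if 1 ≤ i then g (i - 1) else 0) -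
        (if i = 0 ∨ i + 1 = m then g i else 0) - (t : ZMod 2) * (c13 i : ZMod 2) * (g 1 + g 3) = 0 := by
    intro i hi
    rw [← row_sE (R := ZMod 2) (by omega) t hi g]
    exact hrow i hi
  have h13 : g 1 + g 3 = 0 := by
    have := hrow2 2 (by omega)
    rw [if_pos (by omega), if_pos (by omega), if_neg (by omega)] at this
    have e : (c13 2 : ZMod 2) = 0 := by
      have : c13 2 = 0 := by decide
      rw [this]; simp
    rw [e, mul_zero, zero_mul, sub_zero, sub_zero] at this
    rw [add_comm]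
    exact this
  have hall : ∀ i, (i < m → g i = g 0) ∧ (i + 1 < m → g (i + 1) = g 0) := by
    intro i
    induction i with
    | zero =>
      refine ⟨fun _ => rfl, fun _ => ?_⟩
      have := hrow2 0 (by omega)
      rw [h13, mul_zero, sub_zero, if_pos (by omega), if_neg (by omega), if_pos (by omega),
        add_zero] at this
      exact sub_eq_zero.1 this
    | succ i ih =>
      refine ⟨ih.2, fun hi => ?_⟩
      have := hrow2 (i + 1) (by omega)
      rw [h13, mul_zero, sub_zero, if_pos hi, if_pos (by omega), if_neg (by omega), sub_zero] at this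
      have h1 := ih.1 (by omega)
      have e : i + 1 - 1 = i := by omega
      rw [e, h1] at this
      linear_combination this - e2 * g 0
  have h01 : ∀ x : ZMod 2, x = 0 ∨ x = 1 := by decide
  rcases h01 (g 0) with h | h
  · left
    funext i
    rw [← zext_val v i, ← hg, (hall i.val).1 i.2, h]
    rfl
  · right
    funext i
    rw [← zext_val v i, ← hg, (hall i.val).1 i.2, h]
    rfl

/-- the solution of `S w = 1` modulo `2` -/
def wE (t : ℤ) (j : ℕ) : ZMod 2 := (if j % 4 = 1 ∨ j % 4 = 2 then 1 else 0) -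
  (if j = 2 then (t : ZMod 2) else 0)

theorem w_E {m : ℕ} (hm0 : m % 2 = 0) (hm : 6 ≤ m) (t : ℤ) (ht : t = 0 ∨ t = 1) (i : Fin m) :
    ∑ j : Fin m, (sE m t i j : ZMod 2) * wE t j = 1 := by
  rw [Fin.sum_univ_eq_sum_range (fun j => (sE m t i.val j : ZMod 2) * wE t j) m,
    row_sE (R := ZMod 2) (by omega) t i.2 (wE t)]
  have e2 : (2 : ZMod 2) = 0 := by decide
  have h13 : wE t 1 + wE t 3 = 1 := by
    simp [wE]
  rw [h13, mul_one]
  have hi := i.2
  unfold wE c13
  rcases ht with rfl | rfl
  · simp only [Int.cast_zero, ite_self, sub_zero, zero_mul]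
    split_ifs <;> first | omega | decide
  · simp only [Int.cast_one, one_mul]
    split_ifs <;> first | omega | decide

theorem sum_wE (m : ℕ) (hm0 : m % 2 = 0) (hm : 6 ≤ m) (t : ℤ) :
    ∑ j : Fin m, wE t j = ((m / 2 : ℕ) : ZMod 2) - (t : ZMod 2) := by
  rw [Fin.sum_univ_eq_sum_range (fun j => wE t j) m]
  unfold wE
  rw [Finset.sum_sub_distrib, sum_at m 2 (fun _ => (t : ZMod 2)), if_pos (by omega)]
  congr 1
  obtain ⟨c, rfl⟩ : ∃ c, m = 2 * c := ⟨m / 2, by omega⟩
  have e : 2 * c / 2 = c := by omega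
  rw [e]
  clear hm hm0 e
  induction c with
  | zero => simp
  | succ c ih =>
    rw [show 2 * (c + 1) = 2 * c + 1 + 1 by ring, Finset.sum_range_succ, Finset.sum_range_succ, ih,
      add_assoc]
    push_cast
    congr 1
    split_ifs <;> first | omega | decide

/-- even degree, order divisible by `4` -/
theorem mem_I {ρ n : ℕ} (hρ : ρ % 2 = 0) (h6 : 6 ≤ ρ) (hn : n % 4 = 0) (h12 : 12 ≤ n)
    (h : ρ + 4 ≤ n) : n ∈ nutOrders ρ := by
  obtain ⟨m, rfl⟩ : ∃ m, n = 2 * m := ⟨n / 2, by omega⟩
  obtain ⟨k, rfl⟩ : ∃ k, ρ = 2 * k + 2 := ⟨(ρ - 2) / 2, by omega⟩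
  -- 2-adic decomposition
  obtain ⟨J, r, hr, hJr⟩ : ∃ J r : ℕ, r % 2 = 1 ∧ 2 * k + 2 = 2 ^ J * r := by
    obtain ⟨J, r, hr, hJr⟩ := Nat.exists_eq_two_pow_mul_odd (n := 2 * k + 2) (by omega)
    exact ⟨J, r, Nat.odd_iff.1 hr, hJr⟩
  have hJ : 1 ≤ J := by
    by_contra hcon
    have : J = 0 := by omega
    rw [this, pow_zero, one_mul] at hJr
    omega
  have hcard : Fintype.card (Fin m) = m := Fintype.card_fin m
  have main : ∀ t : ℤ, (t = 0 ∨ (t = 1 ∧ 2 ≤ k)) →
      (∀ s : ℤ, (m : ℤ) = 2 ^ J * s → (s : ZMod 2) ≠ ((m / 2 : ℕ) : ZMod 2) - (t : ZMod 2)) →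
      2 * m ∈ nutOrders (2 * k + 2) := by
    intro t ht hs
    have ht' : t = 0 ∨ t = 1 := by tauto
    have := PD.mem_ones (pd_E (m := m) (k := k) (by omega) (by omega) (by omega) t ht) J r hJ hr hJr
      (hz_E (by omega) t) (fun i => aE i) (fun i => by unfold aE; split_ifs <;> norm_num)
      (ker_E (by omega) (by omega) t)
      (Or.inr ⟨fun j => wE t j, w_E (by omega) (by omega) t ht', by
        intro s hs'
        rw [hcard] at hs'
        rw [sum_wE m (by omega) (by omega) t]
        exact hs s hs'⟩) (by rw [hcard]; omega)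
    rwa [hcard] at this
  by_cases hc : ∀ s : ℤ, (m : ℤ) = 2 ^ J * s → (s : ZMod 2) ≠ ((m / 2 : ℕ) : ZMod 2)
  · refine main 0 (Or.inl rfl) ?_
    simpa using hc
  · push Not at hc
    obtain ⟨s0, h0, h1⟩ := hc
    refine main 1 (Or.inr ⟨rfl, by omega⟩) ?_
    intro s hs
    have h2 : s = s0 := by
      have h3 : (2 : ℤ) ^ J ≠ 0 := by positivity
      have h4 : (2 : ℤ) ^ J * s = 2 ^ J * s0 := by rw [← hs, ← h0]
      exact mul_left_cancel₀ h3 h4
    rw [h2, h1]
    intro h5
    have h6 : (1 : ZMod 2) = 0 := by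
      push_cast at h5
      linear_combination h5
    exact one_ne_zero h6

end Pool.Agent.J6H93.NutE
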