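import Pool.Agent.J6H93.NutE.Deg5
import Pool.Agent.J6H93.NutE.Deg6
import Pool.Agent.J6H93.NutE.Deg7
import Pool.Agent.J6H93.NutE.Deg8
import Pool.Agent.J6H93.NutE.Deg9
import Pool.Agent.J6H93.NutE.Deg10
import Pool.Agent.J6H93.NutE.PathE
import Pool.Agent.J6H93.NutE.PathO
import Pool.Agent.J6H77.Nut.ThreeAll

/-! # The degrees from 5 to 10 -/

set_option autoImplicit false

namespace Pool.Agent.J6H93.NutE

open Pool.Agent.TH296.Nut Pool.Agent.J6H28.Nut Pool.Agent.J6H77.Nut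

theorem mem5 {n : ℕ} (h : 10 ≤ n) (he : n % 2 = 0) : n ∈ nutOrders 5 := by
  rcases (show n % 10 = 0 ∨ n % 10 = 2 ∨ n % 10 = 4 ∨ n % 10 = 6 ∨ n % 10 = 8 by omega) with
    h | h | h | h | h
  · obtain ⟨j, rfl⟩ : ∃ j, n = 10 + 2 * 5 * j := ⟨(n - 10) / 10, by omega⟩
    exact (g5_10.steps (by norm_num) (by norm_num) j).mem (by omega)
  · obtain ⟨j, rfl⟩ : ∃ j, n = 12 + 2 * 5 * j := ⟨(n - 12) / 10, by omega⟩
    exact (g5_12.steps (by norm_num) (by norm_num) j).mem (by omega)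
  · obtain ⟨j, rfl⟩ : ∃ j, n = 14 + 2 * 5 * j := ⟨(n - 14) / 10, by omega⟩
    exact (g5_14.steps (by norm_num) (by norm_num) j).mem (by omega)
  · obtain ⟨j, rfl⟩ : ∃ j, n = 16 + 2 * 5 * j := ⟨(n - 16) / 10, by omega⟩
    exact (g5_16.steps (by norm_num) (by norm_num) j).mem (by omega)
  · obtain ⟨j, rfl⟩ : ∃ j, n = 18 + 2 * 5 * j := ⟨(n - 18) / 10, by omega⟩
    exact (g5_18.steps (by norm_num) (by norm_num) j).mem (by omega)

theorem mem7 {n : ℕ} (h : 12 ≤ n) (he : n % 2 = 0) : n ∈ nutOrders 7 := by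
  rcases (show n % 14 = 12 ∨ n % 14 = 0 ∨ n % 14 = 2 ∨ n % 14 = 4 ∨ n % 14 = 6 ∨ n % 14 = 8 ∨ n % 14 = 10 by omega) with
    h | h | h | h | h | h | h
  · obtain ⟨j, rfl⟩ : ∃ j, n = 12 + 2 * 7 * j := ⟨(n - 12) / 14, by omega⟩
    exact (g7_12.steps (by norm_num) (by norm_num) j).mem (by omega)
  · obtain ⟨j, rfl⟩ : ∃ j, n = 14 + 2 * 7 * j := ⟨(n - 14) / 14, by omega⟩
    exact (g7_14.steps (by norm_num) (by norm_num) j).mem (by omega)
  · obtain ⟨j, rfl⟩ : ∃ j, n = 16 + 2 * 7 * j := ⟨(n - 16) / 14, by omega⟩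
    exact (g7_16.steps (by norm_num) (by norm_num) j).mem (by omega)
  · obtain ⟨j, rfl⟩ : ∃ j, n = 18 + 2 * 7 * j := ⟨(n - 18) / 14, by omega⟩
    exact (g7_18.steps (by norm_num) (by norm_num) j).mem (by omega)
  · obtain ⟨j, rfl⟩ : ∃ j, n = 20 + 2 * 7 * j := ⟨(n - 20) / 14, by omega⟩
    exact (g7_20.steps (by norm_num) (by norm_num) j).mem (by omega)
  · obtain ⟨j, rfl⟩ : ∃ j, n = 22 + 2 * 7 * j := ⟨(n - 22) / 14, by omega⟩
    exact (g7_22.steps (by norm_num) (by norm_num) j).mem (by omega)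
  · obtain ⟨j, rfl⟩ : ∃ j, n = 24 + 2 * 7 * j := ⟨(n - 24) / 14, by omega⟩
    exact (g7_24.steps (by norm_num) (by norm_num) j).mem (by omega)

theorem mem9 {n : ℕ} (h : 16 ≤ n) (he : n % 2 = 0) : n ∈ nutOrders 9 := by
  rcases (show n % 18 = 16 ∨ n % 18 = 0 ∨ n % 18 = 2 ∨ n % 18 = 4 ∨ n % 18 = 6 ∨ n % 18 = 8 ∨ n % 18 = 10 ∨ n % 18 = 12 ∨ n % 18 = 14 by omega) with
    h | h | h | h | h | h | h | h | h
  · obtain ⟨j, rfl⟩ : ∃ j, n = 16 + 2 * 9 * j := ⟨(n - 16) / 18, by omega⟩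
    exact (g9_16.steps (by norm_num) (by norm_num) j).mem (by omega)
  · obtain ⟨j, rfl⟩ : ∃ j, n = 18 + 2 * 9 * j := ⟨(n - 18) / 18, by omega⟩
    exact (g9_18.steps (by norm_num) (by norm_num) j).mem (by omega)
  · obtain ⟨j, rfl⟩ : ∃ j, n = 20 + 2 * 9 * j := ⟨(n - 20) / 18, by omega⟩
    exact (g9_20.steps (by norm_num) (by norm_num) j).mem (by omega)
  · obtain ⟨j, rfl⟩ : ∃ j, n = 22 + 2 * 9 * j := ⟨(n - 22) / 18, by omega⟩
    exact (g9_22.steps (by norm_num) (by norm_num) j).mem (by omega)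
  · obtain ⟨j, rfl⟩ : ∃ j, n = 24 + 2 * 9 * j := ⟨(n - 24) / 18, by omega⟩
    exact (g9_24.steps (by norm_num) (by norm_num) j).mem (by omega)
  · obtain ⟨j, rfl⟩ : ∃ j, n = 26 + 2 * 9 * j := ⟨(n - 26) / 18, by omega⟩
    exact (g9_26.steps (by norm_num) (by norm_num) j).mem (by omega)
  · obtain ⟨j, rfl⟩ : ∃ j, n = 28 + 2 * 9 * j := ⟨(n - 28) / 18, by omega⟩
    exact (g9_28.steps (by norm_num) (by norm_num) j).mem (by omega)
  · obtain ⟨j, rfl⟩ : ∃ j, n = 30 + 2 * 9 * j := ⟨(n - 30) / 18, by omega⟩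
    exact (g9_30.steps (by norm_num) (by norm_num) j).mem (by omega)
  · obtain ⟨j, rfl⟩ : ∃ j, n = 32 + 2 * 9 * j := ⟨(n - 32) / 18, by omega⟩
    exact (g9_32.steps (by norm_num) (by norm_num) j).mem (by omega)

theorem mem6 {n : ℕ} (h : 12 ≤ n) : n ∈ nutOrders 6 := by
  rcases (show n % 4 = 0 ∨ n % 4 = 2 ∨ n % 2 = 1 by omega) with h4 | h4 | h2
  · exact mem_I (by norm_num) (by norm_num) h4 (by omega) (by omega)
  · by_cases h14 : n = 14
    · rw [h14]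
      exact g6_14.mem (by norm_num)
    · exact three (by norm_num) (by norm_num) h4 (by omega) (by omega)
  · skip
    rcases (show n % 12 = 1 ∨ n % 12 = 3 ∨ n % 12 = 5 ∨ n % 12 = 7 ∨ n % 12 = 9 ∨ n % 12 = 11 by omega) with
      h | h | h | h | h | h
    · obtain ⟨j, rfl⟩ : ∃ j, n = 13 + 2 * 6 * j := ⟨(n - 13) / 12, by omega⟩
      exact (g6_13.steps (by norm_num) (by norm_num) j).mem (by omega)
    · obtain ⟨j, rfl⟩ : ∃ j, n = 15 + 2 * 6 * j := ⟨(n - 15) / 12, by omega⟩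
      exact (g6_15.steps (by norm_num) (by norm_num) j).mem (by omega)
    · obtain ⟨j, rfl⟩ : ∃ j, n = 17 + 2 * 6 * j := ⟨(n - 17) / 12, by omega⟩
      exact (g6_17.steps (by norm_num) (by norm_num) j).mem (by omega)
    · obtain ⟨j, rfl⟩ : ∃ j, n = 19 + 2 * 6 * j := ⟨(n - 19) / 12, by omega⟩
      exact (g6_19.steps (by norm_num) (by norm_num) j).mem (by omega)
    · obtain ⟨j, rfl⟩ : ∃ j, n = 21 + 2 * 6 * j := ⟨(n - 21) / 12, by omega⟩
      exact (g6_21.steps (by norm_num) (by norm_num) j).mem (by omega)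
    · obtain ⟨j, rfl⟩ : ∃ j, n = 23 + 2 * 6 * j := ⟨(n - 23) / 12, by omega⟩
      exact (g6_23.steps (by norm_num) (by norm_num) j).mem (by omega)

theorem mem8 {n : ℕ} (h : 12 ≤ n) (h13 : n ≠ 13) : n ∈ nutOrders 8 := by
  rcases (show n % 4 = 0 ∨ n % 4 = 2 ∨ n % 2 = 1 by omega) with h4 | h4 | h2
  · exact mem_I (by norm_num) (by norm_num) h4 (by omega) (by omega)
  · exact mem_II (by norm_num) (by norm_num) h4 (by omega)
  · skip
    rcases (show n % 16 = 15 ∨ n % 16 = 1 ∨ n % 16 = 3 ∨ n % 16 = 5 ∨ n % 16 = 7 ∨ n % 16 = 9 ∨ n % 16 = 11 ∨ n % 16 = 13 by omega) with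
      h | h | h | h | h | h | h | h
    · obtain ⟨j, rfl⟩ : ∃ j, n = 15 + 2 * 8 * j := ⟨(n - 15) / 16, by omega⟩
      exact (g8_15.steps (by norm_num) (by norm_num) j).mem (by omega)
    · obtain ⟨j, rfl⟩ : ∃ j, n = 17 + 2 * 8 * j := ⟨(n - 17) / 16, by omega⟩
      exact (g8_17.steps (by norm_num) (by norm_num) j).mem (by omega)
    · obtain ⟨j, rfl⟩ : ∃ j, n = 19 + 2 * 8 * j := ⟨(n - 19) / 16, by omega⟩
      exact (g8_19.steps (by norm_num) (by norm_num) j).mem (by omega)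
    · obtain ⟨j, rfl⟩ : ∃ j, n = 21 + 2 * 8 * j := ⟨(n - 21) / 16, by omega⟩
      exact (g8_21.steps (by norm_num) (by norm_num) j).mem (by omega)
    · obtain ⟨j, rfl⟩ : ∃ j, n = 23 + 2 * 8 * j := ⟨(n - 23) / 16, by omega⟩
      exact (g8_23.steps (by norm_num) (by norm_num) j).mem (by omega)
    · obtain ⟨j, rfl⟩ : ∃ j, n = 25 + 2 * 8 * j := ⟨(n - 25) / 16, by omega⟩
      exact (g8_25.steps (by norm_num) (by norm_num) j).mem (by omega)
    · obtain ⟨j, rfl⟩ : ∃ j, n = 27 + 2 * 8 * j := ⟨(n - 27) / 16, by omega⟩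
      exact (g8_27.steps (by norm_num) (by norm_num) j).mem (by omega)
    · obtain ⟨j, rfl⟩ : ∃ j, n = 29 + 2 * 8 * j := ⟨(n - 29) / 16, by omega⟩
      exact (g8_29.steps (by norm_num) (by norm_num) j).mem (by omega)

theorem mem10 {n : ℕ} (h : 15 ≤ n) : n ∈ nutOrders 10 := by
  rcases (show n % 4 = 0 ∨ n % 4 = 2 ∨ n % 2 = 1 by omega) with h4 | h4 | h2
  · exact mem_I (by norm_num) (by norm_num) h4 (by omega) (by omega)
  · exact three (by norm_num) (by norm_num) h4 (by omega) (by omega)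
  · skip
    rcases (show n % 20 = 15 ∨ n % 20 = 17 ∨ n % 20 = 19 ∨ n % 20 = 1 ∨ n % 20 = 3 ∨ n % 20 = 5 ∨ n % 20 = 7 ∨ n % 20 = 9 ∨ n % 20 = 11 ∨ n % 20 = 13 by omega) with
      h | h | h | h | h | h | h | h | h | h
    · obtain ⟨j, rfl⟩ : ∃ j, n = 15 + 2 * 10 * j := ⟨(n - 15) / 20, by omega⟩
      exact (g10_15.steps (by norm_num) (by norm_num) j).mem (by omega)
    · obtain ⟨j, rfl⟩ : ∃ j, n = 17 + 2 * 10 * j := ⟨(n - 17) / 20, by omega⟩
      exact (g10_17.steps (by norm_num) (by norm_num) j).mem (by omega)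
    · obtain ⟨j, rfl⟩ : ∃ j, n = 19 + 2 * 10 * j := ⟨(n - 19) / 20, by omega⟩
      exact (g10_19.steps (by norm_num) (by norm_num) j).mem (by omega)
    · obtain ⟨j, rfl⟩ : ∃ j, n = 21 + 2 * 10 * j := ⟨(n - 21) / 20, by omega⟩
      exact (g10_21.steps (by norm_num) (by norm_num) j).mem (by omega)
    · obtain ⟨j, rfl⟩ : ∃ j, n = 23 + 2 * 10 * j := ⟨(n - 23) / 20, by omega⟩
      exact (g10_23.steps (by norm_num) (by norm_num) j).mem (by omega)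
    · obtain ⟨j, rfl⟩ : ∃ j, n = 25 + 2 * 10 * j := ⟨(n - 25) / 20, by omega⟩
      exact (g10_25.steps (by norm_num) (by norm_num) j).mem (by omega)
    · obtain ⟨j, rfl⟩ : ∃ j, n = 27 + 2 * 10 * j := ⟨(n - 27) / 20, by omega⟩
      exact (g10_27.steps (by norm_num) (by norm_num) j).mem (by omega)
    · obtain ⟨j, rfl⟩ : ∃ j, n = 29 + 2 * 10 * j := ⟨(n - 29) / 20, by omega⟩
      exact (g10_29.steps (by norm_num) (by norm_num) j).mem (by omega)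
    · obtain ⟨j, rfl⟩ : ∃ j, n = 31 + 2 * 10 * j := ⟨(n - 31) / 20, by omega⟩
      exact (g10_31.steps (by norm_num) (by norm_num) j).mem (by omega)
    · obtain ⟨j, rfl⟩ : ∃ j, n = 33 + 2 * 10 * j := ⟨(n - 33) / 20, by omega⟩
      exact (g10_33.steps (by norm_num) (by norm_num) j).mem (by omega)

end Pool.Agent.J6H93.NutE
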