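import Pool.Agent.J6H93.NutE.Ones

/-!
# Cores with a kernel of dimension two modulo `2`, and the insertion of four cells
-/

set_option autoImplicit false
set_option linter.unusedSectionVars false

namespace Pool.Agent.J6H93.NutE

open Finset Pool.Agent.TH296.Nut Pool.Agent.J6H28.Nut

/-- a closed core on `m` cells with positions `0, ..., m - 1`; `R` lists the pairs of cells taken out
of the bulk; `e f` is the closing edge -/
structure CT (m : ℕ) (V : Type) [Fintype V] [DecidableEq V] (S R : V → V → ℤ)
    (pos : V → ℕ) (a : V → ℤ) (e f : V) : Prop where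
  card : Fintype.card V = m
  inj : Function.Injective pos
  lt : ∀ v, pos v < m
  val : ∀ i j, S i j = 0 ∨ S i j = 1 ∨ S i j = -1
  symm : ∀ i j, S i j = S j i
  diag : ∀ i, S i i ≠ 1
  rv : ∀ i j, R i j = 0 ∨ R i j = 1
  rs : ∀ i j, R i j = R j i
  rp : ∀ i j, R i j ≠ 0 → (pos i + 3 ≤ pos j ∧ pos j ≤ pos i + 5) ∨
    (pos j + 3 ≤ pos i ∧ pos i ≤ pos j + 5)
  row : ∀ i, ∑ j, S i j ^ 2 = 2 + 2 * ∑ j, R i j
  band : ∀ i j, S i j ≠ 0 → R i j ≠ 0 ∨ (pos j ≤ pos i + 2 ∧ pos i ≤ pos j + 2) ∨
    (i = e ∧ j = f) ∨ (i = f ∧ j = e)
  pe : pos e + 1 = m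
  pf : pos f = 0
  nef : e ≠ f
  Sef : S e f = 1
  hz : ∀ v : V → ZMod 2, (∀ i, ∑ j, (S i j : ZMod 2) * v j = 0) →
    v = 0 ∨ v = 1 ∨ v = (fun i => (a i : ZMod 2)) ∨ v = (fun i => 1 + (a i : ZMod 2))
  anz : ∀ i, a i ≠ 0
  hSa : ∀ i, ∑ j, S i j * a j = 0
  aodd : ∑ i, (a i : ZMod 2) = 1

section ins

variable {V : Type} [Fintype V] [DecidableEq V]

/-- subdivision of the edge `e f` by four cells -/
def ins4 (S : V → V → ℤ) (e f : V) : V ⊕ Fin 4 → V ⊕ Fin 4 → ℤ
  | .inl i, .inl j => if (i = e ∧ j = f) ∨ (i = f ∧ j = e) then 0 else S i j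
  | .inl i, .inr t => if i = e ∧ t = 0 then 1 else if i = f ∧ t = 3 then 1 else 0
  | .inr t, .inl i => if i = e ∧ t = 0 then 1 else if i = f ∧ t = 3 then 1 else 0
  | .inr s, .inr t => if s.val + 1 = t.val ∨ t.val + 1 = s.val then 1 else 0

theorem row_inl {R : Type} [CommRing R] (S : V → V → ℤ) (hs : ∀ i j, S i j = S j i) (e f : V)
    (hef : e ≠ f) (h1 : S e f = 1) (g : V ⊕ Fin 4 → R) (i : V) :
    ∑ q, ((ins4 S e f (.inl i) q : ℤ) : R) * g q = ∑ j, (S i j : R) * g (.inl j) +
      (if i = e then g (.inr 0) - g (.inl f) else 0) +
      (if i = f then g (.inr 3) - g (.inl e) else 0) := by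
  rw [Fintype.sum_sum_type, Fin.sum_univ_four]
  have h2 : ∀ j, ((ins4 S e f (.inl i) (.inl j) : ℤ) : R) * g (.inl j) =
      (S i j : R) * g (.inl j) + ((if j = f then (if i = e then - g (.inl f) else 0) else 0) +
        (if j = e then (if i = f then - g (.inl e) else 0) else 0)) := by
    intro j
    have h1' : S f e = 1 := by rw [hs]; exact h1
    simp only [ins4]
    by_cases i1 : i = e
    · subst i1
      simp only [hef, true_and, false_and, or_false, if_true, if_false]
      by_cases j1 : j = f
      · subst j1
        simp [h1, hef.symm]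
      · simp [j1]
    · by_cases i2 : i = f
      · subst i2
        simp only [i1, true_and, false_and, false_or, if_true, if_false]
        by_cases j1 : j = e
        · subst j1
          simp [h1']
        · simp [j1]
      · simp [i1, i2]
  rw [Finset.sum_congr rfl fun j _ => h2 j, Finset.sum_add_distrib, Finset.sum_add_distrib]
  simp only [Finset.sum_ite_eq', Finset.mem_univ, if_true, ins4]
  by_cases i1 : i = e
  · subst i1
    simp [hef]
    ring
  · by_cases i2 : i = f
    · subst i2
      simp [i1]
      ring
    · simp [i1, i2]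

theorem row_inr0 {R : Type} [CommRing R] (S : V → V → ℤ) (e f : V)
    (g : V ⊕ Fin 4 → R) :
    ∑ q, ((ins4 S e f (.inr 0) q : ℤ) : R) * g q = g (.inl e) + g (.inr 1) := by
  rw [Fintype.sum_sum_type, Fin.sum_univ_four]
  simp [ins4]

theorem row_inr1 {R : Type} [CommRing R] (S : V → V → ℤ) (e f : V)
    (g : V ⊕ Fin 4 → R) :
    ∑ q, ((ins4 S e f (.inr 1) q : ℤ) : R) * g q = g (.inr 0) + g (.inr 2) := by
  rw [Fintype.sum_sum_type, Fin.sum_univ_four]
  simp [ins4]

theorem row_inr2 {R : Type} [CommRing R] (S : V → V → ℤ) (e f : V)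
    (g : V ⊕ Fin 4 → R) :
    ∑ q, ((ins4 S e f (.inr 2) q : ℤ) : R) * g q = g (.inr 1) + g (.inr 3) := by
  rw [Fintype.sum_sum_type, Fin.sum_univ_four]
  simp [ins4]

theorem row_inr3 {R : Type} [CommRing R] (S : V → V → ℤ) (e f : V)
    (g : V ⊕ Fin 4 → R) :
    ∑ q, ((ins4 S e f (.inr 3) q : ℤ) : R) * g q = g (.inr 2) + g (.inl f) := by
  rw [Fintype.sum_sum_type, Fin.sum_univ_four]
  simp [ins4]
  ring

theorem ins4_symm (S : V → V → ℤ) (hs : ∀ i j, S i j = S j i) (e f : V) (q r : V ⊕ Fin 4) :
    ins4 S e f q r = ins4 S e f r q := by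
  rcases q with i | s <;> rcases r with j | t
  · simp only [ins4]
    rw [hs i j]
    by_cases h : (i = e ∧ j = f) ∨ (i = f ∧ j = e)
    · rw [if_pos h, if_pos (by tauto)]
    · rw [if_neg h, if_neg (by tauto)]
  · simp only [ins4]
  · simp only [ins4]
  · simp only [ins4]
    by_cases h : s.val + 1 = t.val ∨ t.val + 1 = s.val
    · rw [if_pos h, if_pos (by tauto)]
    · rw [if_neg h, if_neg (by tauto)]

theorem ins4_val (S : V → V → ℤ) (hv : ∀ i j, S i j = 0 ∨ S i j = 1 ∨ S i j = -1) (e f : V)
    (q r : V ⊕ Fin 4) :
    ins4 S e f q r = 0 ∨ ins4 S e f q r = 1 ∨ ins4 S e f q r = -1 := by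
  rcases q with i | s <;> rcases r with j | t <;> simp only [ins4]
  · split_ifs
    · simp
    · exact hv i j
  · split_ifs <;> simp
  · split_ifs <;> simp
  · split_ifs <;> simp

theorem ins4_sq (S : V → V → ℤ) (hs : ∀ i j, S i j = S j i) (e f : V)
    (hef : e ≠ f) (h1 : S e f = 1) (i : V) :
    ∑ q, ins4 S e f (.inl i) q ^ 2 = ∑ j, S i j ^ 2 := by
  rw [Fintype.sum_sum_type, Fin.sum_univ_four]
  have h2 : ∀ j, (ins4 S e f (.inl i) (.inl j)) ^ 2 =
      S i j ^ 2 + ((if j = f then (if i = e then -1 else 0) else 0) +
        (if j = e then (if i = f then -1 else 0) else 0)) := by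
    intro j
    have h1' : S f e = 1 := by rw [hs]; exact h1
    simp only [ins4]
    by_cases i1 : i = e
    · subst i1
      simp only [hef, true_and, false_and, or_false, if_true, if_false]
      by_cases j1 : j = f
      · subst j1
        simp [h1, hef.symm]
      · simp [j1]
    · by_cases i2 : i = f
      · subst i2
        simp only [i1, true_and, false_and, false_or, if_true, if_false]
        by_cases j1 : j = e
        · subst j1
          simp [h1']
        · simp [j1]
      · simp [i1, i2]
  rw [Finset.sum_congr rfl fun j _ => h2 j, Finset.sum_add_distrib, Finset.sum_add_distrib]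
  simp only [Finset.sum_ite_eq', Finset.mem_univ, if_true, ins4]
  by_cases i1 : i = e
  · subst i1
    simp [hef]
  · by_cases i2 : i = f
    · subst i2
      simp [i1]
    · simp [i1, i2]

/-- extension of a vector -/
def ext4 {R : Type} [CommRing R] (e f : V) (g : V → R) : V ⊕ Fin 4 → R
  | .inl i => g i
  | .inr t => if t = 0 then g f else if t = 1 then - g e else if t = 2 then - g f else g e

/-- extension of the list of removed pairs -/
def extR (R : V → V → ℤ) : V ⊕ Fin 4 → V ⊕ Fin 4 → ℤ
  | .inl i, .inl j => R i j
  | _, _ => 0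

/-- new positions -/
def pos4 (m : ℕ) (pos : V → ℕ) : V ⊕ Fin 4 → ℕ
  | .inl v => pos v
  | .inr t => m + t.val

/-- Insertion of four cells. -/
theorem CT.step {m : ℕ} {S R : V → V → ℤ} {pos : V → ℕ} {a : V → ℤ} {e f : V}
    (h : CT m V S R pos a e f) :
    CT (m + 4) (V ⊕ Fin 4) (ins4 S e f) (extR R) (pos4 m pos) (ext4 e f a) (.inr 3) (.inl f) := by
  have hef := h.nef
  have hpe := h.pe
  have hpf := h.pf
  have h2' : ∀ x : ZMod 2, -x = x := fun x => ZMod.neg_eq_self_mod_two x
  refine ⟨?_, ?_, ?_, ins4_val S h.val e f, ins4_symm S h.symm e f, ?_, ?_, ?_, ?_, ?_, ?_, ?_, ?_,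
    ?_, ?_, ?_, ?_, ?_, ?_⟩
  · rw [Fintype.card_sum, h.card, Fintype.card_fin]
  · intro q r hqr
    rcases q with i | s <;> rcases r with j | t <;> simp only [pos4] at hqr
    · congr 1
      exact h.inj hqr
    · exfalso
      have := h.lt i
      omega
    · exfalso
      have := h.lt j
      omega
    · congr 1
      ext
      omega
  · intro q
    rcases q with i | t <;> simp only [pos4]
    · have := h.lt i
      omega
    · have h1 := t.2
      omega
  · intro q
    rcases q with i | t <;> simp only [ins4]
    · split_ifs
      · norm_num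
      · exact h.diag i
    · rw [if_neg (by omega)]
      norm_num
  · intro q r
    rcases q with i | s <;> rcases r with j | t <;> simp only [extR]
    · exact h.rv i j
    · simp
    · simp
    · simp
  · intro q r
    rcases q with i | s <;> rcases r with j | t <;> simp only [extR]
    exact h.rs i j
  · intro q r hqr
    rcases q with i | s <;> rcases r with j | t <;> simp only [extR, pos4] at hqr ⊢
    · exact h.rp i j hqr
    · exact absurd rfl hqr
    · exact absurd rfl hqr
    · exact absurd rfl hqr
  · intro q
    rcases q with i | t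
    · rw [ins4_sq S h.symm e f hef h.Sef, h.row i, Fintype.sum_sum_type]
      simp [extR]
    · rw [Fintype.sum_sum_type, Fin.sum_univ_four, Fintype.sum_sum_type]
      fin_cases t
      · have e1 : ∀ i, ins4 S e f (.inr 0) (.inl i) ^ 2 = if i = e then 1 else 0 := by
          intro i
          simp only [ins4]
          by_cases i1 : i = e <;> simp [i1]
        simp only [Fin.zero_eta, Fin.isValue]
        rw [Finset.sum_congr rfl fun i _ => e1 i]
        simp [ins4, extR]
      · have e1 : ∀ i, ins4 S e f (.inr 1) (.inl i) ^ 2 = 0 := by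
          intro i
          simp [ins4]
        simp only [Fin.mk_one, Fin.isValue]
        rw [Finset.sum_congr rfl fun i _ => e1 i]
        simp [ins4, extR]
      · have e1 : ∀ i, ins4 S e f (.inr 2) (.inl i) ^ 2 = 0 := by
          intro i
          simp [ins4]
        simp only [Fin.reduceFinMk, Fin.isValue]
        rw [Finset.sum_congr rfl fun i _ => e1 i]
        simp [ins4, extR]
      · have e1 : ∀ i, ins4 S e f (.inr 3) (.inl i) ^ 2 = if i = f then 1 else 0 := by
          intro i
          simp only [ins4]
          by_cases i1 : i = f <;> simp [i1]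
        simp only [Fin.reduceFinMk, Fin.isValue]
        rw [Finset.sum_congr rfl fun i _ => e1 i]
        simp [ins4, extR]
  · intro q r hqr
    rcases q with i | s <;> rcases r with j | t
    · simp only [ins4] at hqr
      split_ifs at hqr with h1
      · exact absurd rfl hqr
      · rcases h.band i j hqr with h3 | h3 | h3
        · left
          exact h3
        · right; left
          exact h3
        · exact absurd h3 h1
    · simp only [ins4] at hqr
      split_ifs at hqr with h1 h3
      · right; left
        rw [h1.1, h1.2]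
        simp only [pos4, Fin.val_zero]
        omega
      · right; right; right
        exact ⟨by rw [h3.1], by rw [h3.2]⟩
      · exact absurd rfl hqr
    · simp only [ins4] at hqr
      split_ifs at hqr with h1 h3
      · right; left
        rw [h1.1, h1.2]
        simp only [pos4, Fin.val_zero]
        omega
      · right; right; left
        exact ⟨by rw [h3.2], by rw [h3.1]⟩
      · exact absurd rfl hqr
    · right; left
      simp only [ins4] at hqr
      split_ifs at hqr with h1
      · simp only [pos4]
        omega
      · exact absurd rfl hqr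
  · simp only [pos4]
    rfl
  · simp only [pos4]
    exact hpf
  · simp
  · simp [ins4]
  · intro v hv
    have r0 := hv (.inr 0)
    have r1 := hv (.inr 1)
    have r2 := hv (.inr 2)
    have r3 := hv (.inr 3)
    rw [row_inr0] at r0
    rw [row_inr1] at r1
    rw [row_inr2] at r2
    rw [row_inr3] at r3
    have q1 : v (.inr 1) = v (.inl e) := by
      rw [← h2' (v (.inr 1))]
      linear_combination -r0
    have q2 : v (.inr 2) = v (.inl f) := by
      rw [← h2' (v (.inl f))]
      linear_combination r3
    have q0 : v (.inr 0) = v (.inl f) := by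
      rw [← h2' (v (.inl f)), ← q2]
      linear_combination r1
    have q3 : v (.inr 3) = v (.inl e) := by
      rw [← h2' (v (.inl e)), ← q1]
      linear_combination r2
    have k1 : ∀ i, ∑ j, (S i j : ZMod 2) * v (.inl j) = 0 := by
      intro i
      have := hv (.inl i)
      rw [row_inl S h.symm e f hef h.Sef, q0, q3] at this
      simpa using this
    have hext : ∀ t : Fin 4, v (.inr t) = if t = 0 then v (.inl f) else if t = 1 then v (.inl e) else
        if t = 2 then v (.inl f) else v (.inl e) := by
      intro t
      fin_cases t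
      · simpa using q0
      · simpa using q1
      · simpa using q2
      · simpa using q3
    rcases h.hz (fun j => v (.inl j)) k1 with h3 | h3 | h3 | h3
    · left
      have hi := fun i => congrFun h3 i
      simp only [Pi.zero_apply] at hi
      funext q
      rcases q with i | t
      · exact hi i
      · rw [hext t, hi e, hi f]
        simp
    · right; left
      have hi := fun i => congrFun h3 i
      simp only [Pi.one_apply] at hi
      funext q
      rcases q with i | t
      · exact hi i
      · rw [hext t, hi e, hi f]
        simp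
    · right; right; left
      have hi := fun i => congrFun h3 i
      funext q
      rcases q with i | t
      · exact hi i
      · rw [hext t, hi e, hi f]
        fin_cases t <;> simp [ext4, h2']
    · right; right; right
      have hi := fun i => congrFun h3 i
      funext q
      rcases q with i | t
      · exact hi i
      · rw [hext t, hi e, hi f]
        fin_cases t <;> simp [ext4, h2']
  · intro q
    rcases q with i | t
    · exact h.anz i
    · fin_cases t
      · simp [ext4, h.anz f]
      · simp [ext4, h.anz e]
      · simp [ext4, h.anz f]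
      · simp [ext4, h.anz e]
  · intro q
    rcases q with i | t
    · have := row_inl (R := ℤ) S h.symm e f hef h.Sef (ext4 e f a) i
      simp only [Int.cast_id] at this
      rw [this]
      simp only [ext4]
      rw [h.hSa i]
      simp
    · fin_cases t
      · have := row_inr0 (R := ℤ) S e f (ext4 e f a)
        simp only [Int.cast_id] at this
        simp only [Fin.zero_eta, Fin.isValue]
        rw [this]
        simp [ext4]
      · have := row_inr1 (R := ℤ) S e f (ext4 e f a)
        simp only [Int.cast_id] at this
        simp only [Fin.mk_one, Fin.isValue]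
        rw [this]
        simp [ext4]
      · have := row_inr2 (R := ℤ) S e f (ext4 e f a)
        simp only [Int.cast_id] at this
        simp only [Fin.reduceFinMk, Fin.isValue]
        rw [this]
        simp [ext4]
      · have := row_inr3 (R := ℤ) S e f (ext4 e f a)
        simp only [Int.cast_id] at this
        simp only [Fin.reduceFinMk, Fin.isValue]
        rw [this]
        simp [ext4]
  · rw [Fintype.sum_sum_type, Fin.sum_univ_four]
    simp only [ext4]
    rw [h.aodd]
    have e2 : (2 : ZMod 2) = 0 := by decide
    simp only [if_true, Fin.isValue]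
    simp [h2']
    linear_combination ((a e : ZMod 2) + (a f : ZMod 2)) * e2

end ins

end Pool.Agent.J6H93.NutE
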