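import Pool.Agent.J6H93.NutE.Tor

/-!
# Cores give regular nut graphs of degree `2` modulo `4`
-/

set_option autoImplicit false
set_option linter.unusedSectionVars false

namespace Pool.Agent.J6H93.NutE

open Finset Pool.Agent.TH296.Nut Pool.Agent.J6H28.Nut

theorem cir_symm (m h i j : ℕ) : cir m h i j ↔ cir m h j i := by
  unfold cir
  constructor <;> intro h <;> omega

theorem CT.mem {m : ℕ} {V : Type} [Fintype V] [DecidableEq V] {S R : V → V → ℤ} {pos : V → ℕ}
    {a : V → ℤ} {e f : V} (h : CT m V S R pos a e f) {d : ℕ} (hd : 3 ≤ d) (hm : 2 * d + 5 ≤ m)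
    (hodd : m % 2 = 1) : 2 * m ∈ nutOrders (4 * d + 2) := by
  have hpe := h.pe
  have hpf := h.pf
  set C : V → V → ℤ := fun i j => if cir m d (pos i) (pos j) then 1 else 0 with hC
  set K : V → V → ℤ := fun i j => C i j - R i j with hK
  have hR1 : ∀ i j, R i j ≠ 0 → C i j = 1 := by
    intro i j hij
    simp only [hC]
    rw [if_pos]
    have := h.rp i j hij
    unfold cir
    omega
  have hCs : ∀ i j, C i j = C j i := by
    intro i j
    simp only [hC]
    by_cases hb : cir m d (pos i) (pos j)
    · rw [if_pos hb, if_pos ((cir_symm _ _ _ _).1 hb)]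
    · rw [if_neg hb, if_neg (fun hb2 => hb ((cir_symm _ _ _ _).1 hb2))]
  have hband : ∀ i j, (pos j ≤ pos i + 2 ∧ pos i ≤ pos j + 2) → C i j = 0 := by
    intro i j hij
    simp only [hC]
    rw [if_neg]
    have h1 := h.lt i
    have h2 := h.lt j
    unfold cir
    omega
  have hCef : C e f = 0 := by
    simp only [hC]
    rw [if_neg]
    unfold cir
    omega
  have hCfe : C f e = 0 := by rw [hCs]; exact hCef
  have hCv : ∀ i j, C i j = 0 ∨ C i j = 1 := by
    intro i j
    simp only [hC]
    split_ifs <;> simp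
  have hP : PD V (4 * d + 2) S K := by
    refine ⟨h.val, h.symm, h.diag, ?_, ?_, ?_, ?_, ?_⟩
    · intro i j
      simp only [hK]
      rcases h.rv i j with e1 | e1
      · rw [e1, sub_zero]
        exact hCv i j
      · rw [hR1 i j (by rw [e1]; norm_num), e1]
        norm_num
    · intro i j
      simp only [hK]
      rw [hCs i j, h.rs i j]
    · intro i
      simp only [hK]
      rw [hband i i (by omega)]
      rcases h.rv i i with e1 | e1
      · rw [e1]; norm_num
      · exfalso
        have := h.rp i i (by rw [e1]; norm_num)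
        omega
    · intro i j hij
      by_contra hS
      apply hij
      simp only [hK]
      rcases h.band i j hS with hb | hb | hb | hb
      · have h1 := hR1 i j hb
        rcases h.rv i j with e1 | e1
        · exact absurd e1 hb
        · rw [h1, e1]; norm_num
      · have h1 := hband i j hb
        rcases h.rv i j with e1 | e1
        · rw [h1, e1]; norm_num
        · exfalso
          have := hR1 i j (by rw [e1]; norm_num)
          rw [h1] at this
          exact absurd this (by norm_num)
      · rw [hb.1, hb.2, hCef]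
        rcases h.rv e f with e1 | e1
        · rw [e1]; norm_num
        · exfalso
          have := hR1 e f (by rw [e1]; norm_num)
          rw [hCef] at this
          exact absurd this (by norm_num)
      · rw [hb.1, hb.2, hCfe]
        rcases h.rv f e with e1 | e1
        · rw [e1]; norm_num
        · exfalso
          have := hR1 f e (by rw [e1]; norm_num)
          rw [hCfe] at this
          exact absurd this (by norm_num)
    · intro i
      have e1 : ∑ j, C i j = (((range m).filter (fun j => cir m d (pos i) j)).card : ℤ) := by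
        rw [← card_pos pos h.card h.inj h.lt]
        simp only [hC]
        rw [Finset.sum_boole]
      rw [Finset.sum_add_distrib, ← Finset.mul_sum, h.row i]
      simp only [hK]
      rw [Finset.sum_sub_distrib, e1, card_cir (h.lt i) (by omega)]
      push_cast
      ring
  have hmm : ((4 * d + 2) * Fintype.card V) % 4 = 2 := by
    rw [h.card]
    obtain ⟨c, rfl⟩ : ∃ c, m = 2 * c + 1 := ⟨m / 2, by omega⟩
    have : (4 * d + 2) * (2 * c + 1) = 4 * (2 * d * c + d + c) + 2 := by ring
    omega
  have := PD.mem_four hP hmm a h.anz h.hSa h.hz h.aodd (by rw [h.card]; exact hodd)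
  rwa [h.card] at this

/-- existence of a core -/
def HasCT (m : ℕ) : Prop :=
  ∃ (V : Type) (_ : Fintype V) (_ : DecidableEq V) (S R : V → V → ℤ)
    (pos : V → ℕ) (a : V → ℤ) (e f : V), CT m V S R pos a e f

theorem HasCT.step {m : ℕ} (h : HasCT m) : HasCT (m + 4) := by
  obtain ⟨V, _, _, S, R, pos, a, e, f, h⟩ := h
  exact ⟨_, _, _, _, _, _, _, _, _, h.step⟩

theorem HasCT.steps {m : ℕ} (h : HasCT m) (j : ℕ) : HasCT (m + 4 * j) := by
  induction j with
  | zero => exact h
  | succ j ih => exact ih.step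

theorem HasCT.mem {m : ℕ} (h : HasCT m) {d : ℕ} (hd : 3 ≤ d) (hm : 2 * d + 5 ≤ m)
    (hodd : m % 2 = 1) : 2 * m ∈ nutOrders (4 * d + 2) := by
  obtain ⟨V, _, _, S, R, pos, a, e, f, h⟩ := h
  exact h.mem hd hm hodd

/-! ### certificates -/

/-- all the conditions on a core on `Fin m`, in decidable form -/
def ChkT (m : ℕ) (S R L : List (List ℤ)) (a al be : List ℤ) (e f q1 q2 : Fin m) : Prop :=
  (∀ i j : Fin m, ent S i j = 0 ∨ ent S i j = 1 ∨ ent S i j = -1) ∧
  (∀ i j : Fin m, ent S i j = ent S j i) ∧
  (∀ i : Fin m, ent S i i ≠ 1) ∧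
  (∀ i j : Fin m, ent R i j = 0 ∨ ent R i j = 1) ∧
  (∀ i j : Fin m, ent R i j = ent R j i) ∧
  (∀ i j : Fin m, ent R i j ≠ 0 → (i.val + 3 ≤ j.val ∧ j.val ≤ i.val + 5) ∨
    (j.val + 3 ≤ i.val ∧ i.val ≤ j.val + 5)) ∧
  (∀ i : Fin m, ∑ j : Fin m, ent S i j ^ 2 = 2 + 2 * ∑ j : Fin m, ent R i j) ∧
  (∀ i j : Fin m, ent S i j ≠ 0 → ent R i j ≠ 0 ∨ (j.val ≤ i.val + 2 ∧ i.val ≤ j.val + 2) ∨
    (i = e ∧ j = f) ∨ (i = f ∧ j = e)) ∧
  (e.val + 1 = m) ∧ (f.val = 0) ∧ (e ≠ f) ∧ (ent S e f = 1) ∧
  (∀ j k : Fin m, (∑ i : Fin m, ent L j i * ent S i k + (if j = k then 1 else 0) +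
    al.getD j 0 * (if k = q1 then 1 else 0) + be.getD j 0 * (if k = q2 then 1 else 0)) % 2 = 0) ∧
  (∀ j : Fin m, (al.getD j 0 + be.getD j 0) % 2 = 1) ∧
  (∀ j : Fin m, (be.getD j 0 + a.getD j 0) % 2 = 0) ∧
  (∀ i : Fin m, a.getD i 0 ≠ 0) ∧
  (∀ i : Fin m, ∑ j : Fin m, ent S i j * a.getD j 0 = 0) ∧
  ((∑ i : Fin m, a.getD i 0) % 2 = 1)

instance (m : ℕ) (S R L : List (List ℤ)) (a al be : List ℤ) (e f q1 q2 : Fin m) :
    Decidable (ChkT m S R L a al be e f q1 q2) := by
  unfold ChkT; infer_instance

theorem ChkT.has {m : ℕ} {S R L : List (List ℤ)} {a al be : List ℤ} {e f q1 q2 : Fin m}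
    (h : ChkT m S R L a al be e f q1 q2) : HasCT m := by
  obtain ⟨c1, c2, c3, c4, c5, c6, c7, c8, c9, c10, c11, c12, c13, c14, c15, c16, c17, c18⟩ := h
  have e2 : (2 : ZMod 2) = 0 := by decide
  refine ⟨Fin m, inferInstance, inferInstance, fun i j => ent S i j, fun i j => ent R i j,
    fun i => i.val, fun i => a.getD i 0, e, f, ?_⟩
  refine ⟨Fintype.card_fin m, Fin.val_injective, fun v => v.2, c1, c2, c3, c4, c5, c6, c7, c8, c9,
    c10, c11, c12, ?_, c16, c17, ?_⟩
  · intro v hv
    have key : ∀ j : Fin m, v j = ((al.getD j 0 : ℤ) : ZMod 2) * v q1 +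
        ((be.getD j 0 : ℤ) : ZMod 2) * v q2 := by
      intro j
      have h1 : ∀ k : Fin m, ((∑ i : Fin m, ent L j i * ent S i k + (if j = k then 1 else 0) +
          al.getD j 0 * (if k = q1 then 1 else 0) + be.getD j 0 * (if k = q2 then 1 else 0) : ℤ) :
          ZMod 2) = 0 := fun k => cast0 _ (c13 j k)
      have h2 : ∑ k : Fin m, ((∑ i : Fin m, ent L j i * ent S i k + (if j = k then 1 else 0) +
          al.getD j 0 * (if k = q1 then 1 else 0) + be.getD j 0 * (if k = q2 then 1 else 0) : ℤ) :
          ZMod 2) * v k = 0 := by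
        refine Finset.sum_eq_zero fun k _ => ?_
        rw [h1 k, zero_mul]
      have h3 : ∀ k : Fin m, ((∑ i : Fin m, ent L j i * ent S i k + (if j = k then 1 else 0) +
          al.getD j 0 * (if k = q1 then 1 else 0) + be.getD j 0 * (if k = q2 then 1 else 0) : ℤ) :
          ZMod 2) * v k =
          ∑ i : Fin m, (ent L j i : ZMod 2) * ((ent S i k : ZMod 2) * v k) +
          (if j = k then v k else 0) + (if k = q1 then ((al.getD j 0 : ℤ) : ZMod 2) * v k else 0) +
          (if k = q2 then ((be.getD j 0 : ℤ) : ZMod 2) * v k else 0) := by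
        intro k
        push_cast
        rw [add_mul, add_mul, add_mul, Finset.sum_mul]
        congr 1
        · congr 1
          · congr 1
            · refine Finset.sum_congr rfl fun i _ => ?_
              ring
            · split_ifs <;> simp
          · split_ifs <;> simp
        · split_ifs <;> simp
      rw [Finset.sum_congr rfl fun k _ => h3 k, Finset.sum_add_distrib, Finset.sum_add_distrib,
        Finset.sum_add_distrib, Finset.sum_comm] at h2
      have h4 : ∑ i : Fin m, ∑ k : Fin m, (ent L j i : ZMod 2) * ((ent S i k : ZMod 2) * v k) = 0 := by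
        refine Finset.sum_eq_zero fun i _ => ?_
        rw [← Finset.mul_sum, hv i, mul_zero]
      rw [h4, Finset.sum_ite_eq, Finset.sum_ite_eq', Finset.sum_ite_eq', if_pos (Finset.mem_univ _),
        if_pos (Finset.mem_univ _), if_pos (Finset.mem_univ _), zero_add] at h2
      linear_combination h2 - e2 * (((al.getD j 0 : ℤ) : ZMod 2) * v q1 +
        ((be.getD j 0 : ℤ) : ZMod 2) * v q2)
    have hbe : ∀ j : Fin m, ((be.getD j 0 : ℤ) : ZMod 2) = ((a.getD j 0 : ℤ) : ZMod 2) := by
      intro j
      have := cast0 _ (c15 j)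
      push_cast at this
      linear_combination this - e2 * ((a.getD j 0 : ℤ) : ZMod 2)
    have hal : ∀ j : Fin m, ((al.getD j 0 : ℤ) : ZMod 2) = 1 + ((a.getD j 0 : ℤ) : ZMod 2) := by
      intro j
      have := cast1 _ (c14 j)
      push_cast at this
      rw [← hbe j]
      linear_combination this - e2 * ((be.getD j 0 : ℤ) : ZMod 2)
    have h01 : ∀ x : ZMod 2, x = 0 ∨ x = 1 := by decide
    rcases h01 (v q1) with h5 | h5 <;> rcases h01 (v q2) with h6 | h6
    · left
      funext j
      rw [key j, h5, h6]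
      simp
    · right; right; left
      funext j
      rw [key j, h5, h6, hbe j]
      simp
    · right; right; right
      funext j
      rw [key j, h5, h6, hal j]
      simp
    · right; left
      funext j
      rw [key j, h5, h6, hal j, hbe j]
      simp only [mul_one, Pi.one_apply]
      linear_combination e2 * ((a.getD j 0 : ℤ) : ZMod 2)
  · have := cast1 _ c18
    push_cast at this
    exact this

end Pool.Agent.J6H93.NutE
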